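import Pool.Agent.H438R3.BSD.Main2

/-! Averaged asymptotics for the products of Birch and Swinnerton-Dyer: statements of the pieces. -/

set_option autoImplicit false

open Complex Filter Topology Finset MeasureTheory

namespace Pool.Agent.H814R3.BSD

open Pool.Agent.H438R3.BSD

/-- the kernel `2 ∫_0^1 (1 - s) e^s cos (τ s) ds` -/
noncomputable def kap (τ : ℝ) : ℝ := 2 * ∫ s in (0 : ℝ)..1, (1 - s) * Real.exp s * Real.cos (τ * s)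

/-- the entire function with `kk (i τ) = kap τ` -/
noncomputable def kk (z : ℂ) : ℂ :=
  ∫ s in (0 : ℝ)..1, (((1 - s) * Real.exp s : ℝ) : ℂ) * (exp (z * s) + exp (-(z * s)))

/-- `1 / (n log n)` for `n ≥ 2` -/
noncomputable def zz (n : ℕ) : ℝ := if 2 ≤ n then 1 / (n * Real.log n) else 0

/-- its Dirichlet series `∑ n^(-w) / (n log n)` -/
noncomputable def ZZ (w : ℂ) : ℂ := LSeries (fun n => (zz n : ℂ)) w

/-- K1: the kernel on the real line and in vertical strips -/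
def TaskKap : Prop :=
  (∃ C : ℝ, ∀ τ : ℝ, |kap τ| ≤ C / (1 + τ ^ 2)) ∧ Continuous kap ∧
  (∀ τ : ℝ, kk (τ * I) = (kap τ : ℂ)) ∧
  Differentiable ℂ kk ∧
  (∀ R : ℝ, ∃ B : ℝ, ∀ z : ℂ, |z.re| ≤ R → ‖kk z‖ ≤ B / (1 + z.im ^ 2))

/-- K2: the inverse transform on the line `Re z = 0` (then `∫ kap = 2 π`) -/
def TaskInv : Prop := ∀ x : ℝ, 0 ≤ x →
  ∫ τ : ℝ, (kap τ : ℂ) * exp (-(τ * I * x)) = ((2 * Real.pi * (max (1 - x) 0 * Real.exp x) : ℝ) : ℂ)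

/-- K3: shifting a vertical line -/
def TaskShift : Prop := ∀ (c d B : ℝ) (G : ℂ → ℂ), c ≤ d →
  (∃ U : Set ℂ, IsOpen U ∧ {w : ℂ | c ≤ w.re ∧ w.re ≤ d} ⊆ U ∧ DifferentiableOn ℂ G U) →
  (∀ w : ℂ, c ≤ w.re → w.re ≤ d → ‖G w‖ ≤ B * (1 + |w.im|) ^ (-(3 / 2) : ℝ)) →
  Integrable (fun t : ℝ => G (c + t * I)) ∧ Integrable (fun t : ℝ => G (d + t * I)) ∧
  ∫ t : ℝ, G (c + t * I) = ∫ t : ℝ, G (d + t * I)

/-- K4: the explicit formula. From K1, K2, K3. -/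
def TaskPerron : Prop := ∀ (a : ℕ → ℝ) (H : ℂ → ℂ), a 0 = 0 →
  Summable (fun n : ℕ => |a n| / n) →
  DifferentiableOn ℂ H {w | 0 < w.re} →
  (∀ w : ℂ, 1 ≤ w.re → H w = LSeries (fun n => (a n : ℂ)) w) →
  (∀ σ : ℝ, 0 < σ → ∃ B : ℝ, ∀ w : ℂ, σ ≤ w.re → w.re ≤ 1 →
    ‖H w‖ ≤ B * (1 + |w.im|) ^ (1 / 2 : ℝ)) →
  ∀ U : ℝ, 1 ≤ U →
    ∑ k ∈ Finset.Icc 1 ⌊Real.exp U⌋₊, a k * (1 - Real.log k / U) =
      1 / (2 * Real.pi) * ∫ τ : ℝ, kap τ * (H ((1 + τ * I) / U)).re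

/-- L1: holomorphic logarithm on the right half plane -/
def TaskLog : Prop := ∀ f : ℂ → ℂ, DifferentiableOn ℂ f {w | 0 < w.re} →
  (∀ w : ℂ, 0 < w.re → f w ≠ 0) →
  ∃ L : ℂ → ℂ, DifferentiableOn ℂ L {w | 0 < w.re} ∧ ∀ w : ℂ, 0 < w.re → exp (L w) = f w

/-- L2: Borel-Carathéodory in the half plane -/
def TaskBC : Prop := ∀ L : ℂ → ℂ, DifferentiableOn ℂ L {w | 0 < w.re} →
  (∃ B0 : ℝ, ∀ w : ℂ, 1 ≤ w.re → ‖L w‖ ≤ B0) →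
  (∃ A : ℝ, ∀ w : ℂ, 0 < w.re → (L w).re ≤ A * (1 + Real.log (1 + ‖w‖))) →
  ∀ σ : ℝ, 0 < σ → ∃ B : ℝ, ∀ w : ℂ, σ ≤ w.re → ‖L w‖ ≤ B * (1 + |w.im|) ^ (1 / 2 : ℝ)

/-- L3: the mean of `|Re L|` on vertical lines (positivity of `A log (w + 2) + B - Re L`
and Cauchy's formula). May use L2. -/
def TaskPois : Prop := ∀ L : ℂ → ℂ, DifferentiableOn ℂ L {w | 0 < w.re} →
  (∃ B0 : ℝ, ∀ w : ℂ, 1 ≤ w.re → ‖L w‖ ≤ B0) →
  (∃ A : ℝ, ∀ w : ℂ, 0 < w.re → (L w).re ≤ A * (1 + Real.log (1 + ‖w‖))) →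
  ∃ C : ℝ, ∀ σ : ℝ, 0 < σ → σ ≤ 1 →
    Integrable (fun t : ℝ => |(L (σ + t * I)).re| / (1 + t ^ 2)) ∧
    ∫ t : ℝ, |(L (σ + t * I)).re| / (1 + t ^ 2) ≤ C

open Classical in
/-- L4: for the `L`-function of a curve without zeros in `Re s > 1` the logarithm is given by the
Euler product, and it is bounded in `Re w ≥ 1`. From L1. -/
def TaskEuler : Prop := ∀ (a b : ℤ) (F : ℂ → ℂ), IsL a b F → (∀ s : ℂ, 1 < s.re → F s ≠ 0) →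
  ∃ L : ℂ → ℂ, DifferentiableOn ℂ L {w | 0 < w.re} ∧
    (∀ w : ℂ, 0 < w.re → exp (L w) = F (1 + w)) ∧
    (∀ w : ℂ, 1 / 2 < w.re → HasSum (fun p : ℕ => LL (Good a b) (al a b) p (1 + w)) (L w)) ∧
    ∃ B0 : ℝ, ∀ w : ℂ, 1 ≤ w.re → ‖L w‖ ≤ B0

/-- Z1: the comparison series -/
def TaskZ : Prop := DifferentiableOn ℂ ZZ {w | 0 < w.re} ∧
  (∀ w : ℂ, 0 < w.re → LSeriesSummable (fun n => (zz n : ℂ)) w) ∧
  ∃ C : ℝ, ∀ w : ℂ, 0 < w.re → ‖ZZ w‖ ≤ C * (1 + |Real.log w.re|)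

/-- Z2: its behaviour at `0`, and the partial sums -/
def TaskZ0 : Prop := ∃ c : ℝ,
  Tendsto (fun n : ℕ => (∑ k ∈ Finset.Icc 1 n, zz k) - Real.log (Real.log n)) atTop (𝓝 c) ∧
  (∀ τ : ℝ, Tendsto (fun U : ℝ => (ZZ ((1 + τ * I) / U)).re + Real.log ‖((1 + τ * I) / U : ℂ)‖)
    atTop (𝓝 (c - Real.eulerMascheroniConstant))) ∧
  ∃ C : ℝ, ∀ w : ℂ, 0 < w.re → ‖w‖ ≤ 1 → |(ZZ w).re + Real.log ‖w‖| ≤ C

open Classical in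
/-- D1: bound for the sum of the local error terms -/
def TaskDD : Prop := ∀ a b : ℤ, ∃ C : ℝ, ∀ w : ℂ, 0 < w.re → w.re ≤ 1 →
  ‖∑' p, dd (Good a b) (al a b) p (1 + w)‖ ≤ C * (1 + Real.log (1 + ‖w‖ / w.re))

open Classical in
/-- the mean value of `a_p ^ 2 / p` (Rankin-Selberg, in the form of the first theorem of Mertens) -/
def RS (a b : ℤ) : Prop := ∃ C : ℝ, ∀ n : ℕ, 1 ≤ n →
  |(∑ p ∈ (Finset.Icc 1 n).filter (Good a b),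
    ((p : ℝ) - Np a b p) ^ 2 / p * (Real.log p / p)) - Real.log n| ≤ C

open Classical in
/-- D2: the limit of the sum of the local error terms -/
def TaskDD0 : Prop := ∀ a b : ℤ, 4 * a ^ 3 + 27 * b ^ 2 ≠ 0 → RS a b → ∀ τ : ℝ,
  Tendsto (fun U : ℝ => (∑' p, dd (Good a b) (al a b) p (1 + (1 + τ * I) / U)).re) atTop
    (𝓝 (Real.log 2 / 2))

/-- A1: logarithmic averages -/
def TaskAvg : Prop := ∀ (a : ℕ → ℝ) (K h : ℝ), a 0 = 0 →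
  (∀ n : ℕ, 1 ≤ n → |a n| ≤ K * (n : ℝ) ^ (-(1 / 2) : ℝ)) →
  Tendsto (fun U : ℝ => ∑ k ∈ Finset.Icc 1 ⌊Real.exp U⌋₊, a k * (1 - Real.log k / U)) atTop (𝓝 h) →
  Tendsto (fun n : ℕ => (∑ j ∈ Finset.Icc 2 n, (∑ k ∈ Finset.Icc 1 j, a k) / j) / Real.log n)
    atTop (𝓝 h)

/-- A2: logarithmic averages of a convergent sequence -/
def TaskAvg2 : Prop := ∀ (c : ℕ → ℝ) (l : ℝ), Tendsto c atTop (𝓝 l) →
  Tendsto (fun n : ℕ => (∑ j ∈ Finset.Icc 2 n, c j / j) / Real.log n) atTop (𝓝 l)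

/-- A3: passage to the limit in the explicit formula. From K1, K2. -/
def TaskLim : Prop := ∀ (h : ℝ → ℝ → ℝ) (h0 C δ U0 : ℝ), 0 < δ → 1 ≤ U0 →
  (∀ U : ℝ, U0 ≤ U → Continuous (h U)) →
  (∀ τ : ℝ, Tendsto (fun U : ℝ => h U τ) atTop (𝓝 h0)) →
  (∀ U τ : ℝ, U0 ≤ U → |τ| ≤ δ * U → |h U τ| ≤ C * (1 + Real.log (1 + |τ|))) →
  (∀ U : ℝ, U0 ≤ U → Integrable (fun t : ℝ => |h U (U * t)| / (1 + t ^ 2)) ∧
    ∫ t : ℝ, |h U (U * t)| / (1 + t ^ 2) ≤ C * (1 + Real.log U)) →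
  Tendsto (fun U : ℝ => 1 / (2 * Real.pi) * ∫ τ : ℝ, kap τ * h U τ) atTop (𝓝 h0)

/-- E1: the congruent number curves: continuation and growth (from `H304R2/EC`, `H385R2/EcD*`) -/
def TaskED : Prop := ∀ D : ℕ, Odd D → Squarefree D → ∃ F : ℂ → ℂ, IsL (-(D : ℤ) ^ 2) 0 F ∧
  ∃ C K : ℝ, ∀ s : ℂ, 1 ≤ s.re → ‖F s‖ ≤ C * (1 + ‖s‖) ^ K

/-- E2: the Rankin-Selberg mean value for the congruent number curves (from `H304R2/EC/RS`) -/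
def TaskRS : Prop := ∀ D : ℕ, Odd D → Squarefree D → RS (-(D : ℤ) ^ 2) 0

end Pool.Agent.H814R3.BSD
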