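import Mathlib
import Pool.Agent.H814R3.BSD.Stmts

/-! Holomorphic logarithm of a nonvanishing function on the right half plane. -/

set_option autoImplicit false

open Complex Filter Topology Finset MeasureTheory

namespace Pool.Agent.H814R3.BSD.TLog

/-- holomorphic logarithm on the unit disc -/
theorem log_ball (g : ℂ → ℂ) (hg : DifferentiableOn ℂ g (Metric.ball 0 1))
    (h0 : ∀ z ∈ Metric.ball (0 : ℂ) 1, g z ≠ 0) :
    ∃ G : ℂ → ℂ, DifferentiableOn ℂ G (Metric.ball 0 1) ∧
      ∀ z ∈ Metric.ball (0 : ℂ) 1, exp (G z) = g z := by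
  have hd : DifferentiableOn ℂ (fun z => deriv g z / g z) (Metric.ball 0 1) :=
    (hg.deriv Metric.isOpen_ball).div hg h0
  obtain ⟨G, hG⟩ := hd.isExactOn_ball
  have hgd : ∀ z ∈ Metric.ball (0 : ℂ) 1, HasDerivAt g (deriv g z) z := fun z hz =>
    ((hg z hz).differentiableAt (Metric.isOpen_ball.mem_nhds hz)).hasDerivAt
  have hq : ∀ z ∈ Metric.ball (0 : ℂ) 1, HasDerivAt (fun z => g z * exp (-(G z))) 0 z := by
    intro z hz
    have h1 : HasDerivAt (fun z => g z * exp (-(G z)))
        (deriv g z * exp (-(G z)) + g z * (exp (-(G z)) * -(deriv g z / g z))) z :=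
      (hgd z hz).mul ((hG z hz).neg.cexp)
    have h2 : deriv g z * exp (-(G z)) + g z * (exp (-(G z)) * -(deriv g z / g z)) = 0 := by
      have := h0 z hz
      field_simp
      ring
    rw [h2] at h1
    exact h1
  have hconst : ∀ z ∈ Metric.ball (0 : ℂ) 1, g z * exp (-(G z)) = g 0 * exp (-(G 0)) := by
    intro z hz
    have h0m : (0 : ℂ) ∈ Metric.ball (0 : ℂ) 1 := by simp
    have hcv : Convex ℝ (Metric.ball (0 : ℂ) 1) := convex_ball _ _
    have := IsOpen.is_const_of_deriv_eq_zero Metric.isOpen_ball hcv.isPreconnected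
      (f := fun z => g z * exp (-(G z)))
      (fun w hw => (hq w hw).differentiableAt.differentiableWithinAt)
      (fun w hw => (hq w hw).deriv) hz h0m
    exact this
  have hc : g 0 * exp (-(G 0)) ≠ 0 := mul_ne_zero (h0 0 (by simp)) (exp_ne_zero _)
  refine ⟨fun z => G z + Complex.log (g 0 * exp (-(G 0))), ?_, ?_⟩
  · intro z hz
    exact ((hG z hz).differentiableAt.add_const _).differentiableWithinAt
  · intro z hz
    have h5 := hconst z hz
    show exp (G z + Complex.log (g 0 * exp (-(G 0)))) = g z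
    rw [Complex.exp_add, Complex.exp_log hc, ← h5, Complex.exp_neg]
    field_simp

theorem log_ok' (f : ℂ → ℂ) (hf : DifferentiableOn ℂ f {w | 0 < w.re})
    (h0 : ∀ w : ℂ, 0 < w.re → f w ≠ 0) :
    ∃ L : ℂ → ℂ, DifferentiableOn ℂ L {w | 0 < w.re} ∧ ∀ w : ℂ, 0 < w.re → exp (L w) = f w := by
  have h1 : ∀ z ∈ Metric.ball (0 : ℂ) 1, (1 - z) ≠ 0 := by
    intro z hz h
    have : z = 1 := by linear_combination -h
    subst this
    simp at hz
  have hre : ∀ z ∈ Metric.ball (0 : ℂ) 1, 0 < ((1 + z) / (1 - z)).re := by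
    intro z hz
    have hz1 : z.re * z.re + z.im * z.im < 1 := by
      have h2 : ‖z‖ < 1 := by simpa using hz
      have h3 : normSq z < 1 := by
        rw [Complex.normSq_eq_norm_sq]
        nlinarith [norm_nonneg z]
      simpa [Complex.normSq_apply] using h3
    have hn : 0 < normSq (1 - z) := Complex.normSq_pos.mpr (h1 z hz)
    rw [Complex.div_re, ← add_div]
    apply div_pos _ hn
    simp
    nlinarith
  have h2 : ∀ w : ℂ, 0 < w.re → w + 1 ≠ 0 := by
    intro w hw h
    have := congrArg Complex.re h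
    simp at this
    linarith
  have hball : ∀ w : ℂ, 0 < w.re → (w - 1) / (w + 1) ∈ Metric.ball (0 : ℂ) 1 := by
    intro w hw
    rw [mem_ball_zero_iff, norm_div, div_lt_one (norm_pos_iff.mpr (h2 w hw))]
    rw [← sq_lt_sq₀ (norm_nonneg _) (norm_nonneg _), ← Complex.normSq_eq_norm_sq,
      ← Complex.normSq_eq_norm_sq, Complex.normSq_apply, Complex.normSq_apply]
    simp
    nlinarith
  obtain ⟨G, hG, hGe⟩ := log_ball (fun z => f ((1 + z) / (1 - z)))
    (by
      refine hf.comp ?_ (fun z hz => hre z hz)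
      intro z hz
      have := h1 z hz
      have hd1 : DifferentiableAt ℂ (fun z : ℂ => 1 + z) z := by fun_prop
      have hd2 : DifferentiableAt ℂ (fun z : ℂ => 1 - z) z := by fun_prop
      exact (hd1.div hd2 this).differentiableWithinAt)
    (fun z hz => h0 _ (hre z hz))
  refine ⟨fun w => G ((w - 1) / (w + 1)), ?_, ?_⟩
  · refine hG.comp ?_ (fun w hw => hball w hw)
    intro w hw
    have hd1 : DifferentiableAt ℂ (fun w : ℂ => w - 1) w := by fun_prop
    have hd2 : DifferentiableAt ℂ (fun w : ℂ => w + 1) w := by fun_prop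
    exact (hd1.div hd2 (h2 w hw)).differentiableWithinAt
  · intro w hw
    have h3 := h2 w hw
    have := hGe _ (hball w hw)
    simp only at this ⊢
    rw [this]
    congr 1
    have h4 : 1 - (w - 1) / (w + 1) = 2 / (w + 1) := by field_simp; ring
    have h5 : 1 + (w - 1) / (w + 1) = 2 * w / (w + 1) := by field_simp; ring
    rw [h4, h5]
    field_simp

end Pool.Agent.H814R3.BSD.TLog

namespace Pool.Agent.H814R3.BSD

theorem log_ok : TaskLog := fun f hf h0 => TLog.log_ok' f hf h0

end Pool.Agent.H814R3.BSD
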