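import Pool.Agent.H814R3.BSD.Stmts
import Pool.Agent.H41R3.BSDAvg

set_option autoImplicit false

namespace Pool.Agent.H814R3.BSD

/-- A1: logarithmic averages (helper41) -/
theorem taskAvg : TaskAvg := fun a K h h0 ha hl => Pool.Agent.H41R3.BSDAvg.avg a K h h0 ha hl

end Pool.Agent.H814R3.BSD
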