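import Pool.Agent.H814R3.BSD.Stmts

/-! Task Avg2 of project H814-BSD (written by helper182). -/

set_option autoImplicit false

open Filter Topology

namespace Pool.Agent.H814R3.BSD


theorem avg2core (c : ℕ → ℝ) (l : ℝ) (hc : Tendsto c atTop (𝓝 l)) :
    Tendsto (fun n : ℕ => (∑ j ∈ Finset.Icc 2 n, c j / j) / Real.log n) atTop (𝓝 l) := by
  have hlog : Tendsto (fun n : ℕ => Real.log n) atTop atTop :=
    Real.tendsto_log_atTop.comp tendsto_natCast_atTop_atTop
  have hH : ∀ n : ℕ, ∑ j ∈ Finset.range (n + 1), (1 : ℝ) / j = (harmonic n : ℝ) := by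
    intro n
    rw [Finset.sum_range_succ']
    simp [harmonic]
  -- harmonic / log → 1
  have hHl : Tendsto (fun n : ℕ => (∑ j ∈ Finset.range (n + 1), (1 : ℝ) / j) / Real.log n)
      atTop (𝓝 1) := by
    have h1 : Tendsto (fun n : ℕ => ((harmonic n : ℝ) - Real.log n) / Real.log n) atTop (𝓝 0) :=
      Real.tendsto_harmonic_sub_log.div_atTop hlog
    have h2 : Tendsto (fun n : ℕ => ((harmonic n : ℝ) - Real.log n) / Real.log n + 1)
        atTop (𝓝 (0 + 1)) := h1.add_const 1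
    rw [zero_add] at h2
    refine h2.congr' ?_
    filter_upwards [hlog.eventually_gt_atTop 0] with n hn
    rw [hH]
    field_simp
    ring
  -- little o
  have ho : (fun j : ℕ => (c j - l) * (1 / (j : ℝ))) =o[atTop] (fun j : ℕ => 1 / (j : ℝ)) := by
    have h0 : (fun j : ℕ => c j - l) =o[atTop] (fun _ : ℕ => (1 : ℝ)) := by
      rw [Asymptotics.isLittleO_one_iff]
      simpa using hc.sub_const l
    simpa using h0.mul_isBigO (Asymptotics.isBigO_refl (fun j : ℕ => 1 / (j : ℝ)) atTop)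
  have hdiv : Tendsto (fun n : ℕ => ∑ j ∈ Finset.range n, (1 : ℝ) / j) atTop atTop := by
    have h3 : Tendsto (fun n : ℕ => ∑ j ∈ Finset.range (n + 1), (1 : ℝ) / j) atTop atTop := by
      have h4 := hHl.pos_mul_atTop (by norm_num : (0:ℝ) < 1) hlog
      refine h4.congr' ?_
      filter_upwards [hlog.eventually_gt_atTop 0] with n hn
      field_simp
    exact (tendsto_add_atTop_iff_nat 1).1 h3
  have hs := ho.sum_range (fun j => by positivity) hdiv
  have hs1 : Tendsto (fun n : ℕ => (∑ j ∈ Finset.range n, (c j - l) * (1 / (j : ℝ))) /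
      (∑ j ∈ Finset.range n, (1 : ℝ) / j)) atTop (𝓝 0) := hs.tendsto_div_nhds_zero
  have hs2 : Tendsto (fun n : ℕ => (∑ j ∈ Finset.range (n + 1), (c j - l) * (1 / (j : ℝ))) /
      (∑ j ∈ Finset.range (n + 1), (1 : ℝ) / j)) atTop (𝓝 0) :=
    hs1.comp (tendsto_add_atTop_nat 1)
  have hs3 := (hs2.mul hHl).add (hHl.const_mul l)
  have hs4 : Tendsto (fun n : ℕ => c 1 / Real.log n) atTop (𝓝 0) :=
    tendsto_const_nhds.div_atTop hlog
  have hs5 := hs3.sub hs4
  simp only [mul_one, zero_add, sub_zero] at hs5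
  refine hs5.congr' ?_
  filter_upwards [hlog.eventually_gt_atTop 0, eventually_ge_atTop 1] with n hn hn1
  have hHpos : 0 < ∑ j ∈ Finset.range (n + 1), (1 : ℝ) / j := by
    have : (1:ℝ) / (1:ℕ) ≤ ∑ j ∈ Finset.range (n + 1), (1 : ℝ) / j :=
      Finset.single_le_sum (f := fun j : ℕ => (1 : ℝ) / j) (fun j _ => by positivity)
        (Finset.mem_range.2 (by omega))
    have h1 : (1:ℝ) / (1:ℕ) = 1 := by norm_num
    linarith
  have hsum : ∑ j ∈ Finset.Icc 2 n, c j / j =
      (∑ j ∈ Finset.range (n + 1), (c j - l) * (1 / (j : ℝ))) +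
        l * (∑ j ∈ Finset.range (n + 1), (1 : ℝ) / j) - c 1 := by
    have e1 : ∀ m : ℕ, ∑ j ∈ Finset.range (m + 1 + 1), c j / (j : ℝ) =
        c 1 + ∑ j ∈ Finset.Icc 2 (m + 1), c j / (j : ℝ) := by
      intro m
      rw [Finset.range_eq_Ico, Finset.sum_eq_sum_Ico_succ_bot (by omega),
        Finset.sum_eq_sum_Ico_succ_bot (by omega)]
      have : Finset.Ico (0 + 1 + 1) (m + 1 + 1) = Finset.Icc 2 (m + 1) := by
        ext a; simp only [Finset.mem_Ico, Finset.mem_Icc]; omega
      rw [this]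
      norm_num
    obtain ⟨m, rfl⟩ : ∃ m, n = m + 1 := ⟨n - 1, by omega⟩
    have e2 := e1 m
    have e3 : (∑ j ∈ Finset.range (m + 1 + 1), (c j - l) * (1 / (j : ℝ))) +
        l * (∑ j ∈ Finset.range (m + 1 + 1), (1 : ℝ) / j) =
        ∑ j ∈ Finset.range (m + 1 + 1), c j / (j : ℝ) := by
      rw [Finset.mul_sum, ← Finset.sum_add_distrib]
      refine Finset.sum_congr rfl fun j _ => ?_
      ring
    rw [e3, e2]
    ring
  rw [hsum]
  field_simp

theorem taskAvg2 : TaskAvg2 := fun c l hc => avg2core c l hc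

end Pool.Agent.H814R3.BSD
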