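import Pool.Agent.H814R3.BSD.Stmts

set_option autoImplicit false

open Complex Filter Topology Finset MeasureTheory

namespace Pool.Agent.H814R3.BSD.TBC

theorem log_bd (v : ℝ) : 1 + Real.log (3 + |v|) ≤ 5 * (1 + |v|) ^ (1 / 2 : ℝ) := by
  have h0 : 0 ≤ |v| := abs_nonneg v
  have h1 : Real.log (3 + |v|) ≤ (3 + |v|) ^ (1 / 2 : ℝ) / (1 / 2 : ℝ) :=
    Real.log_le_rpow_div (by linarith) (by norm_num)
  have h2 : (3 + |v|) ^ (1 / 2 : ℝ) ≤ (4 * (1 + |v|)) ^ (1 / 2 : ℝ) :=
    Real.rpow_le_rpow (by linarith) (by linarith) (by norm_num)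
  have h3 : (4 * (1 + |v|)) ^ (1 / 2 : ℝ) = 2 * (1 + |v|) ^ (1 / 2 : ℝ) := by
    rw [Real.mul_rpow (by norm_num) (by linarith)]
    congr 1
    rw [show (4 : ℝ) = 2 ^ (2 : ℝ) by norm_num, ← Real.rpow_mul (by norm_num)]
    norm_num
  have h4 : 1 ≤ (1 + |v|) ^ (1 / 2 : ℝ) := Real.one_le_rpow (by linarith) (by norm_num)
  rw [h3] at h2
  have h5 : (3 + |v|) ^ (1 / 2 : ℝ) / (1 / 2 : ℝ) = 2 * (3 + |v|) ^ (1 / 2 : ℝ) := by ring
  rw [h5] at h1
  linarith

theorem bc (L : ℂ → ℂ) (hL : DifferentiableOn ℂ L {w | 0 < w.re})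
    (hB : ∃ B0 : ℝ, ∀ w : ℂ, 1 ≤ w.re → ‖L w‖ ≤ B0)
    (hA : ∃ A : ℝ, ∀ w : ℂ, 0 < w.re → (L w).re ≤ A * (1 + Real.log (1 + ‖w‖)))
    (σ : ℝ) (hσ : 0 < σ) :
    ∃ B : ℝ, ∀ w : ℂ, σ ≤ w.re → ‖L w‖ ≤ B * (1 + |w.im|) ^ (1 / 2 : ℝ) := by
  obtain ⟨B0, hB0⟩ := hB
  obtain ⟨A, hA⟩ := hA
  have hB0n : 0 ≤ B0 := (norm_nonneg _).trans (hB0 1 (by simp))
  refine ⟨(10 * (|A| + 1) + 2 * B0) / σ + B0, fun w hw => ?_⟩
  set T : ℝ := (1 + |w.im|) ^ (1 / 2 : ℝ) with hT
  have hv0 : 0 ≤ |w.im| := abs_nonneg _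
  have hT1 : 1 ≤ T := Real.one_le_rpow (by linarith) (by norm_num)
  rcases le_or_gt 1 w.re with h1 | h1
  · have e1 := hB0 w h1
    have e2 : 0 ≤ (10 * (|A| + 1) + 2 * B0) / σ := by positivity
    have e3 : 0 ≤ (10 * (|A| + 1) + 2 * B0) / σ * T := by positivity
    nlinarith
  · set c : ℂ := ⟨1, w.im⟩ with hc
    set f : ℂ → ℂ := fun z => L (z + c) with hf
    set M : ℝ := (|A| + 1) * (1 + Real.log (3 + |w.im|)) with hM
    have hlog : 0 ≤ Real.log (3 + |w.im|) := Real.log_nonneg (by linarith)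
    have hMp : 0 < M := by positivity
    have hcn : ‖c‖ ≤ 1 + |w.im| := by
      have := Complex.norm_le_abs_re_add_abs_im c
      simpa [hc] using this
    have hre : ∀ z ∈ Metric.ball (0 : ℂ) 1, 0 < (z + c).re := by
      intro z hz
      rw [mem_ball_zero_iff] at hz
      have h2 := Complex.abs_re_le_norm z
      have h3 := neg_abs_le z.re
      have h4 : (z + c).re = z.re + 1 := by simp [hc]
      rw [h4]
      linarith
    have hfd : DifferentiableOn ℂ f (Metric.ball 0 1) := by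
      apply hL.comp (by fun_prop)
      intro z hz
      exact hre z hz
    have hfm : Set.MapsTo f (Metric.ball 0 1) {z | z.re ≤ M} := by
      intro z hz
      have h2 := hA (z + c) (hre z hz)
      show (L (z + c)).re ≤ M
      rw [mem_ball_zero_iff] at hz
      have h3 : ‖z + c‖ ≤ 2 + |w.im| := by
        have := norm_add_le z c
        linarith
      have h4 : Real.log (1 + ‖z + c‖) ≤ Real.log (3 + |w.im|) :=
        Real.log_le_log (by positivity) (by linarith)
      have h5 : 0 ≤ Real.log (1 + ‖z + c‖) := Real.log_nonneg (by linarith [norm_nonneg (z + c)])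
      have h6 : A * (1 + Real.log (1 + ‖z + c‖)) ≤ (|A| + 1) * (1 + Real.log (1 + ‖z + c‖)) :=
        mul_le_mul_of_nonneg_right (by linarith [le_abs_self A]) (by linarith)
      have h7 : (|A| + 1) * (1 + Real.log (1 + ‖z + c‖)) ≤ M :=
        mul_le_mul_of_nonneg_left (by linarith) (by positivity)
      linarith
    set z : ℂ := ((w.re - 1 : ℝ) : ℂ) with hz
    have hzn : ‖z‖ = 1 - w.re := by
      rw [hz, Complex.norm_real, Real.norm_eq_abs, abs_of_neg (by linarith)]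
      ring
    have hzb : z ∈ Metric.ball (0 : ℂ) 1 := by
      rw [mem_ball_zero_iff, hzn]
      linarith
    have hzc : z + c = w := by
      apply Complex.ext
      · simp [hz, hc]
      · simp [hz, hc]
    have key := Complex.borelCaratheodory hMp hfd hfm one_pos hzb
    have hfz : f z = L w := by rw [hf]; simp only; rw [hzc]
    have hf0 : ‖f 0‖ ≤ B0 := by
      rw [hf]
      simp only [zero_add]
      exact hB0 c (by simp [hc])
    rw [hfz, hzn] at key
    have hd : 1 - (1 - w.re) = w.re := by ring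
    rw [hd] at key
    have hw0 : 0 < w.re := hσ.trans_le hw
    have k1 : 2 * M * (1 - w.re) / w.re ≤ 2 * M / σ := by
      apply div_le_div₀ (by positivity) _ hσ hw
      nlinarith
    have k2 : ‖f 0‖ * (1 + (1 - w.re)) / w.re ≤ 2 * B0 / σ := by
      apply div_le_div₀ (by positivity) _ hσ hw
      nlinarith [norm_nonneg (f 0)]
    have k3 : M ≤ (|A| + 1) * (5 * T) :=
      mul_le_mul_of_nonneg_left (log_bd w.im) (by positivity)
    have k4 : 2 * M / σ ≤ 10 * (|A| + 1) / σ * T := by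
      rw [div_mul_eq_mul_div]
      apply div_le_div_of_nonneg_right _ hσ.le
      linarith
    have k5 : 2 * B0 / σ ≤ 2 * B0 / σ * T := le_mul_of_one_le_right (by positivity) hT1
    have k6 : ((10 * (|A| + 1) + 2 * B0) / σ + B0) * T =
        10 * (|A| + 1) / σ * T + 2 * B0 / σ * T + B0 * T := by ring
    rw [k6]
    have k7 : 0 ≤ B0 * T := by positivity
    linarith


/-- **Task BC.** -/
theorem bc_ok : Pool.Agent.H814R3.BSD.TaskBC := bc

end Pool.Agent.H814R3.BSD.TBC
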