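import Pool.Agent.H814R3.BSD.Stmts

set_option autoImplicit false

open Complex Filter Topology Finset MeasureTheory
open scoped FourierTransform

namespace Pool.Agent.H814R3.BSD.TInv

open Pool.Agent.H814R3.BSD

/-- the function `max(1-|v|,0) e^|v|` -/
noncomputable def ph (v : ℝ) : ℂ := ((max (1 - |v|) 0 * Real.exp |v| : ℝ) : ℂ)

lemma ph_neg (v : ℝ) : ph (-v) = ph v := by simp [ph]

lemma ph_cont : Continuous ph := by
  unfold ph
  fun_prop

lemma ph_supp (v : ℝ) (h : 1 ≤ |v|) : ph v = 0 := by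
  unfold ph
  rw [max_eq_right (by linarith)]
  simp

lemma ph_int : Integrable ph := by
  refine ph_cont.integrable_of_hasCompactSupport
    (HasCompactSupport.intro (isCompact_Icc (a := (-1 : ℝ)) (b := 1)) fun x hx => ?_)
  apply ph_supp
  by_contra hlt
  push Not at hlt
  exact hx ⟨(abs_lt.1 hlt).1.le, (abs_lt.1 hlt).2.le⟩

lemma ph_fourier (ξ : ℝ) : 𝓕 ph ξ = (kap (2 * Real.pi * ξ) : ℂ) := by
  rw [Real.fourier_real_eq_integral_exp_smul]
  have hsupp : Function.support (fun v : ℝ => Complex.exp (↑(-2 * Real.pi * v * ξ) * I) • ph v) ⊆ Set.Ioc (-1) 1 := by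
    intro v hv
    rw [Function.mem_support] at hv
    by_contra hcon
    apply hv
    rw [ph_supp v ?_, smul_zero]
    by_contra hlt
    push Not at hlt
    exact hcon ⟨(abs_lt.1 hlt).1, (abs_lt.1 hlt).2.le⟩
  rw [← intervalIntegral.integral_eq_integral_of_support_subset hsupp]
  have hc : Continuous (fun v : ℝ => Complex.exp (↑(-2 * Real.pi * v * ξ) * I) • ph v) := by
    have := ph_cont
    fun_prop
  have hc' : Continuous (fun v : ℝ => Complex.exp (↑(-2 * Real.pi * (-v) * ξ) * I) • ph (-v)) := by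
    have := ph_cont
    fun_prop
  rw [← intervalIntegral.integral_add_adjacent_intervals (b := 0) (hc.intervalIntegrable _ _) (hc.intervalIntegrable _ _)]
  have h1 : ∫ v in (-1 : ℝ)..0, Complex.exp (↑(-2 * Real.pi * v * ξ) * I) • ph v =
      ∫ v in (0 : ℝ)..1, Complex.exp (↑(-2 * Real.pi * (-v) * ξ) * I) • ph (-v) := by
    rw [intervalIntegral.integral_comp_neg (fun v : ℝ => Complex.exp (↑(-2 * Real.pi * v * ξ) * I) • ph v)]
    norm_num
  rw [h1, ← intervalIntegral.integral_add (hc'.intervalIntegrable _ _) (hc.intervalIntegrable _ _)]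
  unfold kap
  rw [← intervalIntegral.integral_const_mul, ← intervalIntegral.integral_ofReal]
  refine intervalIntegral.integral_congr fun v hv => ?_
  rw [Set.uIcc_of_le zero_le_one] at hv
  have h2 : ph v = (((1 - v) * Real.exp v : ℝ) : ℂ) := by
    unfold ph
    rw [abs_of_nonneg hv.1, max_eq_left (by linarith [hv.2])]
  simp only [ph_neg, h2, smul_eq_mul]
  push_cast
  rw [Complex.cos]
  have e1 : -2 * (Real.pi : ℂ) * -(v : ℂ) * ξ * I = 2 * Real.pi * ξ * v * I := by ring
  have e2 : -2 * (Real.pi : ℂ) * (v : ℂ) * ξ * I = -(2 * Real.pi * ξ * v) * I := by ring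
  rw [e1, e2]
  ring

theorem inv_ok (h : TaskKap) : TaskInv := by
  intro x hx
  obtain ⟨⟨C, hC⟩, hcont, -⟩ := h
  have hpi : (0 : ℝ) < 2 * Real.pi := by positivity
  have hki : Integrable (fun τ : ℝ => (kap τ : ℂ)) := by
    refine Integrable.mono' (g := fun τ => C / (1 + τ ^ 2)) ?_ (Complex.continuous_ofReal.comp hcont).aestronglyMeasurable
      (Eventually.of_forall fun τ => ?_)
    · have := (integrable_inv_one_add_sq).const_mul C
      simpa [div_eq_mul_inv] using this
    · rw [Complex.norm_real]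
      exact hC τ
  have hF : 𝓕 ph = fun ξ : ℝ => (kap (2 * Real.pi * ξ) : ℂ) := funext ph_fourier
  have hFi : Integrable (𝓕 ph) := by
    rw [hF]
    exact hki.comp_mul_left' hpi.ne'
  have h1 : 𝓕 (𝓕 ph) x = ph x := by
    have h2 := ph_int.fourierInv_fourier_eq hFi (v := -x) ph_cont.continuousAt
    rw [Real.fourierInv_eq_fourier_neg, neg_neg, ph_neg] at h2
    exact h2
  rw [Real.fourier_real_eq_integral_exp_smul, hF] at h1
  have h3 : ∀ v : ℝ, Complex.exp (↑(-2 * Real.pi * v * x) * I) • (kap (2 * Real.pi * v) : ℂ) =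
      (fun τ : ℝ => (kap τ : ℂ) * exp (-(τ * I * x))) (2 * Real.pi * v) := by
    intro v
    simp only [smul_eq_mul]
    rw [mul_comm]
    congr 2
    push_cast
    ring
  simp only [h3] at h1
  have h6 := Measure.integral_comp_mul_left (fun τ : ℝ => (kap τ : ℂ) * exp (-(τ * I * x))) (2 * Real.pi)
  rw [h6] at h1
  have h4 : ph x = ((max (1 - x) 0 * Real.exp x : ℝ) : ℂ) := by
    unfold ph
    rw [abs_of_nonneg hx]
  rw [h4, abs_of_pos (inv_pos.2 hpi)] at h1
  have h5 : ∫ τ : ℝ, (kap τ : ℂ) * exp (-(τ * I * x)) = (2 * Real.pi) • ((max (1 - x) 0 * Real.exp x : ℝ) : ℂ) := by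
    rw [← h1, smul_smul, mul_inv_cancel₀ hpi.ne', one_smul]
  rw [h5, Complex.real_smul]
  push_cast
  ring

end Pool.Agent.H814R3.BSD.TInv
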