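import Pool.Agent.H814R3.BSD.Stmts

/-! Task K1 of project H814-BSD: the kernel. -/

set_option autoImplicit false

open Complex Filter Topology Finset MeasureTheory

namespace Pool.Agent.H814R3.BSD.TKap

open Pool.Agent.H814R3.BSD


/-- the basic integral -/
noncomputable def gg (w : ℂ) : ℂ := ∫ s in (0 : ℝ)..1, (1 - (s : ℂ)) * exp (w * s)

theorem gg_continuous : Continuous gg := by
  unfold gg
  apply intervalIntegral.continuous_parametric_intervalIntegral_of_continuous'
  fun_prop

theorem gg_eq {w : ℂ} (hw : w ≠ 0) : gg w = (exp w - 1 - w) / w ^ 2 := by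
  unfold gg
  have hderiv : ∀ s ∈ Set.uIcc (0 : ℝ) 1, HasDerivAt
      (fun s : ℝ => ((1 - (s : ℂ)) / w + 1 / w ^ 2) * exp (w * s))
      ((1 - (s : ℂ)) * exp (w * s)) s := by
    intro s _
    have h1 : HasDerivAt (fun s : ℝ => (s : ℂ)) 1 s := Complex.ofRealCLM.hasDerivAt
    have h2 : HasDerivAt (fun s : ℝ => (1 - (s : ℂ)) / w + 1 / w ^ 2) (-1 / w) s := by
      have := ((h1.const_sub 1).div_const w).add_const (1 / w ^ 2)
      exact this
    have h3 : HasDerivAt (fun s : ℝ => exp (w * s)) (exp (w * s) * (w * 1)) s :=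
      (h1.const_mul w).cexp
    have h4 : HasDerivAt (fun s : ℝ => ((1 - (s : ℂ)) / w + 1 / w ^ 2) * exp (w * s))
        (-1 / w * exp (w * s) + ((1 - (s : ℂ)) / w + 1 / w ^ 2) * (exp (w * s) * (w * 1))) s :=
      h2.mul h3
    have e : (1 - (s : ℂ)) * exp (w * s) = -1 / w * exp (w * s) +
        ((1 - (s : ℂ)) / w + 1 / w ^ 2) * (exp (w * s) * (w * 1)) := by
      field_simp
      ring
    rw [e]
    exact h4
  rw [intervalIntegral.integral_eq_sub_of_hasDerivAt hderiv]
  · simp only [ofReal_one, sub_self, zero_div, zero_add, mul_one, ofReal_zero, sub_zero, mul_zero,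
      exp_zero]
    field_simp
    ring
  · apply Continuous.intervalIntegrable
    fun_prop

theorem gg_differentiable : Differentiable ℂ gg := by
  have hne : ∀ w : ℂ, w ≠ 0 → DifferentiableAt ℂ gg w := by
    intro w hw
    have h1 : DifferentiableAt ℂ (fun w : ℂ => (exp w - 1 - w) / w ^ 2) w := by
      apply DifferentiableAt.div
      · fun_prop
      · fun_prop
      · exact pow_ne_zero 2 hw
    refine h1.congr_of_eventuallyEq ?_
    filter_upwards [isOpen_ne.mem_nhds hw] with v hv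
    exact gg_eq hv
  intro w
  by_cases hw : w = 0
  · subst hw
    refine (Complex.analyticAt_of_differentiable_on_punctured_nhds_of_continuousAt ?_
      gg_continuous.continuousAt).differentiableAt
    filter_upwards [self_mem_nhdsWithin] with v hv
    exact hne v hv
  · exact hne w hw

theorem kk_eq (z : ℂ) : kk z = gg (1 + z) + gg (1 - z) := by
  unfold kk gg
  rw [← intervalIntegral.integral_add]
  · refine intervalIntegral.integral_congr fun s _ => ?_
    show (((1 - s) * Real.exp s : ℝ) : ℂ) * (exp (z * s) + exp (-(z * s))) =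
      (1 - (s : ℂ)) * exp ((1 + z) * s) + (1 - (s : ℂ)) * exp ((1 - z) * s)
    have e1 : exp ((1 + z) * s) = exp s * exp (z * s) := by
      rw [← Complex.exp_add]; congr 1; ring
    have e2 : exp ((1 - z) * s) = exp s * exp (-(z * s)) := by
      rw [← Complex.exp_add]; congr 1; ring
    rw [e1, e2]
    push_cast
    ring
  · apply Continuous.intervalIntegrable
    fun_prop
  · apply Continuous.intervalIntegrable
    fun_prop

theorem kk_differentiable : Differentiable ℂ kk := by
  have : kk = fun z => gg (1 + z) + gg (1 - z) := funext kk_eq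
  rw [this]
  intro z
  exact ((gg_differentiable _).comp z (by fun_prop : DifferentiableAt ℂ (fun z => 1 + z) z)).add
    ((gg_differentiable _).comp z (by fun_prop : DifferentiableAt ℂ (fun z => 1 - z) z))

theorem kk_I (τ : ℝ) : kk (τ * I) = (kap τ : ℂ) := by
  unfold kk kap
  rw [ofReal_mul, ← intervalIntegral.integral_ofReal, ← intervalIntegral.integral_const_mul]
  refine intervalIntegral.integral_congr fun s _ => ?_
  show (((1 - s) * Real.exp s : ℝ) : ℂ) * (exp (τ * I * s) + exp (-(τ * I * s))) =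
    ((2 : ℝ) : ℂ) * (((1 - s) * Real.exp s * Real.cos (τ * s) : ℝ) : ℂ)
  have h : exp (τ * I * s) + exp (-(τ * I * s)) = 2 * Complex.cos (τ * s) := by
    rw [Complex.cos]
    have e1 : (τ : ℂ) * I * s = τ * s * I := by ring
    have e2 : -((τ : ℂ) * I * s) = -(τ * s) * I := by ring
    rw [e2, e1]
    ring
  rw [h]
  push_cast
  ring

theorem gg_trivial (w : ℂ) (R : ℝ) (hR : 0 ≤ R) (hw : w.re ≤ R) : ‖gg w‖ ≤ Real.exp R := by
  unfold gg
  have h : ∀ s ∈ Set.uIoc (0 : ℝ) 1, ‖(1 - (s : ℂ)) * exp (w * s)‖ ≤ Real.exp R := by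
    intro s hs
    rw [Set.uIoc_of_le zero_le_one] at hs
    rw [norm_mul, Complex.norm_exp]
    have h1 : ‖(1 - (s : ℂ))‖ ≤ 1 := by
      have : (1 - (s : ℂ)) = ((1 - s : ℝ) : ℂ) := by push_cast; ring
      rw [this, Complex.norm_real, Real.norm_eq_abs, abs_of_nonneg (by linarith [hs.2])]
      linarith [hs.1]
    have h2 : (w * s).re = w.re * s := by simp
    have h3 : Real.exp (w * s).re ≤ Real.exp R := by
      apply Real.exp_le_exp.2
      rw [h2]
      nlinarith [hs.1, hs.2]
    calc ‖(1 - (s : ℂ))‖ * Real.exp (w * s).re ≤ 1 * Real.exp R :=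
          mul_le_mul h1 h3 (Real.exp_pos _).le zero_le_one
      _ = Real.exp R := one_mul _
  have := intervalIntegral.norm_integral_le_of_norm_le_const h
  simpa using this

theorem kk_bound (R : ℝ) : ∃ B : ℝ, ∀ z : ℂ, |z.re| ≤ R → ‖kk z‖ ≤ B / (1 + z.im ^ 2) := by
  refine ⟨4 * Real.exp (1 + R) + 8, ?_⟩
  intro z hz
  have hR : 0 ≤ R := (abs_nonneg _).trans hz
  have hz' := abs_le.1 hz
  have hpos : (0 : ℝ) < 1 + z.im ^ 2 := by positivity
  have hexp := Real.exp_pos (1 + R)
  rw [le_div_iff₀ hpos]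
  by_cases him : z.im ^ 2 ≤ 1
  · have h1 : ‖gg (1 + z)‖ ≤ Real.exp (1 + R) :=
      gg_trivial _ _ (by linarith) (by simp; linarith [hz'.2])
    have h2 : ‖gg (1 - z)‖ ≤ Real.exp (1 + R) :=
      gg_trivial _ _ (by linarith) (by simp; linarith [hz'.1])
    have h3 : ‖kk z‖ ≤ 2 * Real.exp (1 + R) := by
      rw [kk_eq]
      refine (norm_add_le _ _).trans (by linarith)
    have h4 := norm_nonneg (kk z)
    nlinarith
  · push Not at him
    have hy0 : 0 < z.im ^ 2 := by linarith
    have hn1 : z.im ^ 2 ≤ ‖1 + z‖ ^ 2 := by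
      have := Complex.abs_im_le_norm (1 + z)
      have h5 : (1 + z).im = z.im := by simp
      rw [h5] at this
      rw [← sq_abs z.im]
      exact pow_le_pow_left₀ (abs_nonneg _) this 2
    have hn2 : z.im ^ 2 ≤ ‖1 - z‖ ^ 2 := by
      have := Complex.abs_im_le_norm (1 - z)
      have h5 : (1 - z).im = -z.im := by simp
      rw [h5, abs_neg] at this
      rw [← sq_abs z.im]
      exact pow_le_pow_left₀ (abs_nonneg _) this 2
    have hn12 : z.im ^ 2 ≤ ‖1 + z‖ * ‖1 - z‖ := by
      have h6 := Complex.abs_im_le_norm (1 + z)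
      have h7 := Complex.abs_im_le_norm (1 - z)
      have h5 : (1 + z).im = z.im := by simp
      have h8 : (1 - z).im = -z.im := by simp
      rw [h5] at h6
      rw [h8, abs_neg] at h7
      rw [← sq_abs z.im, sq]
      exact mul_le_mul h6 h7 (abs_nonneg _) (norm_nonneg _)
    have hne1 : 1 + z ≠ 0 := by
      intro h
      rw [h, norm_zero] at hn1
      norm_num at hn1
      nlinarith
    have hne2 : 1 - z ≠ 0 := by
      intro h
      rw [h, norm_zero] at hn2
      norm_num at hn2
      nlinarith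
    have hform : kk z = exp (1 + z) / (1 + z) ^ 2 + exp (1 - z) / (1 - z) ^ 2 - 1 / (1 + z) ^ 2 -
        1 / (1 - z) ^ 2 - 2 / ((1 + z) * (1 - z)) := by
      rw [kk_eq, gg_eq hne1, gg_eq hne2]
      field_simp
      ring
    have b1 : ‖exp (1 + z) / (1 + z) ^ 2‖ ≤ Real.exp (1 + R) / z.im ^ 2 := by
      rw [norm_div, norm_pow, Complex.norm_exp]
      refine div_le_div₀ hexp.le (Real.exp_le_exp.2 (by simp; linarith [hz'.2])) hy0 hn1
    have b2 : ‖exp (1 - z) / (1 - z) ^ 2‖ ≤ Real.exp (1 + R) / z.im ^ 2 := by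
      rw [norm_div, norm_pow, Complex.norm_exp]
      refine div_le_div₀ hexp.le (Real.exp_le_exp.2 (by simp; linarith [hz'.1])) hy0 hn2
    have b3 : ‖1 / (1 + z) ^ 2‖ ≤ 1 / z.im ^ 2 := by
      rw [norm_div, norm_pow, norm_one]
      exact div_le_div₀ zero_le_one le_rfl hy0 hn1
    have b4 : ‖1 / (1 - z) ^ 2‖ ≤ 1 / z.im ^ 2 := by
      rw [norm_div, norm_pow, norm_one]
      exact div_le_div₀ zero_le_one le_rfl hy0 hn2
    have b5 : ‖2 / ((1 + z) * (1 - z))‖ ≤ 2 / z.im ^ 2 := by
      rw [norm_div, norm_mul]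
      have : ‖(2 : ℂ)‖ = 2 := by simp
      rw [this]
      exact div_le_div₀ zero_le_two le_rfl hy0 hn12
    have hb : ‖kk z‖ ≤ (2 * Real.exp (1 + R) + 4) / z.im ^ 2 := by
      rw [hform]
      calc ‖exp (1 + z) / (1 + z) ^ 2 + exp (1 - z) / (1 - z) ^ 2 - 1 / (1 + z) ^ 2 -
            1 / (1 - z) ^ 2 - 2 / ((1 + z) * (1 - z))‖
          ≤ ‖exp (1 + z) / (1 + z) ^ 2‖ + ‖exp (1 - z) / (1 - z) ^ 2‖ + ‖1 / (1 + z) ^ 2‖ +
            ‖1 / (1 - z) ^ 2‖ + ‖2 / ((1 + z) * (1 - z))‖ := by
            refine (norm_sub_le _ _).trans (add_le_add ?_ le_rfl)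
            refine (norm_sub_le _ _).trans (add_le_add ?_ le_rfl)
            refine (norm_sub_le _ _).trans (add_le_add ?_ le_rfl)
            exact norm_add_le _ _
        _ ≤ Real.exp (1 + R) / z.im ^ 2 + Real.exp (1 + R) / z.im ^ 2 + 1 / z.im ^ 2 +
            1 / z.im ^ 2 + 2 / z.im ^ 2 := by linarith
        _ = (2 * Real.exp (1 + R) + 4) / z.im ^ 2 := by ring
    rw [le_div_iff₀ hy0] at hb
    have h4 := norm_nonneg (kk z)
    nlinarith

theorem kap_ok : TaskKap := by
  refine ⟨?_, ?_, kk_I, kk_differentiable, kk_bound⟩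
  · obtain ⟨B, hB⟩ := kk_bound 0
    refine ⟨B, fun τ => ?_⟩
    have h := hB (τ * I) (by simp)
    rw [kk_I, Complex.norm_real, Real.norm_eq_abs] at h
    have him : ((τ : ℂ) * I).im = τ := by simp
    rwa [him] at h
  · have h : kap = fun τ : ℝ => (kk (τ * I)).re := by
      funext τ
      rw [kk_I, ofReal_re]
    rw [h]
    exact Complex.continuous_re.comp (kk_differentiable.continuous.comp (by fun_prop))

end Pool.Agent.H814R3.BSD.TKap
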