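import Pool.Agent.H814R3.BSD.Stmts

/-! Task Lim: passage to the limit in the explicit formula. -/

set_option autoImplicit false

open Complex Filter Topology MeasureTheory

namespace Pool.Agent.H814R3.BSD.TLim

open Pool.Agent.H814R3.BSD

theorem int_kap (h2 : TaskInv) : ∫ τ : ℝ, kap τ = 2 * Real.pi := by
  have h := h2 0 le_rfl
  have e1 : (fun τ : ℝ => (kap τ : ℂ) * exp (-(τ * I * ((0 : ℝ) : ℂ)))) =
      fun τ : ℝ => ((kap τ : ℝ) : ℂ) := by
    funext τ
    simp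
  rw [e1, integral_complex_ofReal] at h
  have h' := Complex.ofReal_injective h
  rw [h']
  simp

theorem log_le (x : ℝ) (hx : 0 ≤ x) :
    1 + Real.log (1 + x) ≤ 2 * (1 + x) ^ (1 / 2 : ℝ) := by
  have h1 : 0 < 1 + x := by linarith
  have h2 : 0 < (1 + x) ^ (1 / 2 : ℝ) := Real.rpow_pos_of_pos h1 _
  have h3 : Real.log ((1 + x) ^ (1 / 2 : ℝ)) = 1 / 2 * Real.log (1 + x) :=
    Real.log_rpow h1 _
  have h4 := Real.log_le_sub_one_of_pos h2
  linarith

theorem major (Ck C τ : ℝ) (hCk : 0 ≤ Ck) (hC : 0 ≤ C) :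
    Ck / (1 + τ ^ 2) * (C * (1 + Real.log (1 + |τ|))) ≤
      (4 * Ck * C) * (1 + ‖τ‖) ^ (-(3 / 2) : ℝ) := by
  have h0 : 0 ≤ |τ| := abs_nonneg τ
  have h1 : 0 < 1 + |τ| := by linarith
  have h2 := log_le |τ| h0
  have h3 : (1 + |τ|) ^ 2 ≤ 2 * (1 + τ ^ 2) := by
    have : τ ^ 2 = |τ| ^ 2 := (sq_abs τ).symm
    rw [this]; nlinarith [sq_nonneg (|τ| - 1)]
  have h4 : (1 + |τ|) ^ (1 / 2 : ℝ) = (1 + |τ|) ^ (-(3 / 2) : ℝ) * (1 + |τ|) ^ 2 := by
    rw [← Real.rpow_natCast (1 + |τ|) 2, ← Real.rpow_add h1]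
    norm_num
  have h5 : 0 < (1 + |τ|) ^ (-(3 / 2) : ℝ) := Real.rpow_pos_of_pos h1 _
  rw [Real.norm_eq_abs]
  set Y := (1 + |τ|) ^ (-(3 / 2) : ℝ) with hY
  have h6 : 1 + Real.log (1 + |τ|) ≤ 4 * Y * (1 + τ ^ 2) := by
    calc 1 + Real.log (1 + |τ|) ≤ 2 * (Y * (1 + |τ|) ^ 2) := by rw [← h4]; exact h2
      _ ≤ 2 * (Y * (2 * (1 + τ ^ 2))) := by
          gcongr
      _ = 4 * Y * (1 + τ ^ 2) := by ring
  have h7 : 0 < 1 + τ ^ 2 := by positivity
  calc Ck / (1 + τ ^ 2) * (C * (1 + Real.log (1 + |τ|)))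
      ≤ Ck / (1 + τ ^ 2) * (C * (4 * Y * (1 + τ ^ 2))) := by gcongr
    _ = (4 * Ck * C) * Y := by field_simp

theorem lim_ok (h1 : TaskKap) (h2 : TaskInv) : TaskLim := by
  intro h h0 C δ U0 hδ hU0 hcont hlim hnear hfar
  obtain ⟨⟨Ck, hCk⟩, hkc, -⟩ := h1
  have hCk0 : 0 ≤ Ck := by
    have := (abs_nonneg _).trans (hCk 0)
    simpa using this
  have hC0 : 0 ≤ C := by
    have := (abs_nonneg _).trans (hnear U0 0 le_rfl (by simp; positivity))
    simpa using this
  -- the far bound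
  set K : ℝ := Ck * (1 + δ⁻¹ ^ 2) with hK
  have hK0 : 0 ≤ K := by positivity
  have hfarb : ∀ U τ : ℝ, U0 ≤ U → ¬ |τ| ≤ δ * U →
      |kap τ * h U τ| ≤ K / U ^ 2 * (|h U τ| / (1 + (τ / U) ^ 2)) := by
    intro U τ hU hτ
    push Not at hτ
    have hUp : 0 < U := by linarith
    have hτ0 : 0 < |τ| := lt_trans (by positivity) hτ
    have hτ2 : 0 < τ ^ 2 := by rw [← sq_abs]; positivity
    rw [abs_mul]
    have e1 : |kap τ| ≤ K / U ^ 2 * (1 / (1 + (τ / U) ^ 2)) := by
      refine (hCk τ).trans ?_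
      have e2 : K / U ^ 2 * (1 / (1 + (τ / U) ^ 2)) = Ck * ((1 + δ⁻¹ ^ 2) / (U ^ 2 + τ ^ 2)) := by
        rw [hK]; field_simp
      rw [e2, div_eq_mul_one_div]
      refine mul_le_mul_of_nonneg_left ?_ hCk0
      rw [div_le_div_iff₀ (by positivity) (by positivity)]
      have e3 : U ^ 2 ≤ δ⁻¹ ^ 2 * τ ^ 2 := by
        have : U ≤ δ⁻¹ * |τ| := by
          rw [← div_eq_inv_mul, le_div_iff₀ hδ]; linarith
        calc U ^ 2 ≤ (δ⁻¹ * |τ|) ^ 2 := pow_le_pow_left₀ hUp.le this 2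
          _ = δ⁻¹ ^ 2 * τ ^ 2 := by rw [mul_pow, sq_abs]
      nlinarith [sq_nonneg δ⁻¹]
    calc |kap τ| * |h U τ| ≤ K / U ^ 2 * (1 / (1 + (τ / U) ^ 2)) * |h U τ| :=
          mul_le_mul_of_nonneg_right e1 (abs_nonneg _)
      _ = K / U ^ 2 * (|h U τ| / (1 + (τ / U) ^ 2)) := by ring
  have hnearb : ∀ U τ : ℝ, U0 ≤ U → |τ| ≤ δ * U →
      |kap τ * h U τ| ≤ (4 * Ck * C) * (1 + ‖τ‖) ^ (-(3 / 2) : ℝ) := by
    intro U τ hU hτ
    refine le_trans ?_ (major Ck C τ hCk0 hC0)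
    rw [abs_mul]
    exact mul_le_mul (hCk τ) (hnear U τ hU hτ) (abs_nonneg _) (by positivity)
  have hmaj : Integrable (fun τ : ℝ => (4 * Ck * C) * (1 + ‖τ‖) ^ (-(3 / 2) : ℝ)) := by
    refine Integrable.const_mul ?_ _
    exact integrable_one_add_norm (by norm_num)
  -- the rescaled far majorant
  have hG : ∀ U : ℝ, U0 ≤ U → Integrable (fun τ : ℝ => |h U τ| / (1 + (τ / U) ^ 2)) ∧
      ∫ τ : ℝ, |h U τ| / (1 + (τ / U) ^ 2) ≤ U * (C * (1 + Real.log U)) := by
    intro U hU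
    have hUp : 0 < U := by linarith
    obtain ⟨i1, i2⟩ := hfar U hU
    have e : (fun τ : ℝ => |h U τ| / (1 + (τ / U) ^ 2)) =
        fun τ : ℝ => (fun t : ℝ => |h U (U * t)| / (1 + t ^ 2)) (τ / U) := by
      funext τ
      have : U * (τ / U) = τ := by field_simp
      simp only [this]
    rw [e]
    refine ⟨i1.comp_div hUp.ne', ?_⟩
    have e3 := Measure.integral_comp_div (fun t : ℝ => |h U (U * t)| / (1 + t ^ 2)) U
    refine (le_of_eq e3).trans ?_
    rw [smul_eq_mul, abs_of_pos hUp]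
    exact mul_le_mul_of_nonneg_left i2 hUp.le
  let A : ℝ → Set ℝ := fun U => {τ : ℝ | |τ| ≤ δ * U}
  have hA : ∀ U, MeasurableSet (A U) := fun U =>
    (isClosed_le continuous_abs continuous_const).measurableSet
  have hm : ∀ U, U0 ≤ U → AEStronglyMeasurable (fun τ => kap τ * h U τ) volume := fun U hU =>
    (hkc.mul (hcont U hU)).aestronglyMeasurable
  have hI1 : ∀ U, U0 ≤ U → Integrable ((A U).indicator fun τ => kap τ * h U τ) := by
    intro U hU
    refine hmaj.mono' ((hm U hU).indicator (hA U)) (Eventually.of_forall fun τ => ?_)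
    by_cases hτ : τ ∈ A U
    · rw [Set.indicator_of_mem hτ]
      exact hnearb U τ hU hτ
    · rw [Set.indicator_of_notMem hτ, norm_zero]
      positivity
  have hI2' : ∀ U, U0 ≤ U → ∀ τ, ‖(A U)ᶜ.indicator (fun τ => kap τ * h U τ) τ‖ ≤
      K / U ^ 2 * (|h U τ| / (1 + (τ / U) ^ 2)) := by
    intro U hU τ
    by_cases hτ : τ ∈ (A U)ᶜ
    · rw [Set.indicator_of_mem hτ]
      exact hfarb U τ hU hτ
    · rw [Set.indicator_of_notMem hτ, norm_zero]
      positivity
  have hI2 : ∀ U, U0 ≤ U → Integrable ((A U)ᶜ.indicator fun τ => kap τ * h U τ) := by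
    intro U hU
    exact ((hG U hU).1.const_mul (K / U ^ 2)).mono' ((hm U hU).indicator (hA U).compl)
      (Eventually.of_forall (hI2' U hU))
  have hsplit : ∀ U, U0 ≤ U → ∫ τ, kap τ * h U τ =
      (∫ τ, (A U).indicator (fun τ => kap τ * h U τ) τ) +
      ∫ τ, (A U)ᶜ.indicator (fun τ => kap τ * h U τ) τ := by
    intro U hU
    rw [← integral_add (hI1 U hU) (hI2 U hU)]
    refine integral_congr_ae (Eventually.of_forall fun τ => ?_)
    exact (congrFun (Set.indicator_self_add_compl (A U) fun τ => kap τ * h U τ) τ).symm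
  have hlim1 : Tendsto (fun U => ∫ τ, (A U).indicator (fun τ => kap τ * h U τ) τ) atTop
      (𝓝 (∫ τ, kap τ * h0)) := by
    refine tendsto_integral_filter_of_dominated_convergence
      (fun τ : ℝ => (4 * Ck * C) * (1 + ‖τ‖) ^ (-(3 / 2) : ℝ)) ?_ ?_ hmaj ?_
    · filter_upwards [eventually_ge_atTop U0] with U hU
      exact (hI1 U hU).aestronglyMeasurable
    · filter_upwards [eventually_ge_atTop U0] with U hU
      refine Eventually.of_forall fun τ => ?_
      by_cases hτ : τ ∈ A U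
      · rw [Set.indicator_of_mem hτ]
        exact hnearb U τ hU hτ
      · rw [Set.indicator_of_notMem hτ, norm_zero]
        positivity
    · refine Eventually.of_forall fun τ => ?_
      refine ((hlim τ).const_mul (kap τ)).congr' ?_
      filter_upwards [eventually_ge_atTop (|τ| / δ)] with U hU
      have : τ ∈ A U := by
        show |τ| ≤ δ * U
        rw [div_le_iff₀ hδ] at hU
        linarith
      rw [Set.indicator_of_mem this]
  have hlim2 : Tendsto (fun U => ∫ τ, (A U)ᶜ.indicator (fun τ => kap τ * h U τ) τ) atTop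
      (𝓝 0) := by
    have hb : ∀ U, U0 ≤ U → ‖∫ τ, (A U)ᶜ.indicator (fun τ => kap τ * h U τ) τ‖ ≤
        K * C * (U⁻¹ + Real.log U / U) := by
      intro U hU
      have hUp : 0 < U := by linarith
      refine (norm_integral_le_of_norm_le ((hG U hU).1.const_mul (K / U ^ 2))
        (Eventually.of_forall (hI2' U hU))).trans ?_
      rw [integral_const_mul]
      refine (mul_le_mul_of_nonneg_left (hG U hU).2 (by positivity)).trans (le_of_eq ?_)
      field_simp
    have ht : Tendsto (fun U : ℝ => K * C * (U⁻¹ + Real.log U / U)) atTop (𝓝 0) := by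
      have t1 : Tendsto (fun U : ℝ => U⁻¹) atTop (𝓝 0) := tendsto_inv_atTop_zero
      have t2 : Tendsto (fun U : ℝ => Real.log U / U) atTop (𝓝 0) :=
        Real.isLittleO_log_id_atTop.tendsto_div_nhds_zero
      have := (t1.add t2).const_mul (K * C)
      simpa using this
    refine squeeze_zero_norm' ?_ ht
    filter_upwards [eventually_ge_atTop U0] with U hU
    exact hb U hU
  have hfin := ((hlim1.add hlim2).const_mul (1 / (2 * Real.pi)))
  rw [add_zero, integral_mul_const, int_kap h2] at hfin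
  have e : 1 / (2 * Real.pi) * (2 * Real.pi * h0) = h0 := by
    have := Real.pi_pos
    field_simp
  rw [e] at hfin
  refine hfin.congr' ?_
  filter_upwards [eventually_ge_atTop U0] with U hU
  rw [hsplit U hU]

end Pool.Agent.H814R3.BSD.TLim
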