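import Pool.Agent.H814R3.BSD.Stmts

/-! Task `TaskPerron` of the project H814-BSD: the explicit formula.  (helper676) -/

set_option autoImplicit false

open Complex Filter Topology Finset MeasureTheory

namespace Pool.Agent.H814R3.BSD.TPerron

open Pool.Agent.H814R3.BSD

theorem decay_bound (y : ℝ) :
    (1 + |y|) ^ (1 / 2 : ℝ) / (1 + y ^ 2) ≤ 2 * (1 + |y|) ^ (-(3 / 2) : ℝ) := by
  have h1 : 0 < 1 + |y| := by positivity
  have h2 : (1 + |y|) ^ 2 ≤ 2 * (1 + y ^ 2) := by
    have := sq_abs y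
    nlinarith [sq_nonneg (|y| - 1)]
  rw [div_le_iff₀ (by positivity)]
  have h3 : (1 + |y|) ^ (1 / 2 : ℝ) = (1 + |y|) ^ (-(3 / 2) : ℝ) * (1 + |y|) ^ 2 := by
    rw [← Real.rpow_natCast (1 + |y|) 2, ← Real.rpow_add h1]
    norm_num
  rw [h3]
  have h4 : 0 ≤ (1 + |y|) ^ (-(3 / 2) : ℝ) := Real.rpow_nonneg h1.le _
  nlinarith

theorem one_le_half (y : ℝ) : 1 ≤ (1 + |y|) ^ (1 / 2 : ℝ) :=
  Real.one_le_rpow (by linarith [abs_nonneg y]) (by norm_num)

/-- The transform of the kernel against one exponential, on the line `Re z = U - 1`. -/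
theorem key_n (h1 : TaskKap) (h2 : TaskInv) (h3 : TaskShift) (U : ℝ) (hU : 1 ≤ U) (x : ℝ)
    (hx : 0 ≤ x) :
    Integrable (fun t : ℝ => kk (((U - 1 : ℝ) : ℂ) + t * I) *
      exp (-((1 + (((U - 1 : ℝ) : ℂ) + t * I)) * x))) ∧
    ∫ t : ℝ, kk (((U - 1 : ℝ) : ℂ) + t * I) *
      exp (-((1 + (((U - 1 : ℝ) : ℂ) + t * I)) * x)) =
        ((2 * Real.pi * max (1 - x) 0 : ℝ) : ℂ) := by
  obtain ⟨-, -, hkk, hdiff, hbd⟩ := h1
  obtain ⟨B, hB⟩ := hbd (U - 1)
  have hB0 : 0 ≤ B := by
    have := (norm_nonneg _).trans (hB 0 (by simpa using hU))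
    simpa using this
  obtain ⟨-, i2, i3⟩ := h3 0 (U - 1) (2 * B) (fun z => kk z * exp (-((1 + z) * x))) (by linarith)
    ⟨Set.univ, isOpen_univ, Set.subset_univ _, by
      have : Differentiable ℂ (fun z : ℂ => kk z * exp (-((1 + z) * x))) := by
        refine hdiff.mul ?_
        fun_prop
      exact this.differentiableOn⟩ (by
      intro w hw1 hw2
      have e1 : ‖exp (-((1 + w) * x))‖ ≤ 1 := by
        rw [Complex.norm_exp]
        apply Real.exp_le_one_iff.mpr
        have : (-((1 + w) * (x : ℂ))).re = -((1 + w.re) * x) := by simp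
        rw [this]
        have : 0 ≤ (1 + w.re) * x := mul_nonneg (by linarith) hx
        linarith
      have e2 : ‖kk w‖ ≤ B / (1 + w.im ^ 2) := hB w (by rw [abs_of_nonneg hw1]; exact hw2)
      rw [norm_mul]
      calc ‖kk w‖ * ‖exp (-((1 + w) * x))‖ ≤ B / (1 + w.im ^ 2) * 1 := by
            apply mul_le_mul e2 e1 (norm_nonneg _) (by positivity)
        _ ≤ B * ((1 + |w.im|) ^ (1 / 2 : ℝ) / (1 + w.im ^ 2)) := by
            rw [mul_one, div_eq_mul_one_div]
            apply mul_le_mul_of_nonneg_left _ hB0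
            apply div_le_div_of_nonneg_right (one_le_half _) (by positivity)
        _ ≤ B * (2 * (1 + |w.im|) ^ (-(3 / 2) : ℝ)) :=
            mul_le_mul_of_nonneg_left (decay_bound _) hB0
        _ = 2 * B * (1 + |w.im|) ^ (-(3 / 2) : ℝ) := by ring)
  refine ⟨i2, ?_⟩
  rw [← i3]
  have e3 : ∀ t : ℝ, kk (((0 : ℝ) : ℂ) + t * I) * exp (-((1 + (((0 : ℝ) : ℂ) + t * I)) * x)) =
      exp (-(x : ℂ)) * ((kap t : ℂ) * exp (-(t * I * x))) := by
    intro t
    rw [ofReal_zero, zero_add, hkk]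
    have : -((1 + (t : ℂ) * I) * x) = -(x : ℂ) + -(t * I * x) := by ring
    rw [this, Complex.exp_add]
    ring
  simp only [e3]
  rw [integral_const_mul, h2 x hx]
  push_cast
  have e4 : exp (-(x : ℂ)) * exp (x : ℂ) = 1 := by rw [← Complex.exp_add]; simp
  linear_combination (2 * (Real.pi : ℂ) * (max (1 - x) 0 : ℝ)) * e4

theorem term_eq (a : ℕ → ℝ) (h0 : a 0 = 0) (w : ℂ) (n : ℕ) :
    LSeries.term (fun n => (a n : ℂ)) w n = (a n : ℂ) * exp (-(w * (Real.log n : ℂ))) := by
  rcases Nat.eq_zero_or_pos n with rfl | hn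
  · simp [h0]
  · rw [LSeries.term_of_ne_zero hn.ne']
    have hn' : (n : ℂ) ≠ 0 := by exact_mod_cast hn.ne'
    rw [Complex.cpow_def_of_ne_zero hn', Complex.natCast_log, div_eq_mul_inv, ← Complex.exp_neg]
    congr 2
    ring

theorem perron_ok (h1 : TaskKap) (h2 : TaskInv) (h3 : TaskShift) : TaskPerron := by
  intro a H ha0 hsum hH hHL hHb U hU
  have hU0 : 0 < U := by linarith
  have hUc : (U : ℂ) ≠ 0 := by exact_mod_cast hU0.ne'
  obtain ⟨-, -, hkk, hdiff, hbd⟩ := id h1
  obtain ⟨B, hB⟩ := hbd (U - 1)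
  have hB0 : 0 ≤ B := by
    have := (norm_nonneg _).trans (hB 0 (by simpa using hU))
    simpa using this
  obtain ⟨B', hB'⟩ := hHb (1 / U) (by positivity)
  have hB'0 : 0 ≤ B' := by
    have h := (norm_nonneg _).trans (hB' 1 (by
      simp only [one_re]
      rw [div_le_one hU0]
      exact hU) (by simp))
    simpa using h
  -- step 1: the shift
  have hre : ∀ w : ℂ, ((1 + w) / U).re = (1 + w.re) / U := by
    intro w
    rw [Complex.div_ofReal_re]
    simp
  have him : ∀ w : ℂ, ((1 + w) / U).im = w.im / U := by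
    intro w
    rw [Complex.div_ofReal_im]
    simp
  obtain ⟨i1, i2, i3⟩ := h3 0 (U - 1) (2 * (B * B')) (fun z => kk z * H ((1 + z) / U))
    (by linarith)
    ⟨{z : ℂ | -1 < z.re}, isOpen_lt continuous_const Complex.continuous_re, by
      rintro w ⟨hw1, -⟩
      have : -1 < w.re := by linarith
      exact this, by
      refine hdiff.differentiableOn.mul ?_
      apply hH.comp
      · fun_prop
      · intro w hw
        have hw' : -1 < w.re := hw
        have : 0 < ((1 + w) / U).re := by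
          rw [hre]
          apply div_pos _ hU0
          linarith
        exact this⟩ (by
      intro w hw1 hw2
      have e2 : ‖kk w‖ ≤ B / (1 + w.im ^ 2) := hB w (by rw [abs_of_nonneg hw1]; exact hw2)
      have e1 : ‖H ((1 + w) / U)‖ ≤ B' * (1 + |w.im|) ^ (1 / 2 : ℝ) := by
        have h := hB' ((1 + w) / U) (by
          rw [hre]
          apply div_le_div_of_nonneg_right _ hU0.le
          linarith) (by
          rw [hre, div_le_one hU0]
          linarith)
        refine h.trans (mul_le_mul_of_nonneg_left ?_ hB'0)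
        apply Real.rpow_le_rpow (by positivity) _ (by norm_num)
        rw [him, abs_div, abs_of_pos hU0]
        have : |w.im| / U ≤ |w.im| := div_le_self (abs_nonneg _) hU
        linarith
      rw [norm_mul]
      calc ‖kk w‖ * ‖H ((1 + w) / U)‖ ≤
            B / (1 + w.im ^ 2) * (B' * (1 + |w.im|) ^ (1 / 2 : ℝ)) := by
            apply mul_le_mul e2 e1 (norm_nonneg _) (by positivity)
        _ = (B * B') * ((1 + |w.im|) ^ (1 / 2 : ℝ) / (1 + w.im ^ 2)) := by ring
        _ ≤ (B * B') * (2 * (1 + |w.im|) ^ (-(3 / 2) : ℝ)) :=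
            mul_le_mul_of_nonneg_left (decay_bound _) (by positivity)
        _ = 2 * (B * B') * (1 + |w.im|) ^ (-(3 / 2) : ℝ) := by ring)
  -- step 2: the sum
  set F : ℕ → ℝ → ℂ := fun n t => (a n : ℂ) * (kk (((U - 1 : ℝ) : ℂ) + t * I) *
      exp (-((1 + (((U - 1 : ℝ) : ℂ) + t * I)) * ((Real.log n / U : ℝ) : ℂ)))) with hF
  have hx : ∀ n : ℕ, 0 ≤ Real.log n / U := fun n =>
    div_nonneg (Real.log_natCast_nonneg n) hU0.le
  have hFint : ∀ n, Integrable (F n) := fun n =>
    (key_n h1 h2 h3 U hU (Real.log n / U) (hx n)).1.const_mul _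
  have hFval : ∀ n, ∫ t, F n t =
      (a n : ℂ) * ((2 * Real.pi * max (1 - Real.log n / U) 0 : ℝ) : ℂ) := by
    intro n
    simp only [hF]
    rw [integral_const_mul, (key_n h1 h2 h3 U hU (Real.log n / U) (hx n)).2]
  have hnormF : ∀ n t, ‖F n t‖ = |a n| / n * ‖kk (((U - 1 : ℝ) : ℂ) + t * I)‖ := by
    intro n t
    rcases Nat.eq_zero_or_pos n with rfl | hn
    · simp [hF, ha0]
    · simp only [hF]
      rw [norm_mul, norm_mul, Complex.norm_real, Real.norm_eq_abs, Complex.norm_exp]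
      have hn' : (0 : ℝ) < n := by exact_mod_cast hn
      have e1 : (-((1 + (((U - 1 : ℝ) : ℂ) + t * I)) * ((Real.log n / U : ℝ) : ℂ))).re =
          -Real.log n := by
        have e0 : ((1 + (((U - 1 : ℝ) : ℂ) + t * I)) * ((Real.log n / U : ℝ) : ℂ)).re =
            (1 + (((U - 1 : ℝ) : ℂ) + t * I)).re * (Real.log n / U) := by
          rw [Complex.re_mul_ofReal]
        rw [Complex.neg_re, e0]
        have e00 : (1 + (((U - 1 : ℝ) : ℂ) + t * I)).re = U := by simp
        rw [e00]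
        field_simp
      rw [e1, Real.exp_neg, Real.exp_log hn']
      ring
  have hk0 : Integrable (fun t : ℝ => kk (((U - 1 : ℝ) : ℂ) + t * I)) := by
    have := (key_n h1 h2 h3 U hU 0 le_rfl).1
    simpa using this
  have hS : Summable fun n => ∫ t, ‖F n t‖ := by
    simp only [hnormF]
    simp only [integral_const_mul]
    exact hsum.mul_right _
  have hHS := hasSum_integral_of_summable_integral_norm hFint hS
  have hline : ∀ t : ℝ, ∑' n, F n t =
      kk (((U - 1 : ℝ) : ℂ) + t * I) * H ((1 + (((U - 1 : ℝ) : ℂ) + t * I)) / U) := by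
    intro t
    rw [hHL _ (by
      rw [hre]
      have : (((U - 1 : ℝ) : ℂ) + t * I).re = U - 1 := by simp
      rw [this]
      rw [le_div_iff₀ hU0]
      linarith)]
    unfold LSeries
    rw [← tsum_mul_left]
    congr 1
    funext n
    rw [term_eq a ha0]
    simp only [hF]
    have : (1 + (((U - 1 : ℝ) : ℂ) + t * I)) * ((Real.log n / U : ℝ) : ℂ) =
        (1 + (((U - 1 : ℝ) : ℂ) + t * I)) / U * (Real.log n : ℂ) := by
      push_cast
      ring
    rw [this]
    ring
  simp only [hline] at hHS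
  rw [← i3] at hHS
  -- step 3: real parts
  have hkapint : ∫ τ : ℝ, kap τ * (H ((1 + τ * I) / U)).re =
      (∫ t : ℝ, kk (((0 : ℝ) : ℂ) + t * I) * H ((1 + (((0 : ℝ) : ℂ) + t * I)) / U)).re := by
    have e1 := Complex.reCLM.integral_comp_comm i1
    simp only [Complex.reCLM_apply] at e1
    rw [← e1]
    congr 1
    funext τ
    rw [ofReal_zero, zero_add, hkk, Complex.re_ofReal_mul]
  rw [hkapint]
  have hHS2 := (Complex.hasSum_re hHS)
  have hterm : ∀ n : ℕ, (∫ t, F n t).re = a n * (2 * Real.pi * max (1 - Real.log n / U) 0) := by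
    intro n
    rw [hFval, Complex.re_ofReal_mul, Complex.ofReal_re]
  simp only [hterm] at hHS2
  have hfin : ∀ n ∉ Finset.Icc 1 ⌊Real.exp U⌋₊,
      a n * (2 * Real.pi * max (1 - Real.log n / U) 0) = 0 := by
    intro n hn
    rw [Finset.mem_Icc, not_and_or] at hn
    rcases Nat.eq_zero_or_pos n with rfl | hn0
    · rw [ha0, zero_mul]
    · have hn1 : ¬ n ≤ ⌊Real.exp U⌋₊ := by
        rcases hn with hn | hn
        · omega
        · exact hn
      rw [not_le, Nat.floor_lt (Real.exp_pos U).le] at hn1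
      have h4 : U < Real.log n := by
        rw [Real.lt_log_iff_exp_lt (by exact_mod_cast hn0)]
        exact hn1
      have h5 : 1 - Real.log n / U ≤ 0 := by
        rw [sub_nonpos, one_le_div hU0]
        exact h4.le
      rw [max_eq_right h5, mul_zero, mul_zero]
  have h6 := hHS2.unique (hasSum_sum_of_ne_finset_zero hfin)
  rw [h6, Finset.mul_sum]
  apply Finset.sum_congr rfl
  intro k hk
  rw [Finset.mem_Icc] at hk
  have hk1 : (1 : ℝ) ≤ k := by exact_mod_cast hk.1
  have h7 : 0 ≤ 1 - Real.log k / U := by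
    rw [sub_nonneg, div_le_one hU0, Real.log_le_iff_le_exp (by linarith)]
    exact (Nat.cast_le.mpr hk.2).trans (Nat.floor_le (Real.exp_pos U).le)
  rw [max_eq_left h7]
  have hpi : (2 * Real.pi) ≠ 0 := by positivity
  field_simp

end Pool.Agent.H814R3.BSD.TPerron
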