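import Pool.Agent.H814R3.BSD.Stmts

set_option autoImplicit false

open Complex Filter Topology MeasureTheory

namespace Pool.Agent.H814R3.BSD.TShift

open Pool.Agent.H814R3.BSD

lemma integrable_decay : Integrable (fun y : ℝ => (1 + |y|) ^ (-(3 / 2 : ℝ))) := by
  have := integrable_one_add_norm (E := ℝ) (μ := volume) (r := 3 / 2) (by simp; norm_num)
  simpa using this

lemma vertical_integrable {H : ℂ → ℂ} {a B : ℝ}
    (hd : ∀ s : ℂ, s.re = a → ContinuousAt H s)
    (hB : ∀ s : ℂ, s.re = a → ‖H s‖ ≤ B * (1 + |s.im|) ^ (-(3 / 2 : ℝ))) :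
    Integrable (fun y : ℝ => H (a + y * Complex.I)) := by
  have hc : Continuous (fun y : ℝ => H (a + y * Complex.I)) := by
    rw [continuous_iff_continuousAt]
    intro y
    have h1 : ContinuousAt H ((a : ℂ) + y * Complex.I) := hd _ (by simp)
    exact ContinuousAt.comp (f := fun y : ℝ => (a : ℂ) + y * Complex.I) h1 (by fun_prop)
  refine (integrable_decay.const_mul B).mono' hc.aestronglyMeasurable
    (Filter.Eventually.of_forall fun y => ?_)
  have := hB (a + y * Complex.I) (by simp)
  simpa using this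

lemma contour_shift {H : ℂ → ℂ} {a b B : ℝ} (hab : a ≤ b)
    (hd : ∀ s : ℂ, a ≤ s.re → s.re ≤ b → DifferentiableAt ℂ H s)
    (hB : ∀ s : ℂ, a ≤ s.re → s.re ≤ b → ‖H s‖ ≤ B * (1 + |s.im|) ^ (-(3 / 2 : ℝ))) :
    ∫ y : ℝ, H (a + y * Complex.I) = ∫ y : ℝ, H (b + y * Complex.I) := by
  have ia : Integrable (fun y : ℝ => H (a + y * Complex.I)) :=
    vertical_integrable (fun s hs => (hd s hs.ge (hs.le.trans hab)).continuousAt)
      (fun s hs => hB s hs.ge (hs.le.trans hab))
  have ib : Integrable (fun y : ℝ => H (b + y * Complex.I)) :=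
    vertical_integrable (fun s hs => (hd s (hab.trans hs.ge) hs.le).continuousAt)
      (fun s hs => hB s (hab.trans hs.ge) hs.le)
  have hrect : ∀ T : ℝ, 0 < T →
      (∫ x in a..b, H (x + (-T : ℝ) * Complex.I)) - (∫ x in a..b, H (x + (T : ℝ) * Complex.I)) +
        Complex.I • (∫ y in (-T)..T, H (b + y * Complex.I)) -
        Complex.I • (∫ y in (-T)..T, H (a + y * Complex.I)) = 0 := by
    intro T hT
    have := Complex.integral_boundary_rect_eq_zero_of_differentiableOn H ⟨a, -T⟩ ⟨b, T⟩ ?_
    · simpa using this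
    · intro s hs
      rw [Complex.mem_reProdIm] at hs
      simp only at hs
      rw [Set.uIcc_of_le hab] at hs
      exact (hd s hs.1.1 hs.1.2).differentiableWithinAt
  have hB0 : 0 ≤ B := by
    have := (norm_nonneg _).trans (hB a (by simp) (by simpa using hab))
    simpa using this
  have hhor : ∀ T : ℝ, ‖∫ x in a..b, H (x + (T : ℝ) * Complex.I)‖ ≤
      B * (1 + |T|) ^ (-(3 / 2 : ℝ)) * |b - a| := by
    intro T
    refine intervalIntegral.norm_integral_le_of_norm_le_const fun x hx => ?_
    rw [Set.uIoc_of_le hab] at hx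
    have := hB (x + (T : ℝ) * Complex.I) (by simpa using hx.1.le) (by simpa using hx.2)
    simpa using this
  have hlim0 : Tendsto (fun T : ℝ => B * (1 + |T|) ^ (-(3 / 2 : ℝ)) * |b - a|) atTop (𝓝 0) := by
    have h1 : Tendsto (fun T : ℝ => (1 + |T|)) atTop atTop :=
      tendsto_atTop_add_const_left _ _ tendsto_abs_atTop_atTop
    have h2 := (tendsto_rpow_neg_atTop (y := 3 / 2) (by norm_num)).comp h1
    have h3 := (h2.const_mul B).mul_const |b - a|
    simpa using h3
  have hl1 : Tendsto (fun T : ℝ => ∫ x in a..b, H (x + (T : ℝ) * Complex.I)) atTop (𝓝 0) :=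
    squeeze_zero_norm hhor hlim0
  have hl2 : Tendsto (fun T : ℝ => ∫ x in a..b, H (x + (-T : ℝ) * Complex.I)) atTop (𝓝 0) := by
    refine squeeze_zero_norm (a := fun T : ℝ => B * (1 + |T|) ^ (-(3 / 2 : ℝ)) * |b - a|) ?_ hlim0
    intro T
    have := hhor (-T)
    rw [abs_neg] at this
    exact this
  have hl3 := intervalIntegral_tendsto_integral ib tendsto_neg_atTop_atBot tendsto_id
  have hl4 := intervalIntegral_tendsto_integral ia tendsto_neg_atTop_atBot tendsto_id
  have hfin := ((hl2.sub hl1).add (hl3.const_smul Complex.I)).sub (hl4.const_smul Complex.I)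
  have hzero : Tendsto (fun _ : ℝ => (0:ℂ)) atTop (𝓝 0) := tendsto_const_nhds
  have huniq := tendsto_nhds_unique (hfin.congr' ?_) hzero
  · rw [sub_zero, zero_add, ← smul_sub, smul_eq_mul] at huniq
    have := (mul_eq_zero.mp huniq).resolve_left Complex.I_ne_zero
    exact (sub_eq_zero.mp this).symm
  · filter_upwards [eventually_gt_atTop 0] with T hT
    simpa using hrect T hT

theorem shift_ok : TaskShift := by
  intro c d B G hcd hU hB
  obtain ⟨U, hUo, hsub, hG⟩ := hU
  have hd : ∀ s : ℂ, c ≤ s.re → s.re ≤ d → DifferentiableAt ℂ G s := fun s h1 h2 =>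
    (hG s (hsub ⟨h1, h2⟩)).differentiableAt (hUo.mem_nhds (hsub ⟨h1, h2⟩))
  refine ⟨?_, ?_, ?_⟩
  · exact vertical_integrable (B := B)
      (fun s hs => (hd s hs.ge (hs.le.trans hcd)).continuousAt)
      (fun s hs => hB s hs.ge (hs.le.trans hcd))
  · exact vertical_integrable (B := B)
      (fun s hs => (hd s (hcd.trans hs.ge) hs.le).continuousAt)
      (fun s hs => hB s (hcd.trans hs.ge) hs.le)
  · exact contour_shift (B := B) hcd hd hB

end Pool.Agent.H814R3.BSD.TShift
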