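import Pool.Agent.H814R3.BSD.Stmts

/-! Task Z of the project H814-BSD (helper99): the Dirichlet series of `1 / (n log n)`. -/

set_option autoImplicit false

open Complex Filter Topology Finset MeasureTheory

namespace Pool.Agent.H814R3.BSD

namespace TZ99

lemma zz_nonneg (n : ℕ) : 0 ≤ zz n := by
  unfold zz
  split_ifs with h
  · have : 0 ≤ Real.log n := Real.log_natCast_nonneg n
    positivity
  · exact le_rfl

lemma zz_le (n : ℕ) (hn : n ≠ 0) : zz n ≤ (1 / Real.log 2) * (1 / n) := by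
  have hl2 : 0 < Real.log 2 := Real.log_pos (by norm_num)
  unfold zz
  split_ifs with h
  · have h2 : Real.log 2 ≤ Real.log n := Real.log_le_log (by norm_num) (by exact_mod_cast h)
    have hn0 : (0 : ℝ) < n := by positivity
    rw [one_div_mul_one_div]
    apply one_div_le_one_div_of_le (by positivity)
    nlinarith
  · positivity

/-- the real Dirichlet series -/
noncomputable def S (σ : ℝ) : ℝ := ∑' n : ℕ, zz n * (n : ℝ) ^ (-σ)

lemma term_nonneg (σ : ℝ) (n : ℕ) : 0 ≤ zz n * (n : ℝ) ^ (-σ) :=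
  mul_nonneg (zz_nonneg n) (Real.rpow_nonneg (Nat.cast_nonneg n) _)

lemma summ {σ : ℝ} (hσ : 0 < σ) : Summable (fun n : ℕ => zz n * (n : ℝ) ^ (-σ)) := by
  have h1 : Summable (fun n : ℕ => (1 / Real.log 2) * (1 / (n : ℝ) ^ (1 + σ))) :=
    (Real.summable_one_div_nat_rpow.mpr (by linarith)).mul_left _
  refine Summable.of_nonneg_of_le (term_nonneg σ) (fun n => ?_) h1
  rcases Nat.eq_zero_or_pos n with h | h
  · subst h
    have hl2 : 0 < Real.log 2 := Real.log_pos (by norm_num)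
    simp only [zz]
    norm_num
    positivity
  · have hn : (0 : ℝ) < n := by exact_mod_cast h
    have := zz_le n h.ne'
    calc zz n * (n : ℝ) ^ (-σ) ≤ ((1 / Real.log 2) * (1 / n)) * (n : ℝ) ^ (-σ) := by
          apply mul_le_mul_of_nonneg_right this (Real.rpow_nonneg hn.le _)
      _ = (1 / Real.log 2) * (1 / (n : ℝ) ^ (1 + σ)) := by
          rw [Real.rpow_add hn, Real.rpow_one, Real.rpow_neg hn.le]
          field_simp

lemma S_nonneg (σ : ℝ) : 0 ≤ S σ := tsum_nonneg (term_nonneg σ)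

lemma S_anti {σ τ : ℝ} (hσ : 0 < σ) (h : σ ≤ τ) : S τ ≤ S σ := by
  refine Summable.tsum_le_tsum (fun n => ?_) (summ (hσ.trans_le h)) (summ hσ)
  rcases Nat.eq_zero_or_pos n with h0 | h0
  · subst h0; simp [zz]
  · apply mul_le_mul_of_nonneg_left _ (zz_nonneg n)
    exact Real.rpow_le_rpow_of_exponent_le (by exact_mod_cast h0) (by linarith)

/-- telescoping bound -/
lemma tele {t : ℝ} (ht : 0 < t) (n : ℕ) :
    t * ((n : ℝ) + 2) ^ (-(1 + t)) ≤ ((n : ℝ) + 1) ^ (-t) - ((n : ℝ) + 2) ^ (-t) := by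
  have h2 : (0 : ℝ) < (n : ℝ) + 2 := by positivity
  have h1 : (0 : ℝ) < (n : ℝ) + 1 := by positivity
  set x : ℝ := 1 / ((n : ℝ) + 2) with hx
  have hx0 : 0 < x := by positivity
  have h3 : ((n : ℝ) + 1) = ((n : ℝ) + 2) * (1 - x) := by rw [hx]; field_simp; ring
  have h4 : 0 < 1 - x := by
    by_contra hc
    rw [h3] at h1
    nlinarith
  have h5 : ((n : ℝ) + 1) ^ (-t) = ((n : ℝ) + 2) ^ (-t) * (1 - x) ^ (-t) := by
    rw [h3, Real.mul_rpow h2.le h4.le]
  have h6 : 1 + t * x ≤ (1 - x) ^ (-t) := by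
    rw [Real.rpow_def_of_pos h4]
    have h7 : Real.log (1 - x) ≤ -x := by
      have := Real.log_le_sub_one_of_pos h4
      linarith
    have h8 : t * x ≤ Real.log (1 - x) * (-t) := by nlinarith
    have h9 := Real.add_one_le_exp (Real.log (1 - x) * (-t))
    linarith
  have h10 : ((n : ℝ) + 2) ^ (-(1 + t)) = ((n : ℝ) + 2) ^ (-t) * x := by
    rw [show -(1 + t) = -t + (-1) by ring, Real.rpow_add h2, Real.rpow_neg_one, hx, one_div]
  have h11 : 0 < ((n : ℝ) + 2) ^ (-t) := Real.rpow_pos_of_pos h2 _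
  rw [h5, h10]
  nlinarith

lemma tele_sum {t : ℝ} (ht : 0 < t) (M : ℕ) :
    ∑ m ∈ range M, t * ((m : ℝ) + 2) ^ (-(1 + t)) ≤ 1 - ((M : ℝ) + 1) ^ (-t) := by
  induction M with
  | zero => simp
  | succ M ih =>
    rw [sum_range_succ]
    have := tele ht M
    push_cast
    have e : ((M : ℝ) + 1 + 1) = (M : ℝ) + 2 := by ring
    rw [e]
    linarith

lemma term_step {σ : ℝ} (hσ : 0 < σ) (m : ℕ) :
    zz (m + 2) * ((m + 2 : ℕ) : ℝ) ^ (-(σ / 2)) ≤
      zz (m + 2) * ((m + 2 : ℕ) : ℝ) ^ (-σ) + σ / 2 * ((m : ℝ) + 2) ^ (-(1 + σ / 2)) := by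
  have hn : (0 : ℝ) < (m : ℝ) + 2 := by positivity
  have hl : 0 < Real.log ((m : ℝ) + 2) := Real.log_pos (by linarith [(Nat.cast_nonneg m : (0:ℝ) ≤ m)])
  have hz : zz (m + 2) = 1 / (((m : ℝ) + 2) * Real.log ((m : ℝ) + 2)) := by
    unfold zz
    rw [if_pos (by omega)]
    push_cast
    ring_nf
  push_cast
  rw [hz]
  set y := ((m : ℝ) + 2) ^ (-(σ / 2)) with hy
  have hy0 : 0 < y := Real.rpow_pos_of_pos hn _
  have h1 : ((m : ℝ) + 2) ^ (-σ) = y * y := by
    rw [hy, ← Real.rpow_add hn]; ring_nf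
  have h2 : 1 - σ / 2 * Real.log ((m : ℝ) + 2) ≤ y := by
    rw [hy, Real.rpow_def_of_pos hn]
    have := Real.add_one_le_exp (Real.log ((m : ℝ) + 2) * (-(σ / 2)))
    linarith
  have h3 : ((m : ℝ) + 2) ^ (-(1 + σ / 2)) = y / ((m : ℝ) + 2) := by
    rw [show -(1 + σ / 2) = -(σ / 2) + (-1) by ring, Real.rpow_add hn, Real.rpow_neg_one, ← hy,
      div_eq_mul_inv]
  rw [h1, h3]
  have h4 : y - y * y ≤ σ / 2 * y * Real.log ((m : ℝ) + 2) := by nlinarith
  have h5 : 1 / (((m : ℝ) + 2) * Real.log ((m : ℝ) + 2)) * (y - y * y) ≤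
      1 / (((m : ℝ) + 2) * Real.log ((m : ℝ) + 2)) * (σ / 2 * y * Real.log ((m : ℝ) + 2)) :=
    mul_le_mul_of_nonneg_left h4 (by positivity)
  have h6 : 1 / (((m : ℝ) + 2) * Real.log ((m : ℝ) + 2)) * (σ / 2 * y * Real.log ((m : ℝ) + 2)) =
      σ / 2 * (y / ((m : ℝ) + 2)) := by
    field_simp
  linarith

lemma S_half {σ : ℝ} (hσ : 0 < σ) : S (σ / 2) ≤ S σ + 1 := by
  refine Summable.tsum_le_of_sum_range_le (summ (by linarith)) (fun N => ?_)
  have hmono : ∑ i ∈ range N, zz i * (i : ℝ) ^ (-(σ / 2)) ≤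
      ∑ i ∈ range (N + 2), zz i * (i : ℝ) ^ (-(σ / 2)) :=
    sum_le_sum_of_subset_of_nonneg (range_mono (by omega)) (fun i _ _ => term_nonneg _ i)
  refine hmono.trans ?_
  have hs : ∀ τ : ℝ, ∑ i ∈ range (N + 2), zz i * (i : ℝ) ^ (-τ) =
      ∑ m ∈ range N, zz (m + 2) * ((m + 2 : ℕ) : ℝ) ^ (-τ) := by
    intro τ
    rw [sum_range_succ', sum_range_succ']
    have h0 : zz 0 = 0 := by simp [zz]
    have h1 : zz (0 + 1) = 0 := by simp [zz]
    rw [h0, h1, zero_mul, zero_mul, add_zero, add_zero]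
  rw [hs]
  have h1 : ∑ m ∈ range N, zz (m + 2) * ((m + 2 : ℕ) : ℝ) ^ (-(σ / 2)) ≤
      ∑ m ∈ range N, (zz (m + 2) * ((m + 2 : ℕ) : ℝ) ^ (-σ) +
        σ / 2 * ((m : ℝ) + 2) ^ (-(1 + σ / 2))) := sum_le_sum fun m _ => term_step hσ m
  rw [sum_add_distrib, ← hs σ] at h1
  have h2 : ∑ i ∈ range (N + 2), zz i * (i : ℝ) ^ (-σ) ≤ S σ :=
    (summ hσ).sum_le_tsum _ (fun i _ => term_nonneg _ i)
  have h3 := tele_sum (half_pos hσ) N
  have h4 : 0 ≤ ((N : ℝ) + 1) ^ (-(σ / 2)) := Real.rpow_nonneg (by positivity) _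
  linarith

lemma S_pow (k : ℕ) : S ((1 / 2) ^ k) ≤ S 1 + k := by
  induction k with
  | zero => simp
  | succ k ih =>
    have h := S_half (σ := (1 / 2 : ℝ) ^ k) (by positivity)
    rw [show ((1 / 2 : ℝ) ^ (k + 1)) = (1 / 2) ^ k / 2 by ring]
    push_cast
    linarith

lemma S_bound : ∃ C : ℝ, 0 ≤ C ∧ ∀ σ : ℝ, 0 < σ → S σ ≤ C * (1 + |Real.log σ|) := by
  have hl2 : 0 < Real.log 2 := Real.log_pos (by norm_num)
  refine ⟨S 1 + 1 + 1 / Real.log 2, by have := S_nonneg 1; positivity, fun σ hσ => ?_⟩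
  have hS1 := S_nonneg 1
  rcases le_total 1 σ with h | h
  · have h1 := S_anti one_pos h
    have h2 : 0 ≤ |Real.log σ| := abs_nonneg _
    have h3 : 0 ≤ 1 / Real.log 2 := by positivity
    nlinarith
  · set x : ℝ := -Real.log σ / Real.log 2 with hx
    have hlog : Real.log σ ≤ 0 := Real.log_nonpos hσ.le h
    have hx0 : 0 ≤ x := div_nonneg (by linarith) hl2.le
    have hk : x ≤ (⌈x⌉₊ : ℝ) := Nat.le_ceil x
    have hk2 : (⌈x⌉₊ : ℝ) < x + 1 := Nat.ceil_lt_add_one hx0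
    have h1 : ((1 / 2 : ℝ)) ^ ⌈x⌉₊ ≤ σ := by
      have h2 : Real.log (((1 / 2 : ℝ)) ^ ⌈x⌉₊) ≤ Real.log σ := by
        rw [Real.log_pow, one_div, Real.log_inv]
        have h3 : -Real.log σ = x * Real.log 2 := by rw [hx]; field_simp
        nlinarith
      exact (Real.log_le_log_iff (by positivity) hσ).mp h2
    have h4 := S_anti (by positivity : (0 : ℝ) < (1 / 2) ^ ⌈x⌉₊) h1
    have h5 := S_pow ⌈x⌉₊
    have h6 : |Real.log σ| = -Real.log σ := abs_of_nonpos hlog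
    have h7 : x = 1 / Real.log 2 * |Real.log σ| := by rw [h6, hx]; ring
    have h8 : 0 ≤ |Real.log σ| := abs_nonneg _
    have h9 : 0 ≤ 1 / Real.log 2 := by positivity
    calc S σ ≤ S 1 + ⌈x⌉₊ := h4.trans h5
      _ ≤ S 1 + (1 / Real.log 2 * |Real.log σ| + 1) := by rw [← h7]; linarith
      _ ≤ (S 1 + 1 + 1 / Real.log 2) * (1 + |Real.log σ|) := by nlinarith

lemma summable_LS {w : ℂ} (hw : 0 < w.re) : LSeriesSummable (fun n => (zz n : ℂ)) w := by
  refine LSeriesSummable_of_le_const_mul_rpow (x := 0) hw ⟨1 / Real.log 2, fun n hn => ?_⟩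
  have h := zz_le n hn
  rw [Complex.norm_real, Real.norm_of_nonneg (zz_nonneg n)]
  refine h.trans (le_of_eq ?_)
  rw [zero_sub, Real.rpow_neg_one, one_div (n : ℝ)]

end TZ99

open TZ99 in
/-- Task Z1 of the project H814-BSD. -/
theorem taskZ : TaskZ := by
  refine ⟨?_, fun w hw => summable_LS hw, ?_⟩
  · refine (LSeries_differentiableOn (fun n => (zz n : ℂ))).mono fun w hw => ?_
    have hw' : 0 < w.re := hw
    have h1 : LSeries.abscissaOfAbsConv (fun n => (zz n : ℂ)) ≤ ((0 : ℝ) : EReal) := by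
      refine LSeries.abscissaOfAbsConv_le_of_forall_lt_LSeriesSummable fun y hy => ?_
      exact summable_LS (by simpa using hy)
    exact lt_of_le_of_lt h1 (by exact_mod_cast hw')
  · obtain ⟨C, hC, h⟩ := S_bound
    refine ⟨C, fun w hw => le_trans ?_ (h w.re hw)⟩
    unfold ZZ LSeries S
    refine (norm_tsum_le_tsum_norm (summable_LS hw).norm).trans (le_of_eq ?_)
    refine tsum_congr fun n => ?_
    rw [LSeries.norm_term_eq]
    split_ifs with hn
    · subst hn; simp [zz]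
    · rw [Complex.norm_real, Real.norm_of_nonneg (zz_nonneg n), div_eq_mul_inv,
        Real.rpow_neg (Nat.cast_nonneg n)]

end Pool.Agent.H814R3.BSD
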