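import Pool.Agent.H814R3.BSD.Stmts

/-! # H814-BSD task Z0: the comparison series near `0` (helper471) -/

set_option autoImplicit false

open Complex Filter Topology Finset MeasureTheory

namespace Pool.Agent.H814R3.BSD

namespace TZ0

/-! ### The complex part -/

lemma zz_nonneg (n : ℕ) : 0 ≤ zz n := by
  unfold zz
  split_ifs with h
  · have : 0 ≤ Real.log n := Real.log_natCast_nonneg n
    positivity
  · exact le_rfl

lemma zz_le (n : ℕ) (hn : n ≠ 0) : zz n ≤ (1 / Real.log 2) * (n : ℝ) ^ (-1 : ℝ) := by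
  have hl2 : 0 < Real.log 2 := Real.log_pos (by norm_num)
  have hn' : (0 : ℝ) < n := by exact_mod_cast Nat.pos_of_ne_zero hn
  unfold zz
  rw [Real.rpow_neg_one]
  split_ifs with h
  · have h2 : (2 : ℝ) ≤ n := by exact_mod_cast h
    have h3 : Real.log 2 ≤ Real.log n := Real.log_le_log (by norm_num) h2
    rw [one_div, mul_inv, mul_comm, one_div]
    gcongr
  · positivity

lemma absc {w : ℂ} (hw : 0 < w.re) :
    LSeries.abscissaOfAbsConv (fun n => (zz n : ℂ)) < w.re := by
  have h := LSeries.abscissaOfAbsConv_le_of_le_const_mul_rpow (f := fun n => (zz n : ℂ))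
    (x := (-1 : ℝ)) ⟨1 / Real.log 2, fun n hn => by
      rw [Complex.norm_real, Real.norm_of_nonneg (zz_nonneg n)]
      exact zz_le n hn⟩
  refine h.trans_lt ?_
  have : ((-1 : ℝ) : EReal) + 1 = ((0 : ℝ) : EReal) := by norm_cast
  rw [this]
  exact_mod_cast hw

lemma logMul_series {w : ℂ} (hw : 0 < w.re) :
    LSeries (LSeries.logMul (fun n => (zz n : ℂ))) w = riemannZeta (1 + w) - 1 := by
  have h1 : 1 < (1 + w).re := by simp [hw]
  have hs : Summable (fun n : ℕ => 1 / (n : ℂ) ^ (1 + w)) := by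
    exact Complex.summable_one_div_nat_cpow.2 h1
  have hs1 : Summable (fun n : ℕ => if n = 1 then (1 : ℂ) else 0) :=
    (hasSum_ite_eq 1 (1 : ℂ)).summable
  have e1 : ∑' n : ℕ, (if n = 1 then (1 : ℂ) else 0) = 1 := (hasSum_ite_eq 1 (1 : ℂ)).tsum_eq
  rw [zeta_eq_tsum_one_div_nat_cpow h1]
  have e2 : ∑' n : ℕ, 1 / (n : ℂ) ^ (1 + w) - 1 =
      ∑' n : ℕ, (1 / (n : ℂ) ^ (1 + w) - if n = 1 then (1 : ℂ) else 0) := by
    rw [hs.tsum_sub hs1, e1]
  rw [e2]
  unfold LSeries
  refine tsum_congr fun n => ?_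
  rcases Nat.eq_zero_or_pos n with h0 | h0
  · subst h0
    have : (1 + w) ≠ 0 := by
      intro h
      rw [h] at h1
      simp at h1
      linarith
    simp [Complex.zero_cpow this]
  rw [LSeries.term_of_ne_zero h0.ne']
  have hn0 : (n : ℂ) ≠ 0 := by exact_mod_cast h0.ne'
  by_cases h2 : 2 ≤ n
  · have hn1 : n ≠ 1 := by omega
    rw [if_neg hn1, sub_zero]
    unfold LSeries.logMul zz
    simp only [if_pos h2]
    have hlog : Real.log n ≠ 0 := (Real.log_pos (by exact_mod_cast (by omega : 1 < n))).ne'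
    have hlog' : Complex.log n ≠ 0 := by
      rw [← Complex.ofReal_natCast, ← Complex.ofReal_log (Nat.cast_nonneg n)]
      exact_mod_cast hlog
    push_cast
    rw [Complex.cpow_add _ _ hn0, Complex.cpow_one]
    field_simp
  · have hn1 : n = 1 := by omega
    subst hn1
    unfold LSeries.logMul zz
    simp

lemma ZZ_deriv {w : ℂ} (hw : 0 < w.re) : HasDerivAt ZZ (1 - riemannZeta (1 + w)) w := by
  have h := LSeries_hasDerivAt (absc hw)
  rw [logMul_series hw, neg_sub] at h
  exact h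

lemma zeta_bound : ∃ C : ℝ, ∀ w : ℂ, w ≠ 0 → ‖w‖ ≤ 2 → ‖riemannZeta (1 + w) - 1 / w‖ ≤ C := by
  set Φ : ℂ → ℂ := Function.update (fun s => riemannZeta s - 1 / (s - 1)) 1
    (Real.eulerMascheroniConstant : ℂ) with hΦ
  have hc : Continuous Φ := by
    rw [continuous_iff_continuousAt]
    intro s
    by_cases hs : s = 1
    · subst hs
      rw [hΦ, continuousAt_update_same]
      exact tendsto_riemannZeta_sub_one_div
    · rw [hΦ, continuousAt_update_of_ne hs]
      have h1 := (differentiableAt_riemannZeta hs).continuousAt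
      have h2 : ContinuousAt (fun s : ℂ => 1 / (s - 1)) s := by
        refine ContinuousAt.div continuousAt_const (continuousAt_id.sub continuousAt_const) ?_
        exact sub_ne_zero.2 hs
      exact h1.sub h2
  obtain ⟨C, hC⟩ := (isCompact_closedBall (1 : ℂ) 2).exists_bound_of_continuousOn hc.continuousOn
  refine ⟨C, fun w hw0 hw => ?_⟩
  have h1 : (1 + w) ∈ Metric.closedBall (1 : ℂ) 2 := by
    rw [mem_closedBall_iff_norm]
    simpa using hw
  have h2 := hC _ h1
  rw [hΦ, Function.update_of_ne (by simpa using hw0)] at h2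
  simpa using h2

/-- the half disc -/
def HD : Set ℂ := {w | 0 < w.re} ∩ Metric.ball 0 2

lemma lip : ∃ C : ℝ, 0 ≤ C ∧ ∀ w ∈ HD, ∀ w' ∈ HD,
    ‖(ZZ w' + log w') - (ZZ w + log w)‖ ≤ C * ‖w' - w‖ := by
  obtain ⟨C, hC⟩ := zeta_bound
  have hC0 : 0 ≤ C := (norm_nonneg _).trans (hC 1 one_ne_zero (by simp))
  refine ⟨1 + C, by linarith, fun w hw w' hw' => ?_⟩
  have hconv : Convex ℝ HD :=
    (convex_halfSpace_re_gt 0).inter (convex_ball 0 2)
  refine hconv.norm_image_sub_le_of_norm_hasDerivWithin_le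
    (f := fun w => ZZ w + log w) (f' := fun w => (1 - riemannZeta (1 + w)) + 1 / w)
    (fun z hz => ?_) (fun z hz => ?_) hw hw'
  · have hz0 : 0 < z.re := hz.1
    have hzs : z ∈ slitPlane := Or.inl hz0
    have h1 := (ZZ_deriv hz0).add (Complex.hasDerivAt_log hzs)
    rw [one_div]
    exact h1.hasDerivWithinAt
  · have hz0 : 0 < z.re := hz.1
    have hz1 : z ≠ 0 := by
      intro h
      rw [h] at hz0
      simp at hz0
    have hz2 : ‖z‖ ≤ 2 := by
      have := hz.2
      rw [mem_ball_zero_iff] at this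
      exact this.le
    have e : (1 - riemannZeta (1 + z)) + 1 / z = 1 - (riemannZeta (1 + z) - 1 / z) := by ring
    rw [e]
    refine (norm_sub_le _ _).trans ?_
    rw [norm_one]
    have := hC z hz1 hz2
    linarith

lemma limit : ∃ L : ℂ, Tendsto (fun w => ZZ w + log w) (𝓝[HD] 0) (𝓝 L) := by
  obtain ⟨C, hC0, hC⟩ := lip
  have hlip : LipschitzOnWith ⟨C, hC0⟩ (fun w => ZZ w + log w) HD := by
    refine LipschitzOnWith.of_dist_le_mul fun x hx y hy => ?_
    rw [dist_eq_norm, dist_eq_norm]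
    exact hC y hy x hx
  have hne : (𝓝[HD] (0 : ℂ)).NeBot := by
    rw [← mem_closure_iff_nhdsWithin_neBot, Metric.mem_closure_iff]
    intro ε hε
    refine ⟨((min ε 1 / 2 : ℝ) : ℂ), ⟨?_, ?_⟩, ?_⟩
    · show 0 < (((min ε 1 / 2 : ℝ) : ℂ)).re
      rw [Complex.ofReal_re]
      positivity
    · rw [mem_ball_zero_iff, Complex.norm_real, Real.norm_of_nonneg (by positivity)]
      have := min_le_right ε 1
      linarith
    · rw [dist_eq_norm, zero_sub, norm_neg, Complex.norm_real, Real.norm_of_nonneg (by positivity)]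
      have h1 := min_le_left ε 1
      have h2 : 0 < min ε 1 := by positivity
      linarith
  have hcau : Cauchy (𝓝[HD] (0 : ℂ)) := cauchy_nhds.mono nhdsWithin_le_nhds
  have := hcau.map_of_le hlip.uniformContinuousOn (by exact inf_le_right)
  exact cauchy_map_iff_exists_tendsto.1 this

/-! ### The partial sums -/

lemma loglog_ge {x y : ℝ} (hx : 0 < x) (hy : 0 < y) : (y - x) / y ≤ Real.log y - Real.log x := by
  have h := Real.one_sub_inv_le_log_of_pos (div_pos hy hx)
  rw [Real.log_div hy.ne' hx.ne', inv_div] at h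
  have e : (y - x) / y = 1 - x / y := by field_simp
  rw [e]
  exact h

lemma loglog_le {x y : ℝ} (hx : 0 < x) (hy : 0 < y) : Real.log y - Real.log x ≤ (y - x) / x := by
  have h := loglog_ge hy hx
  have e : (x - y) / x = -((y - x) / x) := by ring
  rw [e] at h
  linarith

lemma log_step (n : ℕ) (hn : 1 ≤ n) : 1 / ((n : ℝ) + 1) ≤ Real.log ((n : ℝ) + 1) - Real.log n ∧
    Real.log ((n : ℝ) + 1) - Real.log n ≤ 1 / n := by
  have h0 : (0 : ℝ) < n := by exact_mod_cast hn
  have h1 := loglog_ge h0 (by linarith : (0 : ℝ) < n + 1)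
  have h2 := loglog_le h0 (by linarith : (0 : ℝ) < n + 1)
  rw [add_sub_cancel_left] at h1 h2
  exact ⟨h1, h2⟩

lemma zz_up (n : ℕ) (hn : 2 ≤ n) :
    zz (n + 1) ≤ Real.log (Real.log ((n : ℝ) + 1)) - Real.log (Real.log n) := by
  have h2 : (2 : ℝ) ≤ n := by exact_mod_cast hn
  have hx : 0 < Real.log n := Real.log_pos (by linarith)
  have hy : 0 < Real.log ((n : ℝ) + 1) := Real.log_pos (by linarith)
  have h1 := loglog_ge hx hy
  refine le_trans ?_ h1
  unfold zz
  rw [if_pos (by omega)]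
  push_cast
  have h3 := (log_step n (by omega)).1
  rw [one_div, mul_inv, ← one_div, ← div_eq_mul_inv]
  gcongr

lemma zz_low (n : ℕ) (hn : 2 ≤ n) :
    Real.log (Real.log ((n : ℝ) + 1)) - Real.log (Real.log n) ≤ zz n := by
  have h2 : (2 : ℝ) ≤ n := by exact_mod_cast hn
  have hx : 0 < Real.log n := Real.log_pos (by linarith)
  have hy : 0 < Real.log ((n : ℝ) + 1) := Real.log_pos (by linarith)
  have h1 := loglog_le hx hy
  refine h1.trans ?_
  unfold zz
  rw [if_pos hn]
  have h3 := (log_step n (by omega)).2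
  rw [one_div (_ * _), mul_inv, ← one_div (n : ℝ), ← div_eq_mul_inv]
  gcongr

lemma sum_step (n : ℕ) : ∑ k ∈ Finset.Icc 1 (n + 1), zz k =
    ∑ k ∈ Finset.Icc 1 n, zz k + zz (n + 1) := by
  rw [Finset.sum_Icc_succ_top (by omega)]

lemma exists_c : ∃ c : ℝ, Tendsto
    (fun n : ℕ => (∑ k ∈ Finset.Icc 1 n, zz k) - Real.log (Real.log n)) atTop (𝓝 c) := by
  set a : ℕ → ℝ := fun n => (∑ k ∈ Finset.Icc 1 n, zz k) - Real.log (Real.log n) with ha
  have hanti : Antitone fun n => a (n + 2) := by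
    refine antitone_nat_of_succ_le fun n => ?_
    have h := zz_up (n + 2) (by omega)
    show (∑ k ∈ Finset.Icc 1 (n + 1 + 2), zz k) - Real.log (Real.log ((n + 1 + 2 : ℕ) : ℝ)) ≤
      (∑ k ∈ Finset.Icc 1 (n + 2), zz k) - Real.log (Real.log ((n + 2 : ℕ) : ℝ))
    rw [show n + 1 + 2 = (n + 2) + 1 by ring, sum_step]
    push_cast at h ⊢
    linarith
  have hlow : ∀ n : ℕ, Real.log (Real.log (((n + 2 : ℕ) : ℝ) + 1)) - Real.log (Real.log 2) ≤
      ∑ k ∈ Finset.Icc 1 (n + 2), zz k := by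
    intro n
    induction n with
    | zero =>
      have h := zz_low 2 le_rfl
      have h1 : ∑ k ∈ Finset.Icc 1 (0 + 2), zz k = zz 2 := by
        rw [sum_step, sum_step]
        simp [zz]
      rw [h1]
      simpa using h
    | succ n ih =>
      have h := zz_low (n + 3) (by omega)
      rw [show n + 1 + 2 = (n + 2) + 1 by ring, sum_step]
      rw [show n + 2 + 1 = n + 3 by ring]
      have e2 : ((n + 2 : ℕ) : ℝ) + 1 = ((n + 3 : ℕ) : ℝ) := by push_cast; ring
      rw [e2] at ih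
      linarith
  have hbdd : BddBelow (Set.range fun n => a (n + 2)) := by
    refine ⟨-Real.log (Real.log 2), ?_⟩
    rintro _ ⟨n, rfl⟩
    have h := hlow n
    have hx : 0 < Real.log ((n + 2 : ℕ) : ℝ) :=
      Real.log_pos (by push_cast; have : (0 : ℝ) ≤ n := Nat.cast_nonneg n; linarith)
    have h1 : Real.log (Real.log ((n + 2 : ℕ) : ℝ)) ≤ Real.log (Real.log (((n + 2 : ℕ) : ℝ) + 1)) := by
      refine Real.log_le_log hx (Real.log_le_log ?_ (by linarith))
      positivity
    show -Real.log (Real.log 2) ≤ (∑ k ∈ Finset.Icc 1 (n + 2), zz k) -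
      Real.log (Real.log ((n + 2 : ℕ) : ℝ))
    linarith
  refine ⟨_, (tendsto_add_atTop_iff_nat 2).1 (tendsto_atTop_ciInf hanti hbdd)⟩

/-! ### Abel's theorem for Dirichlet series -/

lemma abel_fin (b v : ℕ → ℝ) (A M η : ℝ) (K : ℕ) (hv0 : v 0 = 1) (hv : Antitone v)
    (hM : ∀ n, |∑ i ∈ range n, b i - A| ≤ M) (hη : ∀ n, K ≤ n → |∑ i ∈ range n, b i - A| ≤ η)
    (N : ℕ) :
    |∑ n ∈ range N, b n * v n - A - (∑ i ∈ range N, b i - A) * v N| ≤
      M * (1 - v (min N K)) + η * (v (min N K) - v N) := by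
  induction N with
  | zero => simp [hv0]
  | succ N ih =>
    have e : ∑ n ∈ range (N + 1), b n * v n - A - (∑ i ∈ range (N + 1), b i - A) * v (N + 1) =
        (∑ n ∈ range N, b n * v n - A - (∑ i ∈ range N, b i - A) * v N) +
          (∑ i ∈ range (N + 1), b i - A) * (v N - v (N + 1)) := by
      rw [Finset.sum_range_succ, Finset.sum_range_succ]
      ring
    rw [e]
    have hd : 0 ≤ v N - v (N + 1) := sub_nonneg.2 (hv (Nat.le_succ N))
    refine (abs_add_le _ _).trans ?_
    rw [abs_mul, abs_of_nonneg hd]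
    rcases lt_or_ge N K with h | h
    · rw [min_eq_left h.le] at ih
      rw [min_eq_left (by omega : N + 1 ≤ K)]
      have := mul_le_mul_of_nonneg_right (hM (N + 1)) hd
      linarith
    · rw [min_eq_right h] at ih
      rw [min_eq_right (by omega : K ≤ N + 1)]
      have := mul_le_mul_of_nonneg_right (hη (N + 1) (by omega)) hd
      linarith

lemma abel (a : ℕ → ℝ) (A : ℝ)
    (hA : Tendsto (fun n => ∑ k ∈ Finset.Icc 1 n, a k) atTop (𝓝 A))
    (F : ℝ → ℝ) (hF : ∀ ε, 0 < ε → HasSum (fun n : ℕ => a (n + 1) * ((n : ℝ) + 1) ^ (-ε)) (F ε)) :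
    Tendsto F (𝓝[>] 0) (𝓝 A) := by
  set b : ℕ → ℝ := fun n => a (n + 1) with hb
  have hS : ∀ n, ∑ i ∈ range n, b i = ∑ k ∈ Finset.Icc 1 n, a k := by
    intro n
    rw [Finset.range_eq_Ico, hb]
    rw [Finset.sum_Ico_add' (fun k => a k) 0 n 1]
    rfl
  have hA' : Tendsto (fun n => ∑ i ∈ range n, b i) atTop (𝓝 A) := by
    simp_rw [hS]; exact hA
  obtain ⟨M, hM⟩ : ∃ M, ∀ n, |∑ i ∈ range n, b i - A| ≤ M := by
    have h1 : Tendsto (fun n => |∑ i ∈ range n, b i - A|) atTop (𝓝 0) := by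
      have := (hA'.sub_const A).abs
      simpa using this
    obtain ⟨M, hM⟩ := h1.bddAbove_range
    exact ⟨M, fun n => hM ⟨n, rfl⟩⟩
  have hM0 : 0 ≤ M := (abs_nonneg _).trans (hM 0)
  rw [Metric.tendsto_nhds]
  intro δ hδ
  obtain ⟨K, hK⟩ : ∃ K, ∀ n, K ≤ n → |∑ i ∈ range n, b i - A| ≤ δ / 4 := by
    have := Metric.tendsto_atTop.1 hA' (δ / 4) (by positivity)
    obtain ⟨K, hK⟩ := this
    exact ⟨K, fun n hn => (by simpa [Real.dist_eq] using hK n hn : |∑ i ∈ range n, b i - A| < δ / 4).le⟩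
  have hlim : Tendsto (fun ε : ℝ => M * (1 - ((K : ℝ) + 1) ^ (-ε))) (𝓝[>] 0) (𝓝 0) := by
    have h1 : ContinuousAt (fun ε : ℝ => M * (1 - ((K : ℝ) + 1) ^ (-ε))) 0 := by
      have hK1 : (K : ℝ) + 1 ≠ 0 := by positivity
      have h2 : ContinuousAt (fun ε : ℝ => ((K : ℝ) + 1) ^ (-ε)) 0 :=
        (Real.continuousAt_const_rpow hK1).comp continuousAt_neg
      exact continuousAt_const.mul (continuousAt_const.sub h2)
    have h3 := h1.tendsto
    simp only [neg_zero, Real.rpow_zero, sub_self, mul_zero] at h3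
    exact h3.mono_left nhdsWithin_le_nhds
  have hev : ∀ᶠ ε in 𝓝[>] (0 : ℝ), M * (1 - ((K : ℝ) + 1) ^ (-ε)) < δ / 4 :=
    hlim.eventually (gt_mem_nhds (by positivity))
  filter_upwards [hev, self_mem_nhdsWithin] with ε h1 h2
  have hε : 0 < ε := h2
  set v : ℕ → ℝ := fun n => ((n : ℝ) + 1) ^ (-ε) with hv
  have hv0 : v 0 = 1 := by simp [hv]
  have hvpos : ∀ n, 0 ≤ v n := fun n => by rw [hv]; positivity
  have hvanti : Antitone v := by
    intro m n hmn
    show ((n : ℝ) + 1) ^ (-ε) ≤ ((m : ℝ) + 1) ^ (-ε)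
    refine Real.rpow_le_rpow_of_nonpos (by positivity) ?_ (by linarith)
    have : (m : ℝ) ≤ n := by exact_mod_cast hmn
    linarith
  have hv1 : ∀ n, v n ≤ 1 := fun n => by
    rw [← hv0]; exact hvanti (Nat.zero_le n)
  have hfin : ∀ N, K ≤ N → |∑ n ∈ range N, b n * v n - A| ≤ 3 * (δ / 4) := by
    intro N hN
    have e1 := abel_fin b v A M (δ / 4) K hv0 hvanti hM hK N
    rw [min_eq_right hN] at e1
    have e2 : |(∑ i ∈ range N, b i - A) * v N| ≤ δ / 4 := by
      rw [abs_mul, abs_of_nonneg (hvpos N)]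
      calc |∑ i ∈ range N, b i - A| * v N ≤ (δ / 4) * 1 := by
            gcongr
            · exact hK N hN
            · exact hv1 N
        _ = δ / 4 := mul_one _
    have e3 : (δ / 4) * (v K - v N) ≤ δ / 4 := by
      have h5 := hv1 K
      have h6 := hvpos N
      nlinarith
    have e4 : M * (1 - v K) < δ / 4 := h1
    have e5 := abs_sub_abs_le_abs_sub (∑ n ∈ range N, b n * v n - A)
      ((∑ i ∈ range N, b i - A) * v N)
    linarith
  have hsum : Tendsto (fun N => |∑ n ∈ range N, b n * v n - A|) atTop (𝓝 |F ε - A|) :=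
    ((hF ε hε).tendsto_sum_nat.sub_const A).abs
  have hle : |F ε - A| ≤ 3 * (δ / 4) :=
    le_of_tendsto hsum (eventually_atTop.2 ⟨K, hfin⟩)
  rw [Real.dist_eq]
  linarith

/-! ### The comparison with the powers of `2` -/

/-- `1/j` at `2^j` -/
noncomputable def pw (n : ℕ) : ℝ :=
  if 2 ≤ n ∧ 2 ^ (Nat.log 2 n) = n then 1 / (Nat.log 2 n : ℝ) else 0

lemma pw_pow (j : ℕ) : pw (2 ^ (j + 1)) = 1 / ((j : ℝ) + 1) := by
  unfold pw
  rw [Nat.log_pow (by norm_num)]
  have h : 2 ≤ 2 ^ (j + 1) := by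
    calc 2 = 2 ^ 1 := by norm_num
      _ ≤ 2 ^ (j + 1) := Nat.pow_le_pow_right (by norm_num) (by omega)
  rw [if_pos ⟨h, rfl⟩]
  push_cast
  rfl

lemma pw_sum (N : ℕ) : ∑ n ∈ Finset.Icc 1 N, pw n = (harmonic (Nat.log 2 N) : ℝ) := by
  have hinj : Set.InjOn (fun j : ℕ => 2 ^ (j + 1)) (range (Nat.log 2 N) : Set ℕ) := by
    intro x _ y _ h
    have := Nat.pow_right_injective (le_refl 2) h
    omega
  have h1 : ∑ n ∈ (range (Nat.log 2 N)).image (fun j => 2 ^ (j + 1)), pw n =
      (harmonic (Nat.log 2 N) : ℝ) := by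
    rw [Finset.sum_image hinj, harmonic]
    push_cast
    refine Finset.sum_congr rfl fun j _ => ?_
    rw [pw_pow, one_div]
  rw [← h1]
  symm
  refine Finset.sum_subset ?_ ?_
  · intro n hn
    rw [mem_image] at hn
    obtain ⟨j, hj, rfl⟩ := hn
    rw [mem_range] at hj
    rw [Finset.mem_Icc]
    refine ⟨Nat.one_le_two_pow, ?_⟩
    refine Nat.pow_le_of_le_log ?_ (by omega)
    rintro rfl
    simp at hj
  · intro n hn hn'
    rw [Finset.mem_Icc] at hn
    unfold pw
    rw [if_neg]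
    rintro ⟨h2, h3⟩
    apply hn'
    rw [mem_image]
    have hl : 1 ≤ Nat.log 2 n := Nat.log_pos (by norm_num) h2
    refine ⟨Nat.log 2 n - 1, ?_, ?_⟩
    · rw [mem_range]
      have := Nat.log_mono_right (b := 2) hn.2
      omega
    · rw [Nat.sub_add_cancel hl]
      exact h3

lemma log_ratio : Tendsto (fun N : ℕ => Real.log (Nat.log 2 N : ℝ) - Real.log (Real.log N)) atTop
    (𝓝 (-Real.log (Real.log 2))) := by
  have hl2 : 0 < Real.log 2 := Real.log_pos (by norm_num)
  have hlogt : Tendsto (fun N : ℕ => Real.log (N : ℝ)) atTop atTop :=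
    Real.tendsto_log_atTop.comp tendsto_natCast_atTop_atTop
  -- `log₂ N / log N → 1 / log 2`
  have h1 : Tendsto (fun N : ℕ => (Nat.log 2 N : ℝ) / Real.log N) atTop (𝓝 (1 / Real.log 2)) := by
    have hlow : Tendsto (fun N : ℕ => 1 / Real.log 2 - 1 / Real.log N) atTop
        (𝓝 (1 / Real.log 2)) := by
      have := hlogt.inv_tendsto_atTop.const_sub (1 / Real.log 2)
      simpa [one_div] using this
    refine tendsto_of_tendsto_of_tendsto_of_le_of_le' hlow tendsto_const_nhds ?_ ?_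
    · filter_upwards [eventually_ge_atTop 2] with N hN
      have hN' : (2 : ℝ) ≤ N := by exact_mod_cast hN
      have hlN : 0 < Real.log N := Real.log_pos (by linarith)
      have h3 : (N : ℝ) < 2 ^ (Nat.log 2 N + 1) := by
        exact_mod_cast Nat.lt_pow_succ_log_self (by norm_num) N
      have h4 := Real.log_lt_log (by linarith) h3
      rw [Real.log_pow] at h4
      push_cast at h4
      rw [div_sub_div _ _ hl2.ne' hlN.ne', div_le_div_iff₀ (by positivity) hlN]
      nlinarith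
    · filter_upwards [eventually_ge_atTop 2] with N hN
      have hN' : (2 : ℝ) ≤ N := by exact_mod_cast hN
      have hlN : 0 < Real.log N := Real.log_pos (by linarith)
      have h3 : (2 : ℝ) ^ (Nat.log 2 N) ≤ N := by
        exact_mod_cast Nat.pow_log_le_self 2 (by omega)
      have h4 := Real.log_le_log (by positivity) h3
      rw [Real.log_pow] at h4
      rw [div_le_div_iff₀ hlN hl2]
      linarith
  have h2 : Tendsto (fun N : ℕ => Real.log ((Nat.log 2 N : ℝ) / Real.log N)) atTop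
      (𝓝 (Real.log (1 / Real.log 2))) :=
    h1.log (by positivity)
  have e : Real.log (1 / Real.log 2) = -Real.log (Real.log 2) := by
    rw [one_div, Real.log_inv]
  rw [e] at h2
  refine h2.congr' ?_
  filter_upwards [eventually_ge_atTop 2] with N hN
  have hN' : (2 : ℝ) ≤ N := by exact_mod_cast hN
  have hlN : 0 < Real.log N := Real.log_pos (by linarith)
  have hl : 1 ≤ Nat.log 2 N := Nat.log_pos (by norm_num) hN
  rw [Real.log_div (by exact_mod_cast (by omega : Nat.log 2 N ≠ 0)) hlN.ne']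

lemma pw_lim : Tendsto (fun N : ℕ => ∑ n ∈ Finset.Icc 1 N, pw n - Real.log (Real.log N)) atTop
    (𝓝 (Real.eulerMascheroniConstant - Real.log (Real.log 2))) := by
  have hlogt : Tendsto (fun N : ℕ => Nat.log 2 N) atTop atTop :=
    tendsto_atTop_mono' atTop (Eventually.of_forall fun n => le_rfl) (by
      rw [tendsto_atTop]
      intro b
      filter_upwards [eventually_ge_atTop (2 ^ b)] with N hN
      exact Nat.le_log_of_pow_le (by norm_num) hN)
  have h1 := (Real.tendsto_harmonic_sub_log.comp hlogt).add log_ratio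
  rw [← sub_eq_add_neg] at h1
  refine h1.congr fun N => ?_
  simp only [Function.comp_apply]
  rw [pw_sum]
  ring

lemma pw_series (ε : ℝ) (hε : 0 < ε) :
    HasSum (fun n : ℕ => pw (n + 1) * ((n : ℝ) + 1) ^ (-ε)) (-Real.log (1 - (2 : ℝ) ^ (-ε))) := by
  have hx : |(2 : ℝ) ^ (-ε)| < 1 := by
    rw [abs_of_pos (by positivity)]
    exact Real.rpow_lt_one_of_one_lt_of_neg (by norm_num) (by linarith)
  have h := Real.hasSum_pow_div_log_of_abs_lt_one hx
  have hinj : Function.Injective (fun j : ℕ => 2 ^ (j + 1) - 1) := by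
    intro x y hxy
    have h1 : 1 ≤ 2 ^ (x + 1) := Nat.one_le_two_pow
    have h2 : 1 ≤ 2 ^ (y + 1) := Nat.one_le_two_pow
    have h3 : 2 ^ (x + 1) = 2 ^ (y + 1) := by
      have : 2 ^ (x + 1) - 1 = 2 ^ (y + 1) - 1 := hxy
      omega
    have := Nat.pow_right_injective (le_refl 2) h3
    omega
  refine (hinj.hasSum_iff ?_).1 ?_
  · intro n hn
    have : pw (n + 1) = 0 := by
      unfold pw
      rw [if_neg]
      rintro ⟨h2, h3⟩
      apply hn
      have hl : 1 ≤ Nat.log 2 (n + 1) := Nat.log_pos (by norm_num) h2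
      refine ⟨Nat.log 2 (n + 1) - 1, ?_⟩
      show 2 ^ (Nat.log 2 (n + 1) - 1 + 1) - 1 = n
      rw [Nat.sub_add_cancel hl, h3]
      rfl
    rw [this, zero_mul]
  · convert h using 1
    funext j
    have h1 : 1 ≤ 2 ^ (j + 1) := Nat.one_le_two_pow
    have e1 : 2 ^ (j + 1) - 1 + 1 = 2 ^ (j + 1) := Nat.sub_add_cancel h1
    have e2 : (((2 ^ (j + 1) - 1 : ℕ) : ℝ) + 1) = (2 : ℝ) ^ (j + 1) := by
      have : (((2 ^ (j + 1) - 1 + 1 : ℕ)) : ℝ) = ((2 ^ (j + 1) : ℕ) : ℝ) := by rw [e1]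
      push_cast at this ⊢
      exact_mod_cast this
    simp only [Function.comp_apply]
    rw [e1, pw_pow, e2, ← Real.rpow_natCast 2 (j + 1), ← Real.rpow_mul (by norm_num),
      mul_comm ((j + 1 : ℕ) : ℝ) (-ε), Real.rpow_mul (by norm_num), Real.rpow_natCast]
    ring

lemma log_one_sub : Tendsto (fun ε : ℝ => Real.log (1 - (2 : ℝ) ^ (-ε)) - Real.log ε) (𝓝[>] 0)
    (𝓝 (Real.log (Real.log 2))) := by
  have hl2 : 0 < Real.log 2 := Real.log_pos (by norm_num)
  have hd : HasDerivAt (fun ε : ℝ => 1 - (2 : ℝ) ^ (-ε)) (Real.log 2) 0 := by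
    have h1 : HasDerivAt (fun ε : ℝ => (2 : ℝ) ^ (-ε)) (Real.log 2 * (-1) * (2 : ℝ) ^ (-(0 : ℝ))) 0 :=
      HasDerivAt.const_rpow (by norm_num) (hasDerivAt_neg 0)
    have h2 := h1.const_sub 1
    simpa using h2
  have h1 := hd.hasDerivWithinAt (s := Set.Ioi 0)
  rw [hasDerivWithinAt_iff_tendsto_slope' (by simp)] at h1
  have h2 := h1.log hl2.ne'
  refine h2.congr' ?_
  filter_upwards [self_mem_nhdsWithin] with ε hε
  have hε' : 0 < ε := hε
  have h3 : (2 : ℝ) ^ (-ε) < 1 := Real.rpow_lt_one_of_one_lt_of_neg (by norm_num) (by linarith)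
  rw [slope_def_field]
  simp only [neg_zero, Real.rpow_zero, sub_self, sub_zero]
  rw [Real.log_div (by linarith) hε'.ne']

/-! ### The series on the real line -/

lemma zz_series (ε : ℝ) (hε : 0 < ε) :
    HasSum (fun n : ℕ => zz (n + 1) * ((n : ℝ) + 1) ^ (-ε)) (ZZ ε).re := by
  have hs : LSeriesSummable (fun n => (zz n : ℂ)) (ε : ℂ) :=
    LSeriesSummable_of_abscissaOfAbsConv_lt_re (absc (by simpa using hε))
  have h1 := (Complex.hasSum_re hs.LSeriesHasSum)
  have h2 : HasSum (fun n : ℕ => (LSeries.term (fun n => (zz n : ℂ)) (ε : ℂ) n).re) (ZZ ε).re := h1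
  have h3 := (hasSum_nat_add_iff' 1).2 h2
  rw [Finset.sum_range_one, LSeries.term_zero, Complex.zero_re, sub_zero] at h3
  have e0 : (fun n : ℕ => zz (n + 1) * ((n : ℝ) + 1) ^ (-ε)) =
      fun n : ℕ => (LSeries.term (fun n => (zz n : ℂ)) (ε : ℂ) (n + 1)).re := by
    funext n
    rw [LSeries.term_of_ne_zero (Nat.succ_ne_zero n)]
    have e : ((n + 1 : ℕ) : ℂ) ^ (ε : ℂ) = (((n : ℝ) + 1) ^ ε : ℝ) := by
      rw [Complex.ofReal_cpow (by positivity)]
      push_cast
      rfl
    rw [e, ← Complex.ofReal_div, Complex.ofReal_re, Real.rpow_neg (by positivity), div_eq_mul_inv]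
  rw [e0]
  exact h3

lemma real_limit (c : ℝ) (hc : Tendsto
    (fun n : ℕ => (∑ k ∈ Finset.Icc 1 n, zz k) - Real.log (Real.log n)) atTop (𝓝 c)) :
    Tendsto (fun ε : ℝ => (ZZ ε).re + Real.log ε) (𝓝[>] 0)
      (𝓝 (c - Real.eulerMascheroniConstant)) := by
  have h1 : Tendsto (fun n : ℕ => ∑ k ∈ Finset.Icc 1 n, (zz k - pw k)) atTop
      (𝓝 (c - (Real.eulerMascheroniConstant - Real.log (Real.log 2)))) := by
    refine (hc.sub pw_lim).congr fun n => ?_
    rw [Finset.sum_sub_distrib]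
    ring
  have h2 := abel (fun k => zz k - pw k) _ h1
    (fun ε => (ZZ ε).re - (-Real.log (1 - (2 : ℝ) ^ (-ε)))) (fun ε hε => by
      have h := (zz_series ε hε).sub (pw_series ε hε)
      simpa only [← sub_mul] using h)
  have h3 := h2.sub log_one_sub
  refine (h3.congr fun ε => ?_).trans (le_of_eq ?_)
  · ring
  · congr 1
    ring

theorem Z0_ok : Pool.Agent.H814R3.BSD.TaskZ0 := by
  obtain ⟨c, hc⟩ := exists_c
  obtain ⟨L, hL⟩ := limit
  obtain ⟨C, hC0, hC⟩ := lip
  -- the real part of the limit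
  have hLre : L.re = c - Real.eulerMascheroniConstant := by
    have h1 : Tendsto (fun ε : ℝ => (ε : ℂ)) (𝓝[>] 0) (𝓝[HD] 0) := by
      refine tendsto_nhdsWithin_iff.2 ⟨?_, ?_⟩
      · have : ContinuousAt (fun ε : ℝ => (ε : ℂ)) 0 := Complex.continuous_ofReal.continuousAt
        have h := this.tendsto
        rw [Complex.ofReal_zero] at h
        exact h.mono_left nhdsWithin_le_nhds
      · filter_upwards [Ioo_mem_nhdsGT (by norm_num : (0 : ℝ) < 2)] with ε hε
        refine ⟨by simpa using hε.1, ?_⟩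
        rw [mem_ball_zero_iff, Complex.norm_real, Real.norm_of_nonneg hε.1.le]
        exact hε.2
    have h2 := (Complex.continuous_re.tendsto L).comp (hL.comp h1)
    have h3 := real_limit c hc
    refine tendsto_nhds_unique (h2.congr' ?_) h3
    filter_upwards [self_mem_nhdsWithin] with ε hε
    have hε' : 0 < ε := hε
    simp only [Function.comp_apply, Complex.add_re, Complex.log_re, Complex.norm_real,
      Real.norm_of_nonneg hε'.le]
  refine ⟨c, hc, fun τ => ?_, ?_⟩
  · rw [← hLre]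
    have h1 : Tendsto (fun U : ℝ => ((1 + τ * I) / U : ℂ)) atTop (𝓝[HD] 0) := by
      refine tendsto_nhdsWithin_iff.2 ⟨?_, ?_⟩
      · have h2 : Tendsto (fun U : ℝ => ((U⁻¹ : ℝ) : ℂ)) atTop (𝓝 ((0 : ℝ) : ℂ)) :=
          (Complex.continuous_ofReal.tendsto 0).comp tendsto_inv_atTop_zero
        have h3 := h2.const_mul (1 + τ * I)
        rw [Complex.ofReal_zero, mul_zero] at h3
        refine h3.congr fun U => ?_
        rw [Complex.ofReal_inv, div_eq_mul_inv]
      · filter_upwards [eventually_gt_atTop 0, eventually_gt_atTop ‖(1 + τ * I : ℂ)‖] with U h0 hU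
        refine ⟨?_, ?_⟩
        · show 0 < ((1 + τ * I) / (U : ℂ)).re
          rw [Complex.div_ofReal_re]
          simp
          exact h0
        · rw [mem_ball_zero_iff, norm_div, Complex.norm_real, Real.norm_of_nonneg h0.le,
            div_lt_iff₀ h0]
          linarith
    have h2 := (Complex.continuous_re.tendsto L).comp (hL.comp h1)
    refine h2.congr fun U => ?_
    simp only [Function.comp_apply, Complex.add_re, Complex.log_re]
  · refine ⟨‖ZZ 1 + log 1‖ + C * 2, fun w hw hw1 => ?_⟩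
    have hwHD : w ∈ HD := ⟨hw, by rw [mem_ball_zero_iff]; linarith⟩
    have h1HD : (1 : ℂ) ∈ HD := ⟨by simp, by rw [mem_ball_zero_iff]; simp⟩
    have h1 := hC 1 h1HD w hwHD
    have h2 : (ZZ w).re + Real.log ‖w‖ = (ZZ w + log w).re := by
      rw [Complex.add_re, Complex.log_re]
    rw [h2]
    refine (Complex.abs_re_le_norm _).trans ?_
    have h3 : ‖w - 1‖ ≤ 2 := by
      refine (norm_sub_le _ _).trans ?_
      rw [norm_one]
      linarith
    have h4 : ‖ZZ w + log w‖ ≤ ‖ZZ 1 + log 1‖ + ‖(ZZ w + log w) - (ZZ 1 + log 1)‖ := by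
      have := norm_add_le (ZZ 1 + log 1) ((ZZ w + log w) - (ZZ 1 + log 1))
      simpa using this
    have h5 : C * ‖w - 1‖ ≤ C * 2 := mul_le_mul_of_nonneg_left h3 hC0
    linarith

end TZ0

end Pool.Agent.H814R3.BSD
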