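import Pool.Agent.H814R3.BSD.Stmts

/-! Bound for the sum of the local error terms. -/

set_option autoImplicit false

open Complex Filter Topology Finset

namespace Pool.Agent.H814R3.BSD.TDD

open Pool.Agent.H438R3.BSD Pool.Agent.H341R2

lemma norm_exp_neg_sub_one_le {z : ℂ} (hz : 0 ≤ z.re) :
    ‖Complex.exp (-z) - 1‖ ≤ 4 * (1 - Real.exp (-‖z‖)) := by
  have h2 : ‖Complex.exp (-z) - 1‖ ≤ 2 := by
    refine (norm_sub_le _ _).trans ?_
    rw [Complex.norm_exp, norm_one, neg_re]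
    have : Real.exp (-z.re) ≤ 1 := Real.exp_le_one_iff.2 (by linarith)
    linarith
  have h1 : ‖Complex.exp (-z) - 1‖ ≤ ‖z‖ := by
    -- mean value inequality on the segment
    have hd : ∀ t ∈ Set.Icc (0 : ℝ) 1, HasDerivWithinAt (fun t : ℝ => Complex.exp (-(t * z)))
        (-z * Complex.exp (-(t * z))) (Set.Icc 0 1) t := by
      intro t _
      have h1 : HasDerivAt (fun t : ℝ => -((t : ℂ) * z)) (-(1 * z)) t :=
        ((Complex.ofRealCLM.hasDerivAt (x := t)).mul_const z).neg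
      have h2 := h1.cexp
      have h3 : Complex.exp (-((t : ℂ) * z)) * -(1 * z) = -z * Complex.exp (-(t * z)) := by ring
      rw [h3] at h2
      exact h2.hasDerivWithinAt
    have hb : ∀ t ∈ Set.Ico (0 : ℝ) 1, ‖-z * Complex.exp (-(t * z))‖ ≤ ‖z‖ := by
      intro t ht
      rw [norm_mul, norm_neg, Complex.norm_exp]
      have : Real.exp ((-((t : ℂ) * z)).re) ≤ 1 := by
        apply Real.exp_le_one_iff.2
        rw [neg_re, re_ofReal_mul]
        have := mul_nonneg ht.1 hz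
        linarith
      exact mul_le_of_le_one_right (norm_nonneg _) this
    have := norm_image_sub_le_of_norm_deriv_le_segment' hd hb 1 (by simp)
    simpa using this
  have h3 : Real.exp (-‖z‖) ≤ 1 / (1 + ‖z‖) := by
    rw [Real.exp_neg, ← one_div]
    apply one_div_le_one_div_of_le (by positivity)
    have := Real.add_one_le_exp ‖z‖
    linarith
  have h4 : ‖z‖ / (1 + ‖z‖) ≤ 1 - Real.exp (-‖z‖) := by
    have : ‖z‖ / (1 + ‖z‖) = 1 - 1 / (1 + ‖z‖) := by field_simp; ring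
    linarith
  have hn := norm_nonneg z
  rcases le_total ‖z‖ 1 with h | h
  · have h5 : ‖z‖ / 2 ≤ ‖z‖ / (1 + ‖z‖) := by
      apply div_le_div_of_nonneg_left hn (by positivity) (by linarith)
    linarith
  · have h5 : 1 / 2 ≤ ‖z‖ / (1 + ‖z‖) := by
      rw [div_le_div_iff₀ (by norm_num) (by positivity)]
      linarith
    linarith

lemma norm_cpow_sub_one_le {p : ℕ} (hp : p.Prime) {w : ℂ} (hw : 0 ≤ w.re) :
    ‖(p : ℂ) ^ (-w) - 1‖ ≤ 4 * (1 - (p : ℝ) ^ (-‖w‖)) := by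
  have hp0 : (0 : ℝ) < p := by exact_mod_cast hp.pos
  have hp1 : (1 : ℝ) ≤ p := by exact_mod_cast hp.one_lt.le
  have hpc : (p : ℂ) ≠ 0 := by exact_mod_cast hp.ne_zero
  have hl : 0 ≤ Real.log p := Real.log_nonneg hp1
  have e1 : (p : ℂ) ^ (-w) = Complex.exp (-((Real.log p : ℝ) * w)) := by
    rw [Complex.cpow_def_of_ne_zero hpc, Complex.natCast_log]
    congr 1
    ring
  have e2 : (p : ℝ) ^ (-‖w‖) = Real.exp (-‖((Real.log p : ℝ) : ℂ) * w‖) := by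
    rw [Real.rpow_def_of_pos hp0, norm_mul, Complex.norm_real, Real.norm_eq_abs, abs_of_nonneg hl]
    congr 1
    ring
  rw [e1, e2]
  apply norm_exp_neg_sub_one_le
  rw [re_ofReal_mul]
  exact mul_nonneg hl hw

section

variable {p : ℕ} (hp : p.Prime) {β : ℂ} (hβ : ‖β‖ = (p : ℝ) ^ (1 / 2 : ℝ))

include hp hβ

lemma del_le_w (w : ℂ) (hw : 0 ≤ w.re) : ‖del p β (1 + w)‖ ≤
    1 / 2 * (p : ℝ) ^ (-(1 + w.re)) * ‖(p : ℂ) ^ (-w) - 1‖ + 4 * (p : ℝ) ^ (-(3 / 2) : ℝ) := by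
  have hp0 : (0 : ℝ) < p := by exact_mod_cast hp.pos
  have hp2 : (2 : ℝ) ≤ p := by exact_mod_cast hp.two_le
  have hpc : (p : ℂ) ≠ 0 := by exact_mod_cast hp.ne_zero
  have hsre : (1 + w).re = 1 + w.re := by simp
  have h1 := norm_a hp hβ (1 + w)
  have h2 := norm_b hp hβ
  have h3 : ‖(p : ℂ) ^ (1 - (1 + w))‖ = (p : ℝ) ^ (-w.re) := by
    rw [Complex.norm_natCast_cpow_of_pos hp.pos]; congr 1; simp
  rw [hsre] at h1
  have h4 := rr_le3 (z := β * (p : ℂ) ^ (-(1 + w))) (by rw [h1]; exact x_rpow_le hp2 (by linarith))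
  have h5 := rr_le3 (z := β / (p : ℂ)) (by rw [h2]; exact x_rpow_le hp2 (by linarith))
  rw [h1] at h4
  rw [h2] at h5
  set A := rr (β * (p : ℂ) ^ (-(1 + w))) - (β * (p : ℂ) ^ (-(1 + w))) ^ 2 / 2 with hA
  set B := rr (β / (p : ℂ)) - (β / (p : ℂ)) ^ 2 / 2 with hB
  set M : ℂ := β ^ 2 / 2 * ((p : ℂ) ^ (-(2 + w)) * ((p : ℂ) ^ (-w) - 1)) with hM
  have e1 : del p β (1 + w) = A - (p : ℂ) ^ (1 - (1 + w)) * B + M := by
    unfold del
    rw [hA, hB, hM]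
    have c1 : (p : ℂ) ^ (-(1 + w)) = (p : ℂ) ^ (-w) / p := by
      rw [show -(1 + w) = -w - 1 by ring, Complex.cpow_sub _ _ hpc, Complex.cpow_one]
    have c2 : (p : ℂ) ^ (-(2 + w)) = (p : ℂ) ^ (-w) / p ^ 2 := by
      rw [show -(2 + w) = -w - 2 by ring, Complex.cpow_sub _ _ hpc]
      norm_num
    have c3 : (p : ℂ) ^ (1 - (1 + w)) = (p : ℂ) ^ (-w) := by
      congr 1; ring
    rw [c1, c2, c3]
    field_simp
    ring
  have h6 : ((p : ℝ) ^ (1 / 2 - (1 + w.re))) ^ 3 ≤ (p : ℝ) ^ (-(3 / 2) : ℝ) := by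
    rw [← Real.rpow_natCast, ← Real.rpow_mul hp0.le]
    apply Real.rpow_le_rpow_of_exponent_le (by linarith)
    push_cast
    linarith
  have h7 : (p : ℝ) ^ (-w.re) * ((p : ℝ) ^ (-(1 / 2) : ℝ)) ^ 3 ≤ (p : ℝ) ^ (-(3 / 2) : ℝ) := by
    rw [← Real.rpow_natCast, ← Real.rpow_mul hp0.le, ← Real.rpow_add hp0]
    apply Real.rpow_le_rpow_of_exponent_le (by linarith)
    push_cast
    linarith
  have hMn : ‖M‖ = 1 / 2 * (p : ℝ) ^ (-(1 + w.re)) * ‖(p : ℂ) ^ (-w) - 1‖ := by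
    rw [hM, norm_mul, norm_mul, norm_div, norm_pow, hβ, Complex.norm_natCast_cpow_of_pos hp.pos]
    have e7 : (((p : ℝ) ^ (1 / 2 : ℝ))) ^ 2 = p := by
      rw [← Real.rpow_natCast, ← Real.rpow_mul hp0.le]; norm_num
    have e8 : (p : ℝ) * (p : ℝ) ^ ((-(2 + w)).re) = (p : ℝ) ^ (-(1 + w.re)) := by
      nth_rewrite 1 [← Real.rpow_one (p : ℝ)]
      rw [← Real.rpow_add hp0]; congr 1; simp; ring
    rw [e7, ← e8]
    simp only [norm_ofNat]
    ring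
  calc ‖del p β (1 + w)‖ ≤ ‖A‖ + ‖(p : ℂ) ^ (1 - (1 + w)) * B‖ + ‖M‖ := by
        rw [e1]
        exact (norm_add_le _ _).trans (add_le_add_left (norm_sub_le _ _) _)
    _ ≤ 2 * ((p : ℝ) ^ (1 / 2 - (1 + w.re))) ^ 3 +
        (p : ℝ) ^ (-w.re) * (2 * ((p : ℝ) ^ (-(1 / 2) : ℝ)) ^ 3) + ‖M‖ := by
        rw [norm_mul, h3]
        gcongr
    _ = 2 * ((p : ℝ) ^ (1 / 2 - (1 + w.re))) ^ 3 +
        2 * ((p : ℝ) ^ (-w.re) * ((p : ℝ) ^ (-(1 / 2) : ℝ)) ^ 3) + ‖M‖ := by ring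
    _ ≤ 2 * (p : ℝ) ^ (-(3 / 2) : ℝ) + 2 * (p : ℝ) ^ (-(3 / 2) : ℝ) + ‖M‖ := by gcongr
    _ = _ := by rw [hMn]; ring

lemma del_le_w' (w : ℂ) (hw : 0 ≤ w.re) : ‖del p β (1 + w)‖ ≤
    2 * ((p : ℝ) ^ (-(1 + w.re)) - (p : ℝ) ^ (-(1 + (w.re + ‖w‖)))) +
      4 * (p : ℝ) ^ (-(3 / 2) : ℝ) := by
  have hp0 : (0 : ℝ) < p := by exact_mod_cast hp.pos
  refine (del_le_w hp hβ w hw).trans ?_
  have h1 := norm_cpow_sub_one_le hp hw
  have h2 : (p : ℝ) ^ (-(1 + (w.re + ‖w‖))) = (p : ℝ) ^ (-(1 + w.re)) * (p : ℝ) ^ (-‖w‖) := by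
    rw [← Real.rpow_add hp0]; congr 1; ring
  rw [h2]
  have h3 : 0 < (p : ℝ) ^ (-(1 + w.re)) := Real.rpow_pos_of_pos hp0 _
  have h4 : (p : ℝ) ^ (-(1 + w.re)) * ‖(p : ℂ) ^ (-w) - 1‖ ≤
      (p : ℝ) ^ (-(1 + w.re)) * (4 * (1 - (p : ℝ) ^ (-‖w‖))) :=
    mul_le_mul_of_nonneg_left h1 h3.le
  nlinarith

end

lemma lam_nonneg (ε : ℝ) : 0 ≤ lam ε := tsum_nonneg fun p => by positivity

lemma lam_summable {ε : ℝ} (hε : 0 < ε) : Summable fun p : Nat.Primes => (p : ℝ) ^ (-(1 + ε)) :=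
  summable_prime_rpow (by linarith)

lemma lam_anti {ε δ : ℝ} (hε : 0 < ε) (h : ε ≤ δ) : lam δ ≤ lam ε := by
  unfold lam
  refine Summable.tsum_le_tsum ?_ (lam_summable (by linarith)) (lam_summable hε)
  intro p
  have h1 : (1 : ℝ) ≤ p := by exact_mod_cast p.2.one_lt.le
  exact Real.rpow_le_rpow_of_exponent_le h1 (by linarith)

lemma lam_diff : ∃ C : ℝ, 0 ≤ C ∧ ∀ σ r : ℝ, 0 < σ → 0 ≤ r →
    lam σ - lam (σ + r) ≤ Real.log (1 + r / σ) + C := by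
  obtain ⟨C, hC⟩ := lam_bounded
  obtain ⟨ε0, hε0, h0⟩ := (mem_nhdsGT_iff_exists_Ioo_subset).1 hC
  have hε0' : 0 < ε0 := hε0
  have h0' : ∀ ε, 0 < ε → ε < ε0 → |lam ε + Real.log ε| ≤ C := fun ε h1 h2 => h0 ⟨h1, h2⟩
  have hC0 : 0 ≤ C := (abs_nonneg _).trans (h0' (ε0 / 2) (by linarith) (by linarith))
  refine ⟨lam (ε0 / 2) + 2 * C + |Real.log ε0|, ?_, ?_⟩
  · have := lam_nonneg (ε0 / 2)
    positivity
  intro σ r hσ hr
  have hl0 := lam_nonneg (ε0 / 2)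
  have hl1 := lam_nonneg (σ + r)
  have habs := abs_nonneg (Real.log ε0)
  have hlog : 0 ≤ Real.log (1 + r / σ) := Real.log_nonneg (by
    have : 0 ≤ r / σ := by positivity
    linarith)
  have hlog' : Real.log (1 + r / σ) = Real.log (σ + r) - Real.log σ := by
    rw [← Real.log_div (by positivity) hσ.ne']
    congr 1
    field_simp
  rcases le_or_gt (ε0 / 2) σ with h | h
  · have := lam_anti (by linarith : 0 < ε0 / 2) h
    linarith
  · have h1 := (abs_le.1 (h0' σ hσ (by linarith))).2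
    rcases lt_or_ge (σ + r) ε0 with h2 | h2
    · have h3 := (abs_le.1 (h0' (σ + r) (by linarith) h2)).1
      linarith
    · have h3 : Real.log ε0 ≤ Real.log (σ + r) := Real.log_le_log hε0' h2
      have h4 := neg_abs_le (Real.log ε0)
      linarith

open Classical in
theorem dd_ok : TaskDD := by
  intro a b
  obtain ⟨C, hC0, hC⟩ := lam_diff
  set K : ℝ := ∑' p : Nat.Primes, (p : ℝ) ^ (-(3 / 2) : ℝ) with hK
  have hK0 : 0 ≤ K := tsum_nonneg fun p => by positivity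
  refine ⟨4 + 4 * C + 8 * K, ?_⟩
  intro w hw _
  have hr := norm_nonneg w
  -- the majorant
  have hs : HasSum (fun p : Nat.Primes => 4 * ((p : ℝ) ^ (-(1 + w.re)) -
      (p : ℝ) ^ (-(1 + (w.re + ‖w‖)))) + 8 * (p : ℝ) ^ (-(3 / 2) : ℝ))
      (4 * (lam w.re - lam (w.re + ‖w‖)) + 8 * K) := by
    refine HasSum.add (HasSum.mul_left _ (HasSum.sub ?_ ?_)) (HasSum.mul_left _ ?_)
    · exact (lam_summable hw).hasSum
    · exact (lam_summable (by linarith)).hasSum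
    · exact (summable_prime_rpow (by norm_num)).hasSum
  have hs2 := (hasSum_subtype_iff_indicator (s := {p : ℕ | p.Prime}) (f := fun p : ℕ =>
    4 * ((p : ℝ) ^ (-(1 + w.re)) -
      (p : ℝ) ^ (-(1 + (w.re + ‖w‖)))) + 8 * (p : ℝ) ^ (-(3 / 2) : ℝ))).1 hs
  have hb : ∀ p : ℕ, ‖dd (Good a b) (al a b) p (1 + w)‖ ≤ ({p : ℕ | p.Prime}).indicator
      (fun p : ℕ => 4 * ((p : ℝ) ^ (-(1 + w.re)) -
      (p : ℝ) ^ (-(1 + (w.re + ‖w‖)))) + 8 * (p : ℝ) ^ (-(3 / 2) : ℝ)) p := by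
    intro p
    by_cases hg : Good a b p
    · rw [Set.indicator_of_mem (show p ∈ {p : ℕ | p.Prime} from hg.1)]
      unfold dd
      rw [if_pos hg]
      have h1 := del_le_w' hg.1 (al_norm hg) w hw.le
      have h2 := del_le_w' hg.1 (β := starRingEnd ℂ (al a b p))
        (by rw [Complex.norm_conj]; exact al_norm hg) w hw.le
      refine (norm_add_le _ _).trans ?_
      linarith
    · have : dd (Good a b) (al a b) p (1 + w) = 0 := by
        unfold dd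
        rw [if_neg hg]
      rw [this, norm_zero]
      refine Set.indicator_nonneg (fun q hq => ?_) p
      have hq1 : (1 : ℝ) ≤ q := by exact_mod_cast (show q.Prime from hq).one_lt.le
      have : (q : ℝ) ^ (-(1 + (w.re + ‖w‖))) ≤ (q : ℝ) ^ (-(1 + w.re)) :=
        Real.rpow_le_rpow_of_exponent_le hq1 (by linarith)
      have h3 : 0 ≤ (q : ℝ) ^ (-(3 / 2) : ℝ) := by positivity
      linarith
  refine (tsum_of_norm_bounded hs2 hb).trans ?_
  have h1 := hC w.re ‖w‖ hw hr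
  have hlog : 0 ≤ Real.log (1 + ‖w‖ / w.re) := Real.log_nonneg (by
    have : 0 ≤ ‖w‖ / w.re := by positivity
    linarith)
  nlinarith [mul_nonneg hC0 hlog, mul_nonneg hK0 hlog]

end Pool.Agent.H814R3.BSD.TDD
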