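import Pool.Agent.H814R3.BSD.Stmts
import Pool.Agent.H790.BSD.PoisC

set_option autoImplicit false

namespace Pool.Agent.H814R3.BSD.TPois

theorem pois_ok : Pool.Agent.H814R3.BSD.TaskPois := Pool.Agent.H790.BSD.pois

end Pool.Agent.H814R3.BSD.TPois
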