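import Pool.Agent.H814R3.BSD.Stmts

set_option autoImplicit false

open Complex Filter Topology Finset MeasureTheory

namespace Pool.Agent.H814R3.BSD.BCx

theorem bc_ok : TaskBC := by
  rintro L hL ⟨B0, hB0⟩ ⟨A, hA⟩ σ0 hσ0
  set σ : ℝ := min σ0 1 with hσd
  have hσ : 0 < σ := lt_min hσ0 one_pos
  have hσ1 : σ ≤ 1 := min_le_right _ _
  have hB0' : 0 ≤ |B0| := abs_nonneg _
  have hA' : 0 ≤ |A| := abs_nonneg _
  refine ⟨(2 * (5 * |A| + 1) + 2 * |B0|) / σ, fun w hw => ?_⟩
  have hwσ : σ ≤ w.re := (min_le_left _ _).trans hw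
  set v := w.im with hv
  have hv0 : 0 ≤ |v| := abs_nonneg v
  set r := (1 + |v|) ^ (1 / 2 : ℝ) with hr
  have hr1 : 1 ≤ r := Real.one_le_rpow (by linarith) (by norm_num)
  have hfin : (2 * (5 * |A| * r + 1) + 2 * |B0|) / σ ≤ (2 * (5 * |A| + 1) + 2 * |B0|) / σ * r := by
    rw [div_mul_eq_mul_div]
    apply div_le_div_of_nonneg_right _ hσ.le
    nlinarith
  rcases le_or_gt 1 w.re with h1 | h1
  · refine (hB0 w h1).trans (le_trans ?_ hfin)
    have h2 : |B0| ≤ |B0| / σ := by
      rw [le_div_iff₀ hσ]
      nlinarith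
    refine (le_abs_self _).trans (h2.trans ?_)
    apply div_le_div_of_nonneg_right _ hσ.le
    have : 0 ≤ |A| * r := by positivity
    nlinarith
  · set c : ℂ := ⟨1, v⟩ with hc
    set M : ℝ := 5 * |A| * r + 1 with hM
    have hMpos : 0 < M := by positivity
    have hsub : ∀ z ∈ Metric.ball (0 : ℂ) 1, 0 < (c + z).re := by
      intro z hz
      have h2 : ‖z‖ < 1 := by simpa using hz
      have h3 := (abs_le.1 ((Complex.abs_re_le_norm z).trans h2.le)).1
      have h4 : -1 < z.re := by
        have := (abs_lt.1 ((Complex.abs_re_le_norm z).trans_lt h2)).1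
        exact this
      have : (c + z).re = 1 + z.re := by simp [hc]
      rw [this]
      linarith
    have hf : DifferentiableOn ℂ (fun z => L (c + z)) (Metric.ball 0 1) := by
      apply hL.comp (by fun_prop)
      intro z hz
      exact hsub z hz
    have hf1 : Set.MapsTo (fun z => L (c + z)) (Metric.ball 0 1) {z | z.re ≤ M} := by
      intro z hz
      show (L (c + z)).re ≤ M
      refine (hA (c + z) (hsub z hz)).trans ?_
      have h2 : ‖z‖ < 1 := by simpa using hz
      have h3 : ‖c‖ ≤ 1 + |v| := by
        have h4 := Complex.norm_le_abs_re_add_abs_im c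
        simpa [hc] using h4
      have h5 : ‖c + z‖ ≤ 2 + |v| := by
        have := norm_add_le c z
        linarith
      have h6 : 1 + ‖c + z‖ ≤ 3 * (1 + |v|) := by linarith
      have hpos : 0 < 1 + ‖c + z‖ := by positivity
      have h7 := Real.log_le_log hpos h6
      rw [Real.log_mul (by norm_num) (by positivity)] at h7
      have h8 : Real.log 3 ≤ 2 := by
        have := Real.log_le_sub_one_of_pos (by norm_num : (0 : ℝ) < 3)
        linarith
      have h9 : Real.log (1 + |v|) ≤ 2 * r := by
        have := Real.log_le_rpow_div (x := 1 + |v|) (by linarith) (ε := 1 / 2) (by norm_num)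
        linarith
      have h10 : 0 ≤ Real.log (1 + ‖c + z‖) := Real.log_nonneg (by linarith [norm_nonneg (c + z)])
      calc A * (1 + Real.log (1 + ‖c + z‖)) ≤ |A| * (1 + Real.log (1 + ‖c + z‖)) :=
            mul_le_mul_of_nonneg_right (le_abs_self _) (by linarith)
        _ ≤ |A| * (5 * r) := mul_le_mul_of_nonneg_left (by linarith) hA'
        _ ≤ M := by rw [hM]; linarith
    set z : ℂ := w - c with hz
    have hznorm : ‖z‖ = 1 - w.re := by
      have : z = ((w.re - 1 : ℝ) : ℂ) := by
        apply Complex.ext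
        · simp [hz, hc]
        · simp [hz, hc, hv]
      rw [this, Complex.norm_real, Real.norm_eq_abs, abs_of_nonpos (by linarith)]
      ring
    have hzmem : z ∈ Metric.ball (0 : ℂ) 1 := by
      rw [mem_ball_zero_iff, hznorm]
      linarith
    have key := borelCaratheodory hMpos hf hf1 one_pos hzmem
    have e1 : c + z = w := by rw [hz]; ring
    simp only [e1, add_zero, hznorm] at key
    have e2 : (1 : ℝ) - (1 - w.re) = w.re := by ring
    rw [e2] at key
    have hLc : ‖L c‖ ≤ |B0| := (hB0 c (by simp [hc])).trans (le_abs_self _)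
    have hwpos : 0 < w.re := by linarith
    refine key.trans (le_trans ?_ hfin)
    rw [← add_div]
    calc (2 * M * (1 - w.re) + ‖L c‖ * (1 + (1 - w.re))) / w.re
        ≤ (2 * M + 2 * |B0|) / w.re := by
          apply div_le_div_of_nonneg_right _ hwpos.le
          nlinarith [norm_nonneg (L c)]
      _ ≤ (2 * M + 2 * |B0|) / σ := by
          apply div_le_div_of_nonneg_left (by positivity) hσ hwσ

end Pool.Agent.H814R3.BSD.BCx
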