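import Pool.Agent.H814R3.BSD.Stmts

/-! Task DD0: the limit of the sum of the local error terms. -/

set_option autoImplicit false

open Complex Filter Topology Finset MeasureTheory

namespace Pool.Agent.H814R3.BSD.TDD0

open Pool.Agent.H438R3.BSD Pool.Agent.H814R3.BSD

/-- Dirichlet series with bounded partial sums -/
lemma lser_bound (r : ℕ → ℂ) (K : ℝ) (hK : ∀ n : ℕ, ‖∑ k ∈ Finset.Icc 1 n, r k‖ ≤ K) (z : ℂ)
    (hz : 0 < z.re) (hS : LSeriesSummable r z) : ‖LSeries r z‖ ≤ K * (‖z‖ / z.re) := by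
  have hO : (fun n : ℕ => ∑ k ∈ Finset.Icc 1 n, r k) =O[atTop] fun n : ℕ => (n : ℝ) ^ (0 : ℝ) := by
    simp only [Real.rpow_zero]
    exact Asymptotics.isBigO_of_le' (c := K) atTop (fun n => by simpa using hK n)
  rw [LSeries_eq_mul_integral r le_rfl hz hS hO, norm_mul]
  have hint : IntegrableOn (fun t : ℝ => K * t ^ (-(z.re + 1))) (Set.Ioi 1) :=
    (integrableOn_Ioi_rpow_of_lt (by linarith) one_pos).const_mul K
  have h1 : ‖∫ t in Set.Ioi (1 : ℝ), (∑ k ∈ Finset.Icc 1 ⌊t⌋₊, r k) * (t : ℂ) ^ (-(z + 1))‖ ≤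
      ∫ t in Set.Ioi (1 : ℝ), K * t ^ (-(z.re + 1)) := by
    apply norm_integral_le_of_norm_le hint
    filter_upwards [ae_restrict_mem measurableSet_Ioi] with t ht
    have ht0 : (0 : ℝ) < t := lt_trans one_pos ht
    rw [norm_mul, Complex.norm_cpow_eq_rpow_re_of_pos ht0]
    have e : (-(z + 1)).re = -(z.re + 1) := by simp
    rw [e]
    exact mul_le_mul_of_nonneg_right (hK _) (by positivity)
  have h2 : ∫ t in Set.Ioi (1 : ℝ), K * t ^ (-(z.re + 1)) = K / z.re := by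
    rw [integral_const_mul, integral_Ioi_rpow_of_lt (by linarith) one_pos]
    rw [Real.one_rpow]
    have : -(z.re + 1) + 1 = -z.re := by ring
    rw [this]
    field_simp
  rw [h2] at h1
  calc ‖z‖ * ‖∫ t in Set.Ioi (1 : ℝ), (∑ k ∈ Finset.Icc 1 ⌊t⌋₊, r k) * (t : ℂ) ^ (-(z + 1))‖
      ≤ ‖z‖ * (K / z.re) := mul_le_mul_of_nonneg_left h1 (norm_nonneg _)
    _ = _ := by ring

lemma summable_of_le {f : ℕ → ℂ} {C : ℝ} (hf : ∀ n : ℕ, n ≠ 0 → ‖f n‖ ≤ C / n) {z : ℂ}
    (hz : 0 < z.re) : LSeriesSummable f z := by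
  refine LSeriesSummable_of_le_const_mul_rpow (x := 0) hz ⟨C, fun n hn => ?_⟩
  have h := hf n hn
  rwa [zero_sub, Real.rpow_neg_one, ← div_eq_mul_inv]

lemma absc {f : ℕ → ℂ} {C : ℝ} (hf : ∀ n : ℕ, n ≠ 0 → ‖f n‖ ≤ C / n) {z : ℂ}
    (hz : 0 < z.re) : LSeries.abscissaOfAbsConv f < z.re := by
  have h1 : LSeries.abscissaOfAbsConv f ≤ (0 : ℝ) := by
    apply LSeries.abscissaOfAbsConv_le_of_forall_lt_LSeriesSummable
    intro y hy
    exact summable_of_le hf (by simpa using hy)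
  refine lt_of_le_of_lt h1 ?_
  exact_mod_cast hz

/-- the difference of the values at `2 w` and `w` -/
lemma diff_bound (f : ℕ → ℂ) (C K : ℝ) (hf : ∀ n : ℕ, n ≠ 0 → ‖f n‖ ≤ C / n)
    (hK : ∀ n : ℕ, ‖∑ k ∈ Finset.Icc 1 n, LSeries.logMul f k‖ ≤ K) (w : ℂ) (hw : 0 < w.re) :
    ‖LSeries f (2 * w) - LSeries f w‖ ≤ K * (‖w‖ / w.re) * ‖w‖ := by
  have hseg : ∀ z ∈ segment ℝ w (2 * w), 0 < z.re ∧ ‖z‖ / z.re = ‖w‖ / w.re := by
    rintro z ⟨a, b, ha, hb, hab, rfl⟩
    have e : a • w + b • (2 * w) = ((a + 2 * b : ℝ) : ℂ) * w := by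
      simp only [Complex.real_smul]
      push_cast
      ring
    have ht : 0 < a + 2 * b := by nlinarith
    rw [e]
    have hre : (((a + 2 * b : ℝ) : ℂ) * w).re = (a + 2 * b) * w.re := by
      rw [Complex.re_ofReal_mul]
    refine ⟨by rw [hre]; positivity, ?_⟩
    rw [hre, norm_mul, Complex.norm_real, Real.norm_of_nonneg ht.le]
    field_simp
  have h := Convex.norm_image_sub_le_of_norm_hasDerivWithin_le (𝕜 := ℂ)
    (f := LSeries f) (f' := fun z => -LSeries (LSeries.logMul f) z)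
    (s := segment ℝ w (2 * w)) (C := K * (‖w‖ / w.re)) (x := w) (y := 2 * w)
    (fun z hz => (LSeries_hasDerivAt (absc hf (hseg z hz).1)).hasDerivWithinAt)
    (fun z hz => by
      obtain ⟨h1, h2⟩ := hseg z hz
      rw [norm_neg, ← h2]
      exact lser_bound _ K hK z h1 (LSeriesSummable_logMul_of_lt_re (absc hf h1)))
    (convex_segment _ _) (left_mem_segment _ _ _) (right_mem_segment _ _ _)
  have e : 2 * w - w = w := by ring
  rwa [e] at h

/-! ### the primes -/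

/-- `1 / p` at the primes -/
noncomputable def pz (n : ℕ) : ℂ := if n.Prime then 1 / (n : ℂ) else 0

lemma pz_le (n : ℕ) (_ : n ≠ 0) : ‖pz n‖ ≤ 1 / n := by
  unfold pz
  split_ifs with h
  · rw [norm_div, norm_one, Complex.norm_natCast]
  · rw [norm_zero]; positivity

lemma norm_cpow_le {s : ℂ} (hs : 1 ≤ s.re) {p : ℕ} (hp : p.Prime) :
    ‖(p : ℂ) ^ (-s)‖ ≤ (p : ℝ)⁻¹ := by
  have hp1 : (1 : ℝ) ≤ p := by exact_mod_cast hp.one_le
  rw [Complex.norm_natCast_cpow_of_pos hp.pos, ← Real.rpow_neg_one]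
  apply Real.rpow_le_rpow_of_exponent_le hp1
  simp only [neg_re]
  linarith

/-- the sum of `-log (1 - p ^ (-s)) - p ^ (-s)` -/
noncomputable def hz (s : ℂ) : ℂ := ∑' p : Nat.Primes, rr ((p : ℂ) ^ (-s))

lemma rr_prime_le {s : ℂ} (hs : 1 ≤ s.re) (p : Nat.Primes) :
    ‖rr ((p : ℂ) ^ (-s))‖ ≤ 2 * (p : ℝ) ^ (-2 : ℝ) := by
  have hp2 : (2 : ℝ) ≤ (p : ℕ) := by exact_mod_cast p.2.two_le
  have h1 := norm_cpow_le hs p.2
  have h2 : ((p : ℕ) : ℝ)⁻¹ ≤ 0.71 := by
    rw [inv_le_comm₀ (by linarith) (by norm_num)]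
    norm_num
    linarith
  refine (rr_le (h1.trans h2)).trans ?_
  have h3 : ‖((p : ℕ) : ℂ) ^ (-s)‖ ^ 2 ≤ (((p : ℕ) : ℝ)⁻¹) ^ 2 :=
    pow_le_pow_left₀ (norm_nonneg _) h1 2
  have h4 : (((p : ℕ) : ℝ)⁻¹) ^ 2 = ((p : ℕ) : ℝ) ^ (-2 : ℝ) := by
    rw [Real.rpow_neg (by positivity), inv_pow]
    norm_num
  rw [← h4]
  linarith

lemma summable_bd : Summable (fun p : Nat.Primes => 2 * (p : ℝ) ^ (-2 : ℝ)) :=
  (Nat.Primes.summable_rpow.2 (by norm_num)).mul_left 2

lemma rr_cont (p : Nat.Primes) : ContinuousAt (fun w : ℂ => rr ((p : ℂ) ^ (-(1 + w)))) 0 := by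
  have hpc : ((p : ℕ) : ℂ) ≠ 0 := by exact_mod_cast p.2.ne_zero
  have h1 : ContinuousAt (fun w : ℂ => ((p : ℕ) : ℂ) ^ (-(1 + w))) 0 := by
    apply ContinuousAt.const_cpow (by fun_prop) (Or.inl hpc)
  have hp2 : (2 : ℝ) ≤ (p : ℕ) := by exact_mod_cast p.2.two_le
  have h2 : 1 - ((p : ℕ) : ℂ) ^ (-(1 + (0 : ℂ))) ∈ slitPlane := by
    have h3 : ‖-(((p : ℕ) : ℂ) ^ (-(1 + (0 : ℂ))))‖ < 1 := by
      rw [norm_neg]
      refine lt_of_le_of_lt (norm_cpow_le (by simp) p.2) ?_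
      rw [inv_lt_comm₀ (by linarith) (by norm_num)]
      linarith
    have := Complex.mem_slitPlane_of_norm_lt_one h3
    rwa [← sub_eq_add_neg] at this
  unfold rr
  exact (((continuousAt_const.sub h1).clog h2).neg).sub h1

lemma hz_tendsto {w : ℝ → ℂ} (hw : Tendsto w atTop (𝓝 0)) (hre : ∀ᶠ U in atTop, 0 < (w U).re) :
    Tendsto (fun U => hz (1 + w U)) atTop (𝓝 (hz 1)) := by
  unfold hz
  refine tendsto_tsum_of_dominated_convergence summable_bd (fun p => ?_) ?_
  · have h1 := (rr_cont p).tendsto.comp hw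
    simpa [Function.comp_def] using h1
  · filter_upwards [hre] with U hU p
    exact rr_prime_le (by simp; linarith) p

lemma summable_cpow {s : ℂ} (hs : 1 < s.re) : Summable (fun p : Nat.Primes => (p : ℂ) ^ (-s)) := by
  apply Summable.of_norm
  have h1 : (fun p : Nat.Primes => ‖(p : ℂ) ^ (-s)‖) = fun p : Nat.Primes => (p : ℝ) ^ (-s.re) := by
    funext p
    rw [Complex.norm_natCast_cpow_of_pos p.2.pos, neg_re]
  rw [h1]
  exact Nat.Primes.summable_rpow.2 (by linarith)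

lemma log_zeta {s : ℂ} (hs : 1 < s.re) :
    Real.log ‖riemannZeta s‖ = (∑' p : Nat.Primes, (p : ℂ) ^ (-s)).re + (hz s).re := by
  rw [← riemannZeta_eulerProduct_exp_log hs, Complex.norm_exp, Real.log_exp, ← Complex.add_re]
  congr 1
  unfold hz
  rw [← (summable_cpow hs).tsum_add (Summable.of_norm_bounded summable_bd
    (fun p => rr_prime_le hs.le p))]
  apply tsum_congr
  intro p
  unfold rr
  ring

lemma pz_lseries {z : ℂ} (_ : 0 < z.re) :
    LSeries pz z = ∑' p : Nat.Primes, (p : ℂ) ^ (-(1 + z)) := by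
  have h := tsum_subtype {p : ℕ | p.Prime} (fun n : ℕ => (n : ℂ) ^ (-(1 + z)))
  have h2 : ∑' p : Nat.Primes, (p : ℂ) ^ (-(1 + z)) =
      ∑' x : ({p : ℕ | p.Prime} : Set ℕ), ((x : ℕ) : ℂ) ^ (-(1 + z)) := rfl
  rw [h2, h]
  unfold LSeries
  apply tsum_congr
  intro n
  by_cases hn : n.Prime
  · rw [Set.indicator_of_mem (by exact hn), LSeries.term_of_ne_zero hn.ne_zero]
    have hnc : (n : ℂ) ≠ 0 := by exact_mod_cast hn.ne_zero
    unfold pz
    rw [if_pos hn, neg_add, Complex.cpow_add _ _ hnc, Complex.cpow_neg_one, Complex.cpow_neg]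
    field_simp
  · rw [Set.indicator_of_notMem (by exact hn)]
    rcases Nat.eq_zero_or_pos n with h0 | h0
    · rw [h0, LSeries.term_zero]
    · rw [LSeries.term_of_ne_zero h0.ne']
      unfold pz
      rw [if_neg hn, zero_div]

lemma zeta_tendsto {w : ℝ → ℂ} (hw : Tendsto w atTop (𝓝 0)) (hre : ∀ᶠ U in atTop, 0 < (w U).re) :
    Tendsto (fun U => Real.log ‖riemannZeta (1 + w U)‖ + Real.log ‖w U‖) atTop (𝓝 0) := by
  have h1 : Tendsto (fun U => 1 + w U) atTop (𝓝[≠] 1) := by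
    rw [tendsto_nhdsWithin_iff]
    constructor
    · simpa using hw.const_add 1
    · filter_upwards [hre] with U hU h
      have : w U = 0 := by simpa using h
      rw [this] at hU
      simp at hU
  have h2 := riemannZeta_residue_one.comp h1
  have h3 := (h2.norm).log (by simp)
  simp only [norm_one, Real.log_one] at h3
  refine h3.congr' ?_
  filter_upwards [hre] with U hU
  simp only [Function.comp_apply, add_sub_cancel_left, norm_mul]
  have hw0 : ‖w U‖ ≠ 0 := by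
    rw [norm_ne_zero_iff]
    intro h
    rw [h] at hU
    simp at hU
  have hz0 : ‖riemannZeta (1 + w U)‖ ≠ 0 := by
    rw [norm_ne_zero_iff]
    apply riemannZeta_ne_zero_of_one_le_re
    simp
    linarith
  rw [Real.log_mul hw0 hz0]
  ring

lemma prime_limit {w : ℝ → ℂ} (hw : Tendsto w atTop (𝓝 0)) (hre : ∀ᶠ U in atTop, 0 < (w U).re) :
    Tendsto (fun U => (LSeries pz (w U) - LSeries pz (2 * w U)).re) atTop (𝓝 (Real.log 2)) := by
  have hw2 : Tendsto (fun U => 2 * w U) atTop (𝓝 0) := by simpa using hw.const_mul 2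
  have hre2 : ∀ᶠ U in atTop, 0 < (2 * w U).re := by
    filter_upwards [hre] with U hU
    simp
    exact hU
  have h1 := zeta_tendsto hw hre
  have h2 := zeta_tendsto hw2 hre2
  have h3 := (Complex.continuous_re.tendsto _).comp (hz_tendsto hw hre)
  have h4 := (Complex.continuous_re.tendsto _).comp (hz_tendsto hw2 hre2)
  have h5 := (((h1.sub h2).add_const (Real.log 2)).sub h3).add h4
  simp only [zero_add, sub_self] at h5
  have h6 : Real.log 2 - (hz 1).re + (hz 1).re = Real.log 2 := by ring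
  rw [h6] at h5
  refine h5.congr' ?_
  filter_upwards [hre, hre2] with U hU hU2
  rw [sub_re, pz_lseries hU, pz_lseries hU2]
  have h7 := log_zeta (s := 1 + w U) (by simp; linarith)
  have h8 := log_zeta (s := 1 + 2 * w U) (by
    rw [add_re, one_re]; linarith)
  have hw0 : ‖w U‖ ≠ 0 := by
    rw [norm_ne_zero_iff]
    intro h
    rw [h] at hU
    simp at hU
  have h9 : Real.log ‖2 * w U‖ = Real.log 2 + Real.log ‖w U‖ := by
    rw [norm_mul, Real.log_mul (by norm_num) hw0]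
    norm_num
  simp only [Function.comp_apply]
  rw [h9]
  linarith

/-! ### the local terms -/

lemma del_main {p : ℕ} (hp : p.Prime) {β : ℂ} (hβ : ‖β‖ = (p : ℝ) ^ (1 / 2 : ℝ)) (w : ℂ)
    (hw : 0 ≤ w.re) :
    ‖del p β (1 + w) - β ^ 2 / 2 * (1 / (p : ℂ) ^ 2) * ((p : ℂ) ^ (-(2 * w)) - (p : ℂ) ^ (-w))‖ ≤
      4 * (p : ℝ) ^ (-(3 / 2) : ℝ) := by
  have hp0 : (0 : ℝ) < p := by exact_mod_cast hp.pos
  have hp2 : (2 : ℝ) ≤ p := by exact_mod_cast hp.two_le
  have hpc : (p : ℂ) ≠ 0 := by exact_mod_cast hp.ne_zero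
  have hs1 : (1 + w).re = 1 + w.re := by simp
  have h1 := norm_a hp hβ (1 + w)
  rw [hs1] at h1
  have h2 := norm_b hp hβ
  have h3 : ‖(p : ℂ) ^ (-w)‖ = (p : ℝ) ^ (-w.re) := by
    rw [Complex.norm_natCast_cpow_of_pos hp.pos]; simp
  have h4 := rr_le3 (z := β * (p : ℂ) ^ (-(1 + w))) (by
    rw [h1]; exact x_rpow_le hp2 (by linarith))
  have h5 := rr_le3 (z := β / (p : ℂ)) (by rw [h2]; exact x_rpow_le hp2 (by linarith))
  rw [h1] at h4
  rw [h2] at h5
  have e2 : (p : ℂ) ^ (-(1 + w)) = (p : ℂ)⁻¹ * (p : ℂ) ^ (-w) := by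
    rw [neg_add, Complex.cpow_add _ _ hpc, Complex.cpow_neg_one]
  have e3 : (p : ℂ) ^ (-(2 * w)) = ((p : ℂ) ^ (-w)) ^ 2 := by
    rw [← Complex.cpow_nat_mul]
    congr 1
    push_cast
    ring
  have e4 : (p : ℂ) ^ (1 - (1 + w)) = (p : ℂ) ^ (-w) := by
    congr 1
    ring
  set A := rr (β * (p : ℂ) ^ (-(1 + w))) - (β * (p : ℂ) ^ (-(1 + w))) ^ 2 / 2 with hA
  set B := rr (β / (p : ℂ)) - (β / (p : ℂ)) ^ 2 / 2 with hB
  have e1 : del p β (1 + w) - β ^ 2 / 2 * (1 / (p : ℂ) ^ 2) *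
      ((p : ℂ) ^ (-(2 * w)) - (p : ℂ) ^ (-w)) = A - (p : ℂ) ^ (-w) * B := by
    unfold del
    rw [hA, hB, e4, e3, e2]
    field_simp
    ring
  have h6 : ((p : ℝ) ^ (1 / 2 - (1 + w.re))) ^ 3 ≤ (p : ℝ) ^ (-(3 / 2) : ℝ) := by
    rw [← Real.rpow_natCast, ← Real.rpow_mul hp0.le]
    apply Real.rpow_le_rpow_of_exponent_le (by linarith)
    push_cast
    linarith
  have h7 : (p : ℝ) ^ (-w.re) * ((p : ℝ) ^ (-(1 / 2) : ℝ)) ^ 3 ≤ (p : ℝ) ^ (-(3 / 2) : ℝ) := by
    rw [← Real.rpow_natCast, ← Real.rpow_mul hp0.le, ← Real.rpow_add hp0]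
    apply Real.rpow_le_rpow_of_exponent_le (by linarith)
    push_cast
    linarith
  rw [e1]
  calc ‖A - (p : ℂ) ^ (-w) * B‖ ≤ ‖A‖ + ‖(p : ℂ) ^ (-w) * B‖ := norm_sub_le _ _
    _ ≤ 2 * ((p : ℝ) ^ (1 / 2 - (1 + w.re))) ^ 3 +
        (p : ℝ) ^ (-w.re) * (2 * ((p : ℝ) ^ (-(1 / 2) : ℝ)) ^ 3) := by
        rw [norm_mul, h3]
        gcongr
    _ = 2 * ((p : ℝ) ^ (1 / 2 - (1 + w.re))) ^ 3 +
        2 * ((p : ℝ) ^ (-w.re) * ((p : ℝ) ^ (-(1 / 2) : ℝ)) ^ 3) := by ring
    _ ≤ 2 * (p : ℝ) ^ (-(3 / 2) : ℝ) + 2 * (p : ℝ) ^ (-(3 / 2) : ℝ) := by gcongr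
    _ = _ := by ring

open Classical in
/-- `a_p ^ 2 / p - 2` at the good primes -/
noncomputable def cof (a b : ℤ) (n : ℕ) : ℝ :=
  if Good a b n then ((n : ℝ) - Np a b n) ^ 2 / n - 2 else 0

/-- the coefficients with bounded weighted sums -/
noncomputable def fo (a b : ℤ) (n : ℕ) : ℂ :=
  if n.Prime then (((cof a b n + 1) / n : ℝ) : ℂ) else 0

lemma cof_abs (a b : ℤ) (n : ℕ) : |cof a b n + 1| ≤ 3 := by
  unfold cof
  split_ifs with h
  · have h1 := al_sq h
    have hn : (0 : ℝ) < n := by exact_mod_cast h.1.pos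
    have h2 : ((n : ℝ) - Np a b n) ^ 2 / n ≤ 4 := by
      rw [div_le_iff₀ hn]
      nlinarith
    have h3 : 0 ≤ ((n : ℝ) - Np a b n) ^ 2 / n := by positivity
    rw [abs_le]
    constructor <;> linarith
  · norm_num

lemma fo_le (a b : ℤ) (n : ℕ) (_ : n ≠ 0) : ‖fo a b n‖ ≤ 3 / n := by
  unfold fo
  split_ifs with h
  · rw [Complex.norm_real, Real.norm_eq_abs, abs_div, Nat.abs_cast]
    gcongr
    exact cof_abs a b n
  · rw [norm_zero]; positivity

lemma fo_sub (a b : ℤ) (n : ℕ) : fo a b n - pz n = ((cof a b n / n : ℝ) : ℂ) := by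
  unfold fo pz
  split_ifs with h
  · push_cast
    ring
  · unfold cof
    rw [if_neg (fun hg => h hg.1)]
    simp

/-- the main part of the local term -/
noncomputable def Mn (a b : ℤ) (n : ℕ) (w : ℂ) : ℂ :=
  1 / 2 * (((cof a b n / n : ℝ) : ℂ) * ((n : ℂ) ^ (-(2 * w)) - (n : ℂ) ^ (-w)))

open Classical in
lemma err_le (a b : ℤ) (n : ℕ) (w : ℂ) (hw : 0 ≤ w.re) :
    ‖dd (Good a b) (al a b) n (1 + w) - Mn a b n w‖ ≤ 8 * (n : ℝ) ^ (-(3 / 2) : ℝ) := by
  unfold dd Mn cof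
  split_ifs with h
  · have h1 := del_main h.1 (al_norm h) w hw
    have h2 := del_main h.1 (β := starRingEnd ℂ (al a b n))
      (by rw [Complex.norm_conj]; exact al_norm h) w hw
    have hnc : (n : ℂ) ≠ 0 := by exact_mod_cast h.1.ne_zero
    have e1 := al_add_conj a b n
    have e2 := al_mul_conj h
    have e3 : (al a b n) ^ 2 + (starRingEnd ℂ (al a b n)) ^ 2 =
        ((n : ℂ) - Np a b n) ^ 2 - 2 * n := by
      rw [← e1, ← e2]
      ring
    have e4 : del n (al a b n) (1 + w) + del n (starRingEnd ℂ (al a b n)) (1 + w) -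
        1 / 2 * ((((((n : ℝ) - Np a b n) ^ 2 / n - 2) / n : ℝ) : ℂ) *
          ((n : ℂ) ^ (-(2 * w)) - (n : ℂ) ^ (-w))) =
        (del n (al a b n) (1 + w) - (al a b n) ^ 2 / 2 * (1 / (n : ℂ) ^ 2) *
          ((n : ℂ) ^ (-(2 * w)) - (n : ℂ) ^ (-w))) +
        (del n (starRingEnd ℂ (al a b n)) (1 + w) - (starRingEnd ℂ (al a b n)) ^ 2 / 2 *
          (1 / (n : ℂ) ^ 2) * ((n : ℂ) ^ (-(2 * w)) - (n : ℂ) ^ (-w))) := by
      have e5 : (((((n : ℝ) - Np a b n) ^ 2 / n - 2) / n : ℝ) : ℂ) =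
          ((al a b n) ^ 2 + (starRingEnd ℂ (al a b n)) ^ 2) * (1 / (n : ℂ) ^ 2) := by
        rw [e3]
        push_cast
        field_simp
      rw [e5]
      ring
    rw [e4]
    refine (norm_add_le _ _).trans ?_
    linarith
  · simp only [zero_div, ofReal_zero, zero_mul, mul_zero, sub_zero, norm_zero]
    positivity

open Classical in
lemma err_tendsto (a b : ℤ) (n : ℕ) {w : ℝ → ℂ} (hw : Tendsto w atTop (𝓝 0)) :
    Tendsto (fun U => dd (Good a b) (al a b) n (1 + w U) - Mn a b n (w U)) atTop (𝓝 0) := by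
  by_cases h : Good a b n
  · have hnc : (n : ℂ) ≠ 0 := by exact_mod_cast h.1.ne_zero
    have hd1 := (del_differentiable h.1 (al_norm h) (s := 1) (by simp)).continuousAt
    have hd2 := (del_differentiable h.1 (β := starRingEnd ℂ (al a b n))
      (by rw [Complex.norm_conj]; exact al_norm h) (s := 1) (by simp)).continuousAt
    have hw1 : Tendsto (fun U => 1 + w U) atTop (𝓝 1) := by simpa using hw.const_add 1
    have h0 : ∀ β : ℂ, del n β 1 = 0 := by
      intro β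
      unfold del
      rw [Complex.cpow_neg_one, sub_self, Complex.cpow_zero, div_eq_mul_inv]
      ring
    have t1 := hd1.tendsto.comp hw1
    have t2 := hd2.tendsto.comp hw1
    rw [h0] at t1 t2
    have hc : ContinuousAt (fun z : ℂ => Mn a b n z) 0 := by
      unfold Mn
      have c1 : ContinuousAt (fun z : ℂ => (n : ℂ) ^ (-(2 * z))) 0 :=
        ContinuousAt.const_cpow (by fun_prop) (Or.inl hnc)
      have c2 : ContinuousAt (fun z : ℂ => (n : ℂ) ^ (-z)) 0 :=
        ContinuousAt.const_cpow (by fun_prop) (Or.inl hnc)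
      exact continuousAt_const.mul (continuousAt_const.mul (c1.sub c2))
    have t3 := hc.tendsto.comp hw
    have h3 : Mn a b n 0 = 0 := by
      unfold Mn
      simp
    rw [h3] at t3
    have t4 := (t1.add t2).sub t3
    simp only [add_zero, sub_zero] at t4
    refine t4.congr ?_
    intro U
    simp only [Function.comp_apply]
    unfold dd
    rw [if_pos h]
  · have : (fun U => dd (Good a b) (al a b) n (1 + w U) - Mn a b n (w U)) = fun _ => 0 := by
      funext U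
      unfold dd Mn cof
      rw [if_neg h, if_neg h]
      simp
    rw [this]
    exact tendsto_const_nhds

open Classical in
lemma err_sum (a b : ℤ) {w : ℝ → ℂ} (hw : Tendsto w atTop (𝓝 0))
    (hre : ∀ᶠ U in atTop, 0 < (w U).re) :
    Tendsto (fun U => ∑' n, (dd (Good a b) (al a b) n (1 + w U) - Mn a b n (w U))) atTop (𝓝 0) := by
  have hs : Summable (fun n : ℕ => 8 * (n : ℝ) ^ (-(3 / 2) : ℝ)) :=
    (Real.summable_nat_rpow.2 (by norm_num)).mul_left 8
  have h := tendsto_tsum_of_dominated_convergence (𝓕 := atTop)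
    (f := fun U n => dd (Good a b) (al a b) n (1 + w U) - Mn a b n (w U)) (g := fun _ : ℕ => (0 : ℂ))
    hs (fun n => err_tendsto a b n hw) (by
      filter_upwards [hre] with U hU n
      exact err_le a b n (w U) hU.le)
  simpa using h

lemma mn_hasSum (a b : ℤ) {w : ℂ} (hw : 0 < w.re) :
    HasSum (fun n => Mn a b n w) (1 / 2 * ((LSeries (fo a b) (2 * w) - LSeries (fo a b) w) +
      (LSeries pz w - LSeries pz (2 * w)))) := by
  have hw2 : 0 < (2 * w).re := by simp; exact hw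
  have s1 := (summable_of_le (fo_le a b) hw2).hasSum
  have s2 := (summable_of_le (fo_le a b) hw).hasSum
  have s3 := (summable_of_le pz_le hw).hasSum
  have s4 := (summable_of_le pz_le hw2).hasSum
  have s5 := ((s1.sub s2).add (s3.sub s4)).mul_left (1 / 2 : ℂ)
  refine s5.congr_fun ?_
  intro n
  rcases Nat.eq_zero_or_pos n with h0 | h0
  · subst h0
    simp [Mn]
  · have hnc : (n : ℂ) ≠ 0 := by exact_mod_cast h0.ne'
    rw [LSeries.term_of_ne_zero h0.ne', LSeries.term_of_ne_zero h0.ne',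
      LSeries.term_of_ne_zero h0.ne', LSeries.term_of_ne_zero h0.ne']
    unfold Mn
    rw [← fo_sub, Complex.cpow_neg, Complex.cpow_neg]
    ring

/-! ### the partial sums -/

open Classical in
lemma sum_bound (a b : ℤ) (hab : 4 * a ^ 3 + 27 * b ^ 2 ≠ 0) (h : RS a b) :
    ∃ K : ℝ, ∀ n : ℕ, ‖∑ k ∈ Finset.Icc 1 n, LSeries.logMul (fo a b) k‖ ≤ K := by
  obtain ⟨C1, hC1⟩ := h
  obtain ⟨C2, hC2⟩ := Pool.Agent.Helper256.KM.mertens_log
  set D : ℤ := 2 * (-4 * a ^ 3 - 27 * b ^ 2) with hD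
  have hD0 : D ≠ 0 := by
    rw [hD]
    intro h0
    apply hab
    linarith
  set B : ℝ := ∑ p ∈ D.natAbs.primeFactors, Real.log p / p with hB
  have hB0 : 0 ≤ B := Finset.sum_nonneg fun p _ => by
    apply div_nonneg (Real.log_natCast_nonneg p) (by positivity)
  have hC10 : 0 ≤ C1 := (abs_nonneg _).trans (hC1 1 le_rfl)
  have hC20 : 0 ≤ C2 := (abs_nonneg _).trans (hC2 1 le_rfl)
  refine ⟨C1 + C2 + 2 * B, fun n => ?_⟩
  rcases Nat.eq_zero_or_pos n with h0 | h0
  · subst h0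
    simp
    positivity
  have h1 := hC1 n h0
  have h2 := hC2 n h0
  -- the real form of the sum
  have e1 : ∑ k ∈ Finset.Icc 1 n, LSeries.logMul (fo a b) k =
      ((∑ k ∈ (Finset.Icc 1 n).filter Nat.Prime, (cof a b k + 1) * (Real.log k / k) : ℝ) : ℂ) := by
    rw [Finset.sum_filter]
    push_cast
    apply Finset.sum_congr rfl
    intro k _
    unfold LSeries.logMul fo
    split_ifs with hk
    · rw [← Complex.natCast_log]
      push_cast
      ring
    · simp
  rw [e1, Complex.norm_real, Real.norm_eq_abs]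
  -- splitting
  have hsub : (Finset.Icc 1 n).filter (Good a b) ⊆ (Finset.Icc 1 n).filter Nat.Prime := by
    intro p hp
    rw [Finset.mem_filter] at hp ⊢
    exact ⟨hp.1, hp.2.1⟩
  have e2 : ∑ k ∈ (Finset.Icc 1 n).filter Nat.Prime, (cof a b k + 1) * (Real.log k / k) =
      ∑ k ∈ (Finset.Icc 1 n).filter Nat.Prime, cof a b k * (Real.log k / k) +
        ∑ k ∈ (Finset.Icc 1 n).filter Nat.Prime, Real.log k / k := by
    rw [← Finset.sum_add_distrib]
    apply Finset.sum_congr rfl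
    intro k _
    ring
  have e3 : ∑ k ∈ (Finset.Icc 1 n).filter Nat.Prime, cof a b k * (Real.log k / k) =
      ∑ k ∈ (Finset.Icc 1 n).filter (Good a b), cof a b k * (Real.log k / k) := by
    symm
    apply Finset.sum_subset hsub
    intro k _ hk2
    have : ¬ Good a b k := by
      intro hg
      apply hk2
      rw [Finset.mem_filter]
      refine ⟨(Finset.mem_filter.1 ‹_›).1, hg⟩
    unfold cof
    rw [if_neg this, zero_mul]
  have e4 : ∑ k ∈ (Finset.Icc 1 n).filter (Good a b), cof a b k * (Real.log k / k) =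
      ∑ p ∈ (Finset.Icc 1 n).filter (Good a b), ((p : ℝ) - Np a b p) ^ 2 / p * (Real.log p / p) -
        2 * ∑ p ∈ (Finset.Icc 1 n).filter (Good a b), Real.log p / p := by
    rw [Finset.mul_sum, ← Finset.sum_sub_distrib]
    apply Finset.sum_congr rfl
    intro k hk
    unfold cof
    rw [if_pos (Finset.mem_filter.1 hk).2]
    ring
  have e5 := Finset.sum_sdiff (f := fun p : ℕ => Real.log p / p) hsub
  have h3 : 0 ≤ ∑ p ∈ (Finset.Icc 1 n).filter Nat.Prime \ (Finset.Icc 1 n).filter (Good a b),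
      Real.log p / p := Finset.sum_nonneg fun p _ => by
    apply div_nonneg (Real.log_natCast_nonneg p) (by positivity)
  have h4 : ∑ p ∈ (Finset.Icc 1 n).filter Nat.Prime \ (Finset.Icc 1 n).filter (Good a b),
      Real.log p / p ≤ B := by
    rw [hB]
    apply Finset.sum_le_sum_of_subset_of_nonneg
    · intro p hp
      rw [Finset.mem_sdiff, Finset.mem_filter, Finset.mem_filter] at hp
      rw [Nat.mem_primeFactors]
      refine ⟨hp.1.2, ?_, by simpa using hD0⟩
      by_contra hnd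
      apply hp.2
      refine ⟨hp.1.1, hp.1.2, ?_⟩
      intro hdvd
      exact hnd (Int.natCast_dvd.1 hdvd)
    · intro p _ _
      apply div_nonneg (Real.log_natCast_nonneg p) (by positivity)
  rw [e2, e3, e4]
  rw [abs_le] at h1 h2 ⊢
  constructor <;> linarith [h1.1, h1.2, h2.1, h2.2]

open Classical in
theorem DD0_ok : TaskDD0 := by
  intro a b hab hRS τ
  obtain ⟨K, hK⟩ := sum_bound a b hab hRS
  set w : ℝ → ℂ := fun U => (1 + τ * I) / U with hwdef
  have hw : Tendsto w atTop (𝓝 0) := by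
    have h1 : Tendsto (fun U : ℝ => ((U⁻¹ : ℝ) : ℂ)) atTop (𝓝 ((0 : ℝ) : ℂ)) :=
      (Complex.continuous_ofReal.tendsto _).comp tendsto_inv_atTop_zero
    have h2 := h1.const_mul (1 + τ * I : ℂ)
    simp only [ofReal_zero, mul_zero] at h2
    refine h2.congr ?_
    intro U
    rw [hwdef]
    simp only [ofReal_inv]
    rw [div_eq_mul_inv]
  have hwre : ∀ U : ℝ, (w U).re = 1 / U := by
    intro U
    rw [hwdef]
    simp only
    rw [Complex.div_ofReal_re]
    simp
  have hre : ∀ᶠ U in atTop, 0 < (w U).re := by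
    filter_upwards [eventually_gt_atTop 0] with U hU
    rw [hwre]
    positivity
  have hquot : ∀ᶠ U : ℝ in atTop, ‖w U‖ / (w U).re = ‖(1 + τ * I : ℂ)‖ := by
    filter_upwards [eventually_gt_atTop 0] with U hU
    rw [hwre, hwdef]
    simp only
    rw [norm_div, Complex.norm_real, Real.norm_of_nonneg hU.le]
    field_simp
  have t1 := err_sum a b hw hre
  have t2 := prime_limit hw hre
  have t3 : Tendsto (fun U => LSeries (fo a b) (2 * w U) - LSeries (fo a b) (w U)) atTop (𝓝 0) := by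
    have hb : Tendsto (fun U => K * ‖(1 + τ * I : ℂ)‖ * ‖w U‖) atTop (𝓝 0) := by
      have := (hw.norm).const_mul (K * ‖(1 + τ * I : ℂ)‖)
      simpa using this
    refine squeeze_zero_norm' ?_ hb
    filter_upwards [hre, hquot] with U hU hq
    have h1 := diff_bound (fo a b) 3 K (fo_le a b) hK (w U) hU
    rw [hq] at h1
    exact h1
  have t4 := (((Complex.continuous_re.tendsto _).comp t1).add
    (((Complex.continuous_re.tendsto _).comp t3).const_mul (1 / 2))).add (t2.const_mul (1 / 2))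
  simp only [zero_re, mul_zero, zero_add] at t4
  have e : 1 / 2 * Real.log 2 = Real.log 2 / 2 := by ring
  rw [e] at t4
  refine t4.congr' ?_
  filter_upwards [hre] with U hU
  simp only [Function.comp_apply]
  have hm := mn_hasSum a b hU
  have hd : Summable (fun p => dd (Good a b) (al a b) p (1 + w U)) :=
    dd_summable (fun p hp => hp.1) (fun p hp => al_norm hp) (by rw [add_re, one_re]; linarith)
  have h5 : ∑' p, dd (Good a b) (al a b) p (1 + w U) =
      ∑' n, (dd (Good a b) (al a b) n (1 + w U) - Mn a b n (w U)) +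
        1 / 2 * ((LSeries (fo a b) (2 * w U) - LSeries (fo a b) (w U)) +
          (LSeries pz (w U) - LSeries pz (2 * w U))) := by
    rw [hd.tsum_sub hm.summable, hm.tsum_eq]
    ring
  have h6 : ∑' p, dd (Good a b) (al a b) p (1 + (1 + τ * I) / U) =
      ∑' p, dd (Good a b) (al a b) p (1 + w U) := rfl
  rw [h6, h5, add_re]
  have h7 : ∀ z : ℂ, (1 / 2 * z).re = 1 / 2 * z.re := by
    intro z
    rw [show (1 / 2 : ℂ) = ((1 / 2 : ℝ) : ℂ) by push_cast; rfl, Complex.re_ofReal_mul]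
  rw [h7, add_re]
  ring

end Pool.Agent.H814R3.BSD.TDD0
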