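import Pool.Agent.H814R3.BSD.Stmts
import Pool.Agent.H304R2.EC.Growth
import Pool.Agent.H304R2.EC.EProd
import Pool.Agent.H304R2.EC.Points
import Pool.Agent.H385R2.EcD4
import Pool.Agent.H385R2.EcD1

/-!
Task E1: analytic continuation and polynomial growth of the `L`-functions of the congruent number
curves `y² = x³ - D² x`, `D` odd and squarefree.
-/

set_option autoImplicit false

open Complex Filter Topology

namespace Pool.Agent.H814R3.BSD.TED

open Pool.Agent.H304R2.EC (FF an aE C0 C0_nonneg FF_le_C0 FF_growth FF_entire FF_series FF_conj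
  an_one an_even an_pow an_mul aE_eq)

/-! ### the Euler product (as in `H385R2/EcFin.lean`) -/

/-- local factors -/
theorem fco_tsum (q : ℕ) [NeZero q] (χ : DirichletCharacter ℂ q) (s : ℂ) (hs : 1 < s.re) (p : ℕ)
    (hp : p.Prime) :
    ∑' e, Pool.Agent.H304R2.EC.EProd.fco q χ s (p ^ e) = if p = 2 then 1 else
      (1 - χ ((p : ℕ) : ZMod q) * (an p : ℂ) * ((p : ℕ) : ℂ) ^ (-(s + 1 / 2)) +
        χ ((p : ℕ) : ZMod q) ^ 2 * ((p : ℕ) : ℂ) ^ (-2 * s))⁻¹ := by
  have hsum : HasSum (Pool.Agent.H304R2.EC.EProd.fco q χ s) (FF q χ s) := FF_series q χ s hs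
  have hf1 : Pool.Agent.H304R2.EC.EProd.fco q χ s 1 = 1 := by
    simp [Pool.Agent.H304R2.EC.EProd.fco, an_one]
  have hpow : Summable (fun e => Pool.Agent.H304R2.EC.EProd.fco q χ s (p ^ e)) :=
    hsum.summable.comp_injective (Nat.pow_right_injective hp.two_le)
  by_cases h2 : p = 2
  · rw [if_pos h2]
    have hval : ∀ e, e ≠ 0 → Pool.Agent.H304R2.EC.EProd.fco q χ s (p ^ e) = 0 := by
      intro e he
      unfold Pool.Agent.H304R2.EC.EProd.fco
      rw [an_even _ (by rw [h2]; exact dvd_pow_self 2 he)]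
      simp
    rw [tsum_eq_single 0 hval]
    simpa using hf1
  · rw [if_neg h2]
    have hp0 : (p : ℂ) ≠ 0 := Nat.cast_ne_zero.mpr hp.ne_zero
    set X : ℂ := χ (p : ZMod q) * (p : ℂ) ^ (-(s + 1 / 2)) with hX
    have hval : ∀ e, Pool.Agent.H304R2.EC.EProd.fco q χ s (p ^ e) = (an (p ^ e) : ℂ) * X ^ e := by
      intro e
      unfold Pool.Agent.H304R2.EC.EProd.fco
      have h1 : ((p ^ e : ℕ) : ℂ) ^ (-(s + 1 / 2)) = ((p : ℂ) ^ (-(s + 1 / 2))) ^ e := by
        induction e with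
        | zero => simp
        | succ e ih =>
          rw [pow_succ, pow_succ, ← ih]
          push_cast
          rw [show ((p : ℂ) ^ e) = ((p ^ e : ℕ) : ℂ) by push_cast; rfl,
            Complex.natCast_mul_natCast_cpow]
      rw [h1, hX]
      push_cast
      rw [map_pow, mul_pow]
      ring
    have hX2 : (p : ℂ) * X ^ 2 = χ (p : ZMod q) ^ 2 * (p : ℂ) ^ (-2 * s) := by
      have h1 : (p : ℂ) ^ (-2 * s) = (p : ℂ) * ((p : ℂ) ^ (-(s + 1 / 2)) *
          (p : ℂ) ^ (-(s + 1 / 2))) := by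
        rw [← Complex.cpow_add _ _ hp0]
        have h2 : (p : ℂ) * (p : ℂ) ^ (-(s + 1 / 2) + -(s + 1 / 2)) =
            (p : ℂ) ^ (1 : ℂ) * (p : ℂ) ^ (-(s + 1 / 2) + -(s + 1 / 2)) := by
          rw [Complex.cpow_one]
        rw [h2, ← Complex.cpow_add _ _ hp0]
        congr 1
        ring
      rw [h1, hX]
      ring
    have key := Pool.Agent.H304R2.EC.EProd.local_factor
      (fun e => Pool.Agent.H304R2.EC.EProd.fco q χ s (p ^ e)) ((an p : ℂ) * X)
      ((p : ℂ) * X ^ 2)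
      (by simpa using hf1) (by
        have := hval 1
        simp only [pow_one] at this ⊢
        exact this) (by
        intro k
        simp only [hval]
        rw [an_pow p hp h2 k]
        push_cast
        ring) hpow
    rw [eq_comm, inv_eq_iff_eq_inv]
    rw [← hX2, show χ ((p : ℕ) : ZMod q) * (an p : ℂ) * ((p : ℕ) : ℂ) ^ (-(s + 1 / 2)) =
      (an p : ℂ) * X by rw [hX]; ring]
    exact eq_inv_of_mul_eq_one_left key

/-- Euler product as an unconditionally convergent product -/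
theorem FF_hasProd (q : ℕ) [NeZero q] (χ : DirichletCharacter ℂ q) (s : ℂ) (hs : 1 < s.re) :
    HasProd (fun p : Nat.Primes => if (p : ℕ) = 2 then 1 else
      (1 - χ ((p : ℕ) : ZMod q) * (an p : ℂ) * ((p : ℕ) : ℂ) ^ (-(s + 1 / 2)) +
        χ ((p : ℕ) : ZMod q) ^ 2 * ((p : ℕ) : ℂ) ^ (-2 * s))⁻¹) (FF q χ s) := by
  have hsum : HasSum (Pool.Agent.H304R2.EC.EProd.fco q χ s) (FF q χ s) := FF_series q χ s hs
  have hf1 : Pool.Agent.H304R2.EC.EProd.fco q χ s 1 = 1 := by
    simp [Pool.Agent.H304R2.EC.EProd.fco, an_one]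
  have hf0 : Pool.Agent.H304R2.EC.EProd.fco q χ s 0 = 0 := by
    simp [Pool.Agent.H304R2.EC.EProd.fco, Pool.Agent.H304R2.EC.EProd.an_zero]
  have hmul : ∀ {m n : ℕ}, m.Coprime n →
      Pool.Agent.H304R2.EC.EProd.fco q χ s (m * n) =
        Pool.Agent.H304R2.EC.EProd.fco q χ s m * Pool.Agent.H304R2.EC.EProd.fco q χ s n := by
    intro m n hmn
    unfold Pool.Agent.H304R2.EC.EProd.fco
    rw [an_mul m n hmn]
    push_cast
    rw [Complex.natCast_mul_natCast_cpow, map_mul]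
    ring
  have hprod := EulerProduct.eulerProduct_hasProd hf1 hmul hsum.summable.norm hf0
  rw [hsum.tsum_eq] at hprod
  have e : (fun p : Nat.Primes => ∑' e, Pool.Agent.H304R2.EC.EProd.fco q χ s ((p : ℕ) ^ e)) = _ :=
    funext (fun p => fco_tsum q χ s hs p p.2)
  rw [e] at hprod
  exact hprod

/-! ### the number of points -/

theorem np_eq (D p : ℕ) (hp : p.Prime) :
    (p : ℂ) - (Pool.Agent.H438R3.BSD.Np (-(D : ℤ) ^ 2) 0 p : ℂ) = (H385.aD D p : ℂ) := by
  have : Fact p.Prime := ⟨hp⟩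
  have : NeZero p := ⟨hp.ne_zero⟩
  classical
  have h1 : ((Finset.range p ×ˢ Finset.range p).filter
    (fun xy : ℕ × ℕ => (p : ℤ) ∣ (xy.2 : ℤ) ^ 2 -
      ((xy.1 : ℤ) ^ 3 - (D : ℤ) ^ 2 * (xy.1 : ℤ)))).card =
      ((Finset.univ : Finset (ZMod p × ZMod p)).filter
        (fun z => z.2 ^ 2 = z.1 ^ 3 + ((-(D : ℤ) ^ 2 : ℤ) : ZMod p) * z.1 +
          ((0 : ℤ) : ZMod p))).card := by
    refine Finset.card_nbij' (fun xy => ((xy.1 : ZMod p), (xy.2 : ZMod p)))
      (fun z => (z.1.val, z.2.val)) ?_ ?_ ?_ ?_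
    · intro xy hxy
      simp only [Finset.coe_filter, Finset.mem_product, Finset.mem_range, Set.mem_setOf_eq,
        Finset.mem_univ, true_and] at hxy ⊢
      have := (ZMod.intCast_zmod_eq_zero_iff_dvd _ p).mpr hxy.2
      push_cast at this ⊢
      linear_combination this
    · intro z hz
      simp only [Finset.coe_filter, Finset.mem_product, Finset.mem_range, Set.mem_setOf_eq,
        Finset.mem_univ, true_and] at hz ⊢
      refine ⟨⟨ZMod.val_lt _, ZMod.val_lt _⟩, ?_⟩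
      rw [← ZMod.intCast_zmod_eq_zero_iff_dvd]
      push_cast at hz ⊢
      rw [ZMod.natCast_zmod_val, ZMod.natCast_zmod_val]
      linear_combination hz
    · intro xy hxy
      simp only [Finset.coe_filter, Finset.mem_product, Finset.mem_range, Set.mem_setOf_eq]
        at hxy
      simp only [ZMod.val_cast_of_lt hxy.1.1, ZMod.val_cast_of_lt hxy.1.2]
    · intro z _
      simp only [ZMod.natCast_zmod_val]
  have h2 : Pool.Agent.H438R3.BSD.Np (-(D : ℤ) ^ 2) 0 p =
      ((Finset.range p ×ˢ Finset.range p).filter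
        (fun xy : ℕ × ℕ => (p : ℤ) ∣ (xy.2 : ℤ) ^ 2 -
          ((xy.1 : ℤ) ^ 3 - (D : ℤ) ^ 2 * (xy.1 : ℤ)))).card := by
    rw [h1]
    unfold Pool.Agent.H438R3.BSD.Np
    rw [Nat.card_eq_fintype_card, Fintype.card_subtype]
  rw [h2]
  unfold H385.aD
  push_cast
  ring

theorem good_iff (D p : ℕ) (hp : p.Prime) :
    Pool.Agent.H438R3.BSD.Good (-(D : ℤ) ^ 2) 0 p ↔ p ≠ 2 ∧ ¬ p ∣ D := by
  unfold Pool.Agent.H438R3.BSD.Good
  have e : (2 * (-4 * (-(D : ℤ) ^ 2) ^ 3 - 27 * 0 ^ 2) : ℤ) = ((2 ^ 3 * D ^ 6 : ℕ) : ℤ) := by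
    push_cast
    ring
  rw [e, Int.natCast_dvd_natCast, hp.dvd_mul]
  constructor
  · rintro ⟨_, h⟩
    push Not at h
    refine ⟨?_, fun h3 => h.2 (dvd_pow h3 (by norm_num))⟩
    rintro rfl
    exact h.1 (by norm_num)
  · rintro ⟨h1, h2⟩
    refine ⟨hp, ?_⟩
    rintro (h | h)
    · exact h1 ((Nat.prime_dvd_prime_iff_eq hp Nat.prime_two).mp (hp.dvd_of_dvd_pow h))
    · exact h2 (hp.dvd_of_dvd_pow h)

theorem conj_self (D : ℕ) [NeZero D] (ψ : DirichletCharacter ℂ D)
    (hj : ∀ n : ℕ, ψ (n : ZMod D) = (jacobiSym n D : ℂ)) : ψ⁻¹ = ψ := by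
  apply MulChar.ext'
  intro a
  rw [MulChar.inv_apply_eq_inv']
  have h : ψ a = (jacobiSym (a.val : ℕ) D : ℂ) := by
    rw [← hj, ZMod.natCast_zmod_val]
  rw [h]
  rcases jacobiSym.trichotomy ((a.val : ℕ) : ℤ) D with h | h | h <;> rw [h] <;> simp

theorem task : TaskED := by
  intro D hD hsf
  have hD0 : D ≠ 0 := by
    rintro rfl
    exact absurd hD (by decide)
  have i2 : NeZero D := ⟨hD0⟩
  obtain ⟨ψ, hψ, hψj⟩ := H385.jac_char D hD hsf
  have hent : Differentiable ℂ (FF D ψ) := FF_entire D hD ψ hψ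
  refine ⟨fun s => FF D ψ (s - 1 / 2), ⟨?_, ?_⟩, ?_⟩
  · exact hent.comp (by fun_prop)
  · intro s hs
    have hs' : 1 < (s - 1 / 2 : ℂ).re := by
      have : (s - 1 / 2 : ℂ).re = s.re - 1 / 2 := by simp
      rw [this]; linarith
    have h := FF_hasProd D ψ (s - 1 / 2) hs'
    have hinj : Function.Injective (fun p : Nat.Primes => (p : ℕ)) := Subtype.val_injective
    refine (hinj.hasProd_iff ?_).mp ?_
    · intro x hx
      rw [if_neg]
      intro hg
      exact hx ⟨⟨x, hg.1⟩, rfl⟩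
    · refine (congrArg (fun f => HasProd f (FF D ψ (s - 1 / 2))) (funext fun p => ?_)).mpr h
      have hp : (p : ℕ).Prime := p.2
      have hg := good_iff D p hp
      simp only [Function.comp_apply]
      have e1 : -(s - 1 / 2 + 1 / 2) = -s := by ring
      have e2 : -2 * (s - 1 / 2) = 1 - 2 * s := by ring
      rw [e1, e2]
      by_cases h2 : (p : ℕ) = 2
      · rw [if_pos h2, if_neg (fun h3 => (hg.mp h3).1 h2)]
      rw [if_neg h2]
      by_cases hpD : (p : ℕ) ∣ D
      · rw [if_neg (fun h3 => (hg.mp h3).2 hpD)]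
        have hz : ψ ((p : ℕ) : ZMod D) = 0 := by
          apply MulChar.map_nonunit
          rw [ZMod.isUnit_iff_coprime, hp.coprime_iff_not_dvd]
          exact fun h => h hpD
        rw [hz]
        simp
      · rw [if_pos (hg.mpr ⟨h2, hpD⟩), np_eq D p hp, hψj, H385.aD_jac D p hD hp h2 hpD,
          aE_eq p hp h2]
        have hj : ((jacobiSym (p : ℕ) D : ℤ) : ℂ) ^ 2 = 1 := by
          have hcop : Int.gcd ((p : ℕ) : ℤ) (D : ℤ) = 1 := by
            rw [Int.gcd_natCast_natCast]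
            exact (hp.coprime_iff_not_dvd).mpr hpD
          rcases jacobiSym.eq_one_or_neg_one hcop with h | h
          · rw [h]; simp
          · rw [h]; simp
        rw [hj]
        push_cast
        ring_nf
  · obtain ⟨A, hA, hgr⟩ := FF_growth
    have hcomp : IsCompact (Set.Icc (1 / 2 : ℝ) (3 / 2) ×ℂ Set.Icc (-1 : ℝ) 1) :=
      isCompact_Icc.reProdIm isCompact_Icc
    obtain ⟨M, hM⟩ := hcomp.exists_bound_of_continuousOn (f := FF D ψ) hent.continuous.continuousOn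
    have hM0 : 0 ≤ |M| := abs_nonneg M
    have hC0 := C0_nonneg
    have hDA : 0 ≤ A * (D : ℝ) ^ A := mul_nonneg (by linarith) (Real.rpow_nonneg (Nat.cast_nonneg D) A)
    refine ⟨C0 + A * (D : ℝ) ^ A + |M|, A, ?_⟩
    intro s hs
    have hz : (s - 1 / 2 : ℂ).re = s.re - 1 / 2 := by simp
    have hzi : (s - 1 / 2 : ℂ).im = s.im := by simp
    have h1 : (1 : ℝ) ≤ (1 + ‖s‖) ^ A :=
      Real.one_le_rpow (by have := norm_nonneg s; linarith) (by linarith)
    have hpow0 : (0 : ℝ) ≤ (1 + ‖s‖) ^ A := by linarith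
    have hdist : (C0 + A * (D : ℝ) ^ A + |M|) * (1 + ‖s‖) ^ A =
        C0 * (1 + ‖s‖) ^ A + A * (D : ℝ) ^ A * (1 + ‖s‖) ^ A + |M| * (1 + ‖s‖) ^ A := by ring
    have t1 : C0 ≤ C0 * (1 + ‖s‖) ^ A := le_mul_of_one_le_right hC0 h1
    have t3 : |M| ≤ |M| * (1 + ‖s‖) ^ A := le_mul_of_one_le_right hM0 h1
    have t2 : 0 ≤ A * (D : ℝ) ^ A * (1 + ‖s‖) ^ A := mul_nonneg hDA hpow0
    change ‖FF D ψ (s - 1 / 2)‖ ≤ _
    rw [hdist]
    by_cases hre : 3 / 2 ≤ (s - 1 / 2 : ℂ).re
    · have := FF_le_C0 D ψ (s - 1 / 2) hre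
      linarith
    push Not at hre
    have him : ∀ y : ℝ, 1 ≤ y → y ≤ ‖s‖ → A * ((D : ℝ) * y) ^ A ≤ A * (D : ℝ) ^ A * (1 + ‖s‖) ^ A := by
      intro y hy1 hy2
      rw [Real.mul_rpow (Nat.cast_nonneg D) (by linarith), ← mul_assoc]
      apply mul_le_mul_of_nonneg_left _ hDA
      exact Real.rpow_le_rpow (by linarith) (by linarith) (by linarith)
    rcases le_or_gt 1 s.im with hi | hi
    · have := hgr D ψ hD hψ (s - 1 / 2) (by rw [hz]; linarith) (by linarith) (by rw [hzi]; exact hi)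
      rw [hzi] at this
      have h5 := him s.im hi ((le_abs_self _).trans (Complex.abs_im_le_norm s))
      linarith
    rcases le_or_gt s.im (-1) with hi2 | hi2
    · have hc : ‖FF D ψ (s - 1 / 2)‖ = ‖FF D ψ ((starRingEnd ℂ) (s - 1 / 2))‖ := by
        have h6 := FF_conj D ψ (s - 1 / 2)
        rw [conj_self D ψ hψj] at h6
        rw [h6, Complex.norm_conj]
      rw [hc]
      have := hgr D ψ hD hψ ((starRingEnd ℂ) (s - 1 / 2))
        (by rw [Complex.conj_re, hz]; linarith) (by rw [Complex.conj_re]; linarith)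
        (by rw [Complex.conj_im, hzi]; linarith)
      rw [Complex.conj_im, hzi] at this
      have h5 := him (-s.im) (by linarith) ((neg_le_abs _).trans (Complex.abs_im_le_norm s))
      linarith
    · have := hM (s - 1 / 2) (by
        rw [Complex.mem_reProdIm, hz, hzi]
        exact ⟨⟨by linarith, by rw [hz] at hre; linarith⟩, ⟨hi2.le, hi.le⟩⟩)
      have h7 := le_abs_self M
      linarith

end Pool.Agent.H814R3.BSD.TED

namespace Pool.Agent.H814R3.BSD

theorem ED_ok : TaskED := TED.task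

end Pool.Agent.H814R3.BSD
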