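import Pool.Agent.H814R3.BSD.Stmts

/-! The logarithm of the `L`-function of a curve without zeros in `Re s > 1`. -/

set_option autoImplicit false

open Complex Filter Topology Finset

namespace Pool.Agent.H814R3.BSD.TEuler

open Pool.Agent.H438R3.BSD

lemma log_le {z : ℂ} (hz : ‖z‖ ≤ 0.71) : ‖-Complex.log (1 - z)‖ ≤ 3 * ‖z‖ := by
  have h4 := rr_le hz
  have e : -Complex.log (1 - z) = rr z + z := by unfold rr; ring
  rw [e]
  have h7 : 0 ≤ ‖z‖ := norm_nonneg _
  refine (norm_add_le _ _).trans ?_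
  nlinarith

section

variable {good : ℕ → Prop} [DecidablePred good] {α : ℕ → ℂ}
variable (hgood : ∀ p, good p → p.Prime) (hα : ∀ p, good p → ‖α p‖ = (p : ℝ) ^ (1 / 2 : ℝ))

include hgood hα

lemma LL_le (p : ℕ) (s : ℂ) (hs : 1 ≤ s.re) :
    ‖LL good α p s‖ ≤ 6 * (p : ℝ) ^ (1 / 2 - s.re) := by
  unfold LL
  split_ifs with hp
  · have hp2 : (2 : ℝ) ≤ p := by exact_mod_cast (hgood p hp).two_le
    have h1 := norm_a (hgood p hp) (hα p hp) s
    have h2 := norm_a (hgood p hp) (norm_conj_alpha hgood hα hp) s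
    have h3 := log_le (z := α p * (p : ℂ) ^ (-s)) (by rw [h1]; exact x_rpow_le hp2 (by linarith))
    have h4 := log_le (z := starRingEnd ℂ (α p) * (p : ℂ) ^ (-s))
      (by rw [h2]; exact x_rpow_le hp2 (by linarith))
    rw [h1] at h3
    rw [h2] at h4
    refine (norm_add_le _ _).trans ?_
    linarith
  · simp only [norm_zero]; positivity

lemma LL_diff (p : ℕ) {s : ℂ} (hs : 1 ≤ s.re) : DifferentiableAt ℂ (LL good α p) s := by
  by_cases hp : good p
  · have hp2 : (2 : ℝ) ≤ p := by exact_mod_cast (hgood p hp).two_le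
    have hpc : (p : ℂ) ≠ 0 := by exact_mod_cast (hgood p hp).ne_zero
    have key : ∀ β : ℂ, ‖β‖ = (p : ℝ) ^ (1 / 2 : ℝ) →
        DifferentiableAt ℂ (fun s : ℂ => -Complex.log (1 - β * (p : ℂ) ^ (-s))) s := by
      intro β hβ
      have d1 : DifferentiableAt ℂ (fun s : ℂ => (p : ℂ) ^ (-s)) s :=
        DifferentiableAt.const_cpow (by fun_prop) (Or.inl hpc)
      have h1 := norm_a (hgood p hp) hβ s
      have h2 : ‖β * (p : ℂ) ^ (-s)‖ < 1 := by
        rw [h1]
        exact lt_of_le_of_lt (x_rpow_le hp2 (by linarith)) (by norm_num)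
      have h3 : 1 - β * (p : ℂ) ^ (-s) ∈ slitPlane := by
        have := Complex.mem_slitPlane_of_norm_lt_one (z := -(β * (p : ℂ) ^ (-s)))
          (by rwa [norm_neg])
        rwa [← sub_eq_add_neg] at this
      have d3 : DifferentiableAt ℂ (fun s : ℂ => β * (p : ℂ) ^ (-s)) s := d1.const_mul _
      have d4 : DifferentiableAt ℂ (fun s : ℂ => Complex.log (1 - β * (p : ℂ) ^ (-s))) s :=
        (d3.const_sub 1).clog h3
      exact d4.neg
    have e : LL good α p = fun s => -Complex.log (1 - α p * (p : ℂ) ^ (-s)) +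
        -Complex.log (1 - starRingEnd ℂ (α p) * (p : ℂ) ^ (-s)) := by
      funext s; unfold LL; rw [if_pos hp]
    rw [e]
    exact (key _ (hα p hp)).add (key _ (norm_conj_alpha hgood hα hp))
  · have e : LL good α p = fun s => 0 := by funext s; unfold LL; rw [if_neg hp]
    rw [e]
    exact differentiableAt_const _

lemma LL_summable {s : ℂ} (hs : 3 / 2 < s.re) : Summable (fun p => LL good α p s) := by
  refine Summable.of_norm_bounded
    ((Real.summable_nat_rpow.2 (by linarith : 1 / 2 - s.re < -1)).mul_left 6) ?_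
  exact fun p => LL_le hgood hα p s (by linarith)

lemma LL_le' {t : ℝ} (ht : 3 / 2 ≤ t) (p : ℕ) (s : ℂ) (hs : t ≤ s.re) :
    ‖LL good α p s‖ ≤ 6 * (p : ℝ) ^ (1 / 2 - t) := by
  refine (LL_le hgood hα p s (by linarith)).trans ?_
  rcases Nat.eq_zero_or_pos p with h0 | h0
  · rw [h0]
    simp only [Nat.cast_zero]
    rw [Real.zero_rpow (by linarith), Real.zero_rpow (by linarith)]
  · have hp1 : (1 : ℝ) ≤ p := by exact_mod_cast h0
    refine mul_le_mul_of_nonneg_left ?_ (by norm_num)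
    exact Real.rpow_le_rpow_of_exponent_le hp1 (by linarith)

lemma SS_differentiable :
    DifferentiableOn ℂ (fun s => ∑' p, LL good α p s) {s | (3 : ℝ) / 2 < s.re} := by
  intro s0 hs0
  have hs0' : (3 : ℝ) / 2 < s0.re := hs0
  set t := (3 / 2 + s0.re) / 2 with ht
  have ht1 : 3 / 2 < t := by rw [ht]; linarith
  have ht2 : t < s0.re := by rw [ht]; linarith
  have hd : DifferentiableOn ℂ (fun s => ∑' p, LL good α p s) {s | t < s.re} := by
    refine differentiableOn_tsum_of_summable_norm (u := fun p : ℕ => 6 * (p : ℝ) ^ (1 / 2 - t))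
      ((Real.summable_nat_rpow.2 (by linarith : 1 / 2 - t < -1)).mul_left 6) (fun p => ?_)
      (Complex.isOpen_re_gt t) (fun p s hs => ?_)
    · intro s hs
      have hs1 : 1 ≤ s.re := by have : t < s.re := hs; linarith
      exact (LL_diff hgood hα p hs1).differentiableWithinAt
    · have hs' : t < s.re := hs
      exact LL_le' hgood hα ht1.le p s hs'.le
  exact (hd.differentiableAt ((Complex.isOpen_re_gt t).mem_nhds ht2)).differentiableWithinAt

lemma exp_SS {F : ℂ → ℂ} {s : ℂ} (hs : 3 / 2 < s.re)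
    (hprod : HasProd (fun p : ℕ => if good p then
      ((1 - α p * (p : ℂ) ^ (-s)) * (1 - starRingEnd ℂ (α p) * (p : ℂ) ^ (-s)))⁻¹ else 1) (F s)) :
    F s = exp (∑' p, LL good α p s) := by
  have hLL := (LL_summable hgood hα hs).hasSum
  refine hprod.unique ?_
  have h2 := hLL.cexp
  convert h2 using 1
  funext p
  simp only [Function.comp_apply]
  unfold LL
  split_ifs with hp
  · have hpp := hgood p hp
    have hp2 : (2 : ℝ) ≤ p := by exact_mod_cast hpp.two_le
    have hne : ∀ β : ℂ, ‖β‖ = (p : ℝ) ^ (1 / 2 : ℝ) → 1 - β * (p : ℂ) ^ (-s) ≠ 0 := by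
      intro β hβ h0
      have h3 := norm_a hpp hβ s
      have h4 : ‖β * (p : ℂ) ^ (-s)‖ < 1 := by
        rw [h3]; exact lt_of_le_of_lt (x_rpow_le hp2 (by linarith)) (by norm_num)
      have h5 : β * (p : ℂ) ^ (-s) = 1 := (sub_eq_zero.1 h0).symm
      rw [h5, norm_one] at h4
      exact lt_irrefl _ h4
    rw [Complex.exp_add, Complex.exp_neg, Complex.exp_neg, Complex.exp_log (hne _ (hα p hp)),
      Complex.exp_log (hne _ (norm_conj_alpha hgood hα hp)), mul_inv]
  · rw [Complex.exp_zero]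

end

open Classical in
theorem euler_ok (h : TaskLog) : TaskEuler := by
  intro a b F hF hne
  have hg : ∀ p, Good a b p → p.Prime := fun p hp => hp.1
  have ha : ∀ p, Good a b p → ‖al a b p‖ = (p : ℝ) ^ (1 / 2 : ℝ) := fun p hp => al_norm hp
  have hadd : Differentiable ℂ (fun w : ℂ => 1 + w) := by fun_prop
  have hFd : Differentiable ℂ (fun w : ℂ => F (1 + w)) := hF.1.comp hadd
  set S : ℂ → ℂ := fun w => ∑' p, LL (Good a b) (al a b) p (1 + w) with hS
  have hre : ∀ w : ℂ, 1 / 2 < w.re → 3 / 2 < (1 + w).re := by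
    intro w hw; simp only [add_re, one_re]; linarith
  have hSsum : ∀ w : ℂ, 1 / 2 < w.re →
      HasSum (fun p : ℕ => LL (Good a b) (al a b) p (1 + w)) (S w) := by
    intro w hw
    exact (LL_summable hg ha (hre w hw)).hasSum
  have hopen : IsOpen {w : ℂ | (1 : ℝ) / 2 < w.re} := Complex.isOpen_re_gt _
  have hSd : DifferentiableOn ℂ S {w : ℂ | (1 : ℝ) / 2 < w.re} := by
    have h1 := SS_differentiable hg ha
    exact h1.comp hadd.differentiableOn (fun w hw => hre w hw)
  have hSe : ∀ w : ℂ, 1 / 2 < w.re → exp (S w) = F (1 + w) := by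
    intro w hw
    exact (exp_SS hg ha (hre w hw) (prod_of_isL hF (1 + w) (hre w hw))).symm
  obtain ⟨L0, hL0, hL0e⟩ := h (fun w => F (1 + w)) hFd.differentiableOn (by
    intro w hw
    apply hne
    simp only [add_re, one_re]; linarith)
  have hsub : {w : ℂ | (1 : ℝ) / 2 < w.re} ⊆ {w : ℂ | 0 < w.re} := by
    intro w hw
    have h1 : (1 : ℝ) / 2 < w.re := hw
    show 0 < w.re
    linarith
  have hD : DifferentiableOn ℂ (fun w => L0 w - S w) {w : ℂ | (1 : ℝ) / 2 < w.re} :=
    (hL0.mono hsub).sub hSd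
  have hexp : ∀ w : ℂ, 1 / 2 < w.re → exp (L0 w - S w) = 1 := by
    intro w hw
    have hw0 : 0 < w.re := by linarith
    rw [Complex.exp_sub, hL0e w hw0, hSe w hw, div_self]
    apply hne
    simp only [add_re, one_re]; linarith
  have hconv : Convex ℝ {w : ℂ | (1 : ℝ) / 2 < w.re} := convex_halfSpace_re_gt _
  have hpre : IsPreconnected {w : ℂ | (1 : ℝ) / 2 < w.re} := hconv.isPreconnected
  have hderiv : Set.EqOn (deriv (fun w => L0 w - S w)) 0 {w : ℂ | (1 : ℝ) / 2 < w.re} := by
    intro w hw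
    have hd : DifferentiableAt ℂ (fun w => L0 w - S w) w := hD.differentiableAt (hopen.mem_nhds hw)
    have h1 : HasDerivAt (fun w => exp (L0 w - S w))
        (exp (L0 w - S w) * deriv (fun w => L0 w - S w) w) w := hd.hasDerivAt.cexp
    have h2 : (fun w => exp (L0 w - S w)) =ᶠ[𝓝 w] fun _ => (1 : ℂ) := by
      filter_upwards [hopen.mem_nhds hw] with z hz
      exact hexp z hz
    have h3 : HasDerivAt (fun _ : ℂ => (1 : ℂ))
        (exp (L0 w - S w) * deriv (fun w => L0 w - S w) w) w := h1.congr_of_eventuallyEq h2.symm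
    have h4 := h3.unique (hasDerivAt_const w (1 : ℂ))
    rw [hexp w hw, one_mul] at h4
    exact h4
  obtain ⟨c, hc⟩ := hopen.exists_is_const_of_deriv_eq_zero hpre hD hderiv
  have hc1 : exp c = 1 := by
    have h1 := hexp 1 (by norm_num)
    have h2 := hc 1 (by show (1 : ℝ) / 2 < (1 : ℂ).re; norm_num)
    rw [h2] at h1
    exact h1
  have hLS : ∀ w : ℂ, 1 / 2 < w.re → L0 w - c = S w := by
    intro w hw
    have h2 := hc w hw
    rw [← h2]; ring
  refine ⟨fun w => L0 w - c, hL0.sub_const c, ?_, ?_, ?_⟩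
  · intro w hw
    show exp (L0 w - c) = F (1 + w)
    rw [Complex.exp_sub, hc1, div_one, hL0e w hw]
  · intro w hw
    show HasSum _ (L0 w - c)
    rw [hLS w hw]
    exact hSsum w hw
  · refine ⟨∑' p : ℕ, 6 * (p : ℝ) ^ (1 / 2 - 2 : ℝ), ?_⟩
    intro w hw
    show ‖L0 w - c‖ ≤ _
    rw [hLS w (by linarith)]
    have hs : Summable (fun p : ℕ => 6 * (p : ℝ) ^ (1 / 2 - 2 : ℝ)) :=
      (Real.summable_nat_rpow.2 (by norm_num)).mul_left 6
    refine tsum_of_norm_bounded hs.hasSum (fun p => ?_)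
    refine LL_le' hg ha (by norm_num) p (1 + w) ?_
    simp only [add_re, one_re]; linarith

end Pool.Agent.H814R3.BSD.TEuler
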