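import Pool.Agent.H814R3.BSD.Stmts
import Pool.Agent.H304R2.EC.RS
import Pool.Agent.H304R2.EC.Points
import Pool.Agent.H385R2.EcD4

/-! The Rankin-Selberg mean value for the congruent number curves (helper798). -/

set_option autoImplicit false

open Finset Filter Topology

namespace Pool.Agent.H814R3.BSD.TRS

open Pool.Agent.H438R3.BSD Pool.Agent.H814R3.BSD Pool.Agent.H304R2.EC

/-- good primes of `y² = x³ - D² x` -/
lemma good_iff (D p : ℕ) : Good (-(D : ℤ) ^ 2) 0 p ↔ p.Prime ∧ p ≠ 2 ∧ ¬ p ∣ D := by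
  unfold Good
  have e : (2 * (-4 * (-(D : ℤ) ^ 2) ^ 3 - 27 * 0 ^ 2) : ℤ) = ((2 ^ 3 * D ^ 6 : ℕ) : ℤ) := by
    push_cast; ring
  rw [e, Int.natCast_dvd_natCast]
  constructor
  · rintro ⟨hp, h⟩
    refine ⟨hp, ?_, ?_⟩
    · rintro rfl
      exact h (Dvd.dvd.mul_right (dvd_pow_self 2 (by norm_num)) _)
    · intro h2
      exact h (Dvd.dvd.mul_left (h2.trans (dvd_pow_self D (by norm_num))) _)
  · rintro ⟨hp, h2, hD⟩
    refine ⟨hp, fun h => ?_⟩
    rcases (Nat.Prime.dvd_mul hp).mp h with h | h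
    · exact h2 ((Nat.prime_dvd_prime_iff_eq hp Nat.prime_two).mp (hp.dvd_of_dvd_pow h))
    · exact hD (hp.dvd_of_dvd_pow h)

/-- the number of points -/
lemma Np_eq (D p : ℕ) (hp : p.Prime) : (p : ℤ) - Np (-(D : ℤ) ^ 2) 0 p = H385.aD D p := by
  classical
  have : Fact p.Prime := ⟨hp⟩
  unfold H385.aD Np
  congr 2
  rw [Nat.card_eq_fintype_card, Fintype.card_subtype]
  symm
  refine Finset.card_nbij' (fun xy => ((xy.1 : ZMod p), (xy.2 : ZMod p)))
    (fun z => (z.1.val, z.2.val)) ?_ ?_ ?_ ?_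
  · intro xy hxy
    simp only [Finset.coe_filter, Finset.mem_product, Finset.mem_range, Set.mem_setOf_eq,
      Finset.mem_univ, true_and] at hxy ⊢
    have := (ZMod.intCast_zmod_eq_zero_iff_dvd _ p).mpr hxy.2
    push_cast at this ⊢
    rw [sub_eq_zero.mp this]
    ring
  · intro z hz
    simp only [Finset.coe_filter, Finset.mem_product, Finset.mem_range, Set.mem_setOf_eq,
      Finset.mem_univ, true_and] at hz ⊢
    refine ⟨⟨ZMod.val_lt _, ZMod.val_lt _⟩, ?_⟩
    rw [← ZMod.intCast_zmod_eq_zero_iff_dvd]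
    push_cast at hz ⊢
    rw [ZMod.natCast_zmod_val, ZMod.natCast_zmod_val, hz]
    ring
  · intro xy hxy
    simp only [Finset.coe_filter, Finset.mem_product, Finset.mem_range, Set.mem_setOf_eq]
      at hxy
    simp only [ZMod.val_cast_of_lt hxy.1.1, ZMod.val_cast_of_lt hxy.1.2]
  · intro z _
    simp only [ZMod.natCast_zmod_val]

/-- the square of the trace of Frobenius -/
lemma sq_eq (D p : ℕ) (hD : Odd D) (hp : p.Prime) (h2 : p ≠ 2) (hpD : ¬ p ∣ D) :
    ((p : ℝ) - Np (-(D : ℤ) ^ 2) 0 p) ^ 2 / p = (cc p) ^ 2 := by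
  have h1 := Np_eq D p hp
  rw [H385.aD_jac D p hD hp h2 hpD, aE_eq p hp h2] at h1
  have hp0 : (0 : ℝ) < p := by exact_mod_cast hp.pos
  have hj : (jacobiSym p D : ℤ) ^ 2 = 1 := by
    apply jacobiSym.sq_one
    rw [Int.gcd_natCast_natCast]
    exact (Nat.Prime.coprime_iff_not_dvd hp).mpr hpD
  have h3 : ((p : ℤ) - Np (-(D : ℤ) ^ 2) 0 p) ^ 2 = (an p) ^ 2 := by
    rw [h1, mul_pow, hj, one_mul]
  have h4 : ((p : ℝ) - Np (-(D : ℤ) ^ 2) 0 p) ^ 2 = (an p : ℝ) ^ 2 := by
    exact_mod_cast h3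
  rw [h4, cc_prime p hp h2, div_pow, Real.sq_sqrt hp0.le]

open Classical in
theorem RS_ok : Pool.Agent.H814R3.BSD.TaskRS := by
  intro D hD _
  obtain ⟨C, hC, h⟩ := rs_one
  have hD0 : D ≠ 0 := by
    rintro rfl
    exact absurd hD (by decide)
  set S : ℝ := ∑' n, npr n with hS
  have hS0 : 0 ≤ S := tsum_nonneg npr_nonneg
  have hL : ∀ n : ℕ, 0 ≤ ArithmeticFunction.vonMangoldt n / (n : ℝ) := fun n =>
    div_nonneg ArithmeticFunction.vonMangoldt_nonneg (Nat.cast_nonneg n)
  set T : ℝ := ∑ n ∈ Icc 1 (2 * D), 4 * (ArithmeticFunction.vonMangoldt n / (n : ℝ)) with hT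
  refine ⟨C + (4 * S + T), fun N hN => ?_⟩
  have hsum : ∑ p ∈ (Finset.Icc 1 N).filter (Good (-(D : ℤ) ^ 2) 0),
      ((p : ℝ) - Np (-(D : ℤ) ^ 2) 0 p) ^ 2 / p * (Real.log p / p) =
      ∑ n ∈ Finset.Icc 1 N, if Good (-(D : ℤ) ^ 2) 0 n then
        ArithmeticFunction.vonMangoldt n * (cc n) ^ 2 / n else 0 := by
    rw [Finset.sum_filter]
    refine Finset.sum_congr rfl fun p _ => ?_
    by_cases hg : Good (-(D : ℤ) ^ 2) 0 p
    · rw [if_pos hg, if_pos hg]
      obtain ⟨hp, h2, hpD⟩ := (good_iff D p).mp hg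
      rw [sq_eq D p hD hp h2 hpD, ArithmeticFunction.vonMangoldt_apply_prime hp]
      ring
    · rw [if_neg hg, if_neg hg]
  have hdiff : |(∑ n ∈ Finset.Icc 1 N, if Good (-(D : ℤ) ^ 2) 0 n then
        ArithmeticFunction.vonMangoldt n * (cc n) ^ 2 / n else 0) -
      ∑ n ∈ Icc 1 N, ArithmeticFunction.vonMangoldt n * (cc n) ^ 2 / n| ≤ 4 * S + T := by
    rw [← Finset.sum_sub_distrib]
    calc _ ≤ ∑ n ∈ Icc 1 N, |(if Good (-(D : ℤ) ^ 2) 0 n then
        ArithmeticFunction.vonMangoldt n * (cc n) ^ 2 / n else 0) -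
        ArithmeticFunction.vonMangoldt n * (cc n) ^ 2 / n| := Finset.abs_sum_le_sum_abs _ _
      _ ≤ ∑ n ∈ Icc 1 N, (4 * npr n + if n ∈ Icc 1 (2 * D) then
          4 * (ArithmeticFunction.vonMangoldt n / (n : ℝ)) else 0) := by
        refine Finset.sum_le_sum fun n hn => ?_
        have hn1 : 1 ≤ n := (Finset.mem_Icc.mp hn).1
        have hi : 0 ≤ if n ∈ Icc 1 (2 * D) then
          4 * (ArithmeticFunction.vonMangoldt n / (n : ℝ)) else 0 := by
          split_ifs
          · have := hL n; positivity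
          · exact le_rfl
        by_cases hg : Good (-(D : ℤ) ^ 2) 0 n
        · rw [if_pos hg, sub_self, abs_zero]
          have := npr_nonneg n
          linarith
        · rw [if_neg hg, zero_sub, abs_neg]
          have e1 : ArithmeticFunction.vonMangoldt n * (cc n) ^ 2 / (n : ℝ) =
              (cc n) ^ 2 * (ArithmeticFunction.vonMangoldt n / n) := by ring
          rw [e1, abs_of_nonneg (mul_nonneg (sq_nonneg _) (hL n))]
          have e2 : (cc n) ^ 2 * (ArithmeticFunction.vonMangoldt n / n) ≤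
              4 * (ArithmeticFunction.vonMangoldt n / n) :=
            mul_le_mul_of_nonneg_right (cc_sq_le n) (hL n)
          refine e2.trans ?_
          by_cases hp : n.Prime
          · have hm : n ∈ Icc 1 (2 * D) := by
              rw [Finset.mem_Icc]
              refine ⟨hn1, ?_⟩
              by_contra hlt
              push Not at hlt
              apply hg
              rw [good_iff]
              refine ⟨hp, by omega, fun hd => ?_⟩
              have := Nat.le_of_dvd (Nat.pos_of_ne_zero hD0) hd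
              omega
            rw [if_pos hm]
            have := npr_nonneg n
            linarith
          · have e3 : npr n = ArithmeticFunction.vonMangoldt n / n := by
              unfold npr; rw [if_neg hp]
            rw [e3]
            linarith
      _ = 4 * ∑ n ∈ Icc 1 N, npr n + ∑ n ∈ Icc 1 N, (if n ∈ Icc 1 (2 * D) then
          4 * (ArithmeticFunction.vonMangoldt n / (n : ℝ)) else 0) := by
        rw [Finset.sum_add_distrib, Finset.mul_sum]
      _ ≤ 4 * S + T := by
        have a1 : ∑ n ∈ Icc 1 N, npr n ≤ S :=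
          npr_summable.sum_le_tsum _ (fun n _ => npr_nonneg n)
        have a2 : ∑ n ∈ Icc 1 N, (if n ∈ Icc 1 (2 * D) then
          4 * (ArithmeticFunction.vonMangoldt n / (n : ℝ)) else 0) ≤ T := by
          rw [← Finset.sum_filter, hT]
          refine Finset.sum_le_sum_of_subset_of_nonneg ?_ (fun n _ _ => ?_)
          · intro n hn
            exact (Finset.mem_filter.mp hn).2
          · have := hL n; positivity
        linarith
  rw [hsum]
  have h0 := h N hN
  rw [abs_le] at hdiff h0 ⊢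
  constructor <;> linarith [hdiff.1, hdiff.2, h0.1, h0.2]

end Pool.Agent.H814R3.BSD.TRS
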