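import Pool.Agent.H814R3.BSD.Asm3
import Pool.Agent.H814R3.BSD.BCx
import Pool.Agent.H814R3.BSD.T_Avg
import Pool.Agent.H814R3.BSD.T_Avg2
import Pool.Agent.H814R3.BSD.T_DD
import Pool.Agent.H814R3.BSD.T_DD0
import Pool.Agent.H814R3.BSD.T_ED
import Pool.Agent.H814R3.BSD.T_Euler
import Pool.Agent.H814R3.BSD.T_Inv
import Pool.Agent.H814R3.BSD.T_Kap
import Pool.Agent.H814R3.BSD.T_Lim
import Pool.Agent.H814R3.BSD.T_Log
import Pool.Agent.H814R3.BSD.T_Perron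
import Pool.Agent.H814R3.BSD.T_Pois
import Pool.Agent.H814R3.BSD.T_RS
import Pool.Agent.H814R3.BSD.T_Shift
import Pool.Agent.H814R3.BSD.T_Z
import Pool.Agent.H814R3.BSD.T_Z0

set_option autoImplicit false

open Complex Filter Topology

namespace Pool.Agent.H814R3.BSD

open Pool.Agent.H438R3.BSD

theorem avgLimit : AvgLimit := fun a b hab F hF hgr hRS hRH m g hga hg1 hfac =>
  avg_limit (TPerron.perron_ok TKap.kap_ok (TInv.inv_ok TKap.kap_ok) TShift.shift_ok) BCx.bc_ok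
    TPois.pois_ok (TEuler.euler_ok log_ok) taskZ TZ0.Z0_ok TDD.dd_ok TDD0.DD0_ok taskAvg taskAvg2
    (TLim.lim_ok TKap.kap_ok (TInv.inv_ok TKap.kap_ok)) a b hab F hF hgr hRS hRH m g hga hg1 hfac

/-- The congruent number curves. -/
theorem congruent (D : ℕ) (hD : Odd D) (hsf : Squarefree D) :
    ∃ F : ℂ → ℂ, IsL (-(D : ℤ) ^ 2) 0 F ∧
      ∃ (m : ℕ) (l : ℂ), analyticOrderAt F 1 = m ∧ l ≠ 0 ∧
      Tendsto (fun s : ℂ => F s / (s - 1) ^ m) (𝓝[≠] 1) (𝓝 l) ∧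
      ∀ κ : ℝ, List.TFAE [
        (∀ s : ℂ, 1 < s.re → F s ≠ 0) ∧ κ = m,
        κ ≤ m ∧ ∃ K : ℝ, ∀ n : ℕ, LA (-(D : ℤ) ^ 2) 0 κ n ≤ K,
        ∃ K : ℝ, ∀ n : ℕ, |LA (-(D : ℤ) ^ 2) 0 κ n| ≤ K,
        ∃ t : ℝ, Tendsto (fun n : ℕ => LA (-(D : ℤ) ^ 2) 0 κ n) atTop (𝓝 t),
        Tendsto (fun n : ℕ => LA (-(D : ℤ) ^ 2) 0 κ n) atTop
          (𝓝 (Real.log 2 / 2 + κ * Real.eulerMascheroniConstant - Real.log ‖l‖))] := by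
  obtain ⟨F, hF, hgr⟩ := ED_ok D hD hsf
  refine ⟨F, hF, equiv avgLimit _ _ ?_ F hF hgr (TRS.RS_ok D hD hsf)⟩
  have h0 : (D : ℤ) ≠ 0 := by
    have := hsf.ne_zero
    exact_mod_cast this
  have h1 : 0 < (D : ℤ) ^ 2 := by positivity
  have h2 : 4 * (-(D : ℤ) ^ 2) ^ 3 + 27 * (0 : ℤ) ^ 2 = -(4 * ((D : ℤ) ^ 2) ^ 3) := by ring
  rw [h2]
  have h3 : 0 < 4 * ((D : ℤ) ^ 2) ^ 3 := by positivity
  omega

end Pool.Agent.H814R3.BSD
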