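import Pool.Agent.H814R3.BSD.Stmts

set_option autoImplicit false

open Complex Filter Topology Finset MeasureTheory

namespace Pool.Agent.H814R3.BSD

open Pool.Agent.H438R3.BSD
open Classical

section coeffs

variable (a b : ℤ) (m : ℕ)

/-- the coefficients -/
noncomputable def cf (n : ℕ) : ℝ := ell (Good a b) (al a b) n - m * zz n

lemma good_prime : ∀ p, Good a b p → p.Prime := fun _ hp => hp.1

lemma good_norm : ∀ p, Good a b p → ‖al a b p‖ = (p : ℝ) ^ (1 / 2 : ℝ) := fun _ hp => al_norm hp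

lemma ell_zero : ell (Good a b) (al a b) 0 = 0 := by
  have : ¬ Good a b 0 := fun h => Nat.not_prime_zero h.1
  simp [ell, this]

lemma zz_zero : zz 0 = 0 := by simp [zz]

lemma cf_zero : cf a b m 0 = 0 := by simp [cf, ell_zero, zz_zero]

lemma zz_nonneg (n : ℕ) : 0 ≤ zz n := by
  unfold zz
  split_ifs with h
  · have : 0 ≤ Real.log n := Real.log_natCast_nonneg n
    positivity
  · exact le_rfl

lemma zz_le (n : ℕ) (hn : 1 ≤ n) : zz n ≤ 2 * (n : ℝ) ^ (-(1 / 2) : ℝ) := by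
  have hn1 : (1 : ℝ) ≤ n := by exact_mod_cast hn
  unfold zz
  split_ifs with h
  · have h2 : (2 : ℝ) ≤ n := by exact_mod_cast h
    have hl : 1 / 2 ≤ Real.log n := by
      have h3 := Real.log_two_gt_d9
      have h4 : Real.log 2 ≤ Real.log n := Real.log_le_log (by norm_num) h2
      linarith
    have h5 : (1 : ℝ) / (n * Real.log n) ≤ 2 * (n : ℝ) ^ (-1 : ℝ) := by
      rw [Real.rpow_neg_one, div_le_iff₀ (by positivity)]
      have : 2 * (n : ℝ)⁻¹ * (n * Real.log n) = 2 * Real.log n := by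
        field_simp
      rw [this]
      linarith
    refine h5.trans ?_
    refine mul_le_mul_of_nonneg_left ?_ (by norm_num)
    exact Real.rpow_le_rpow_of_exponent_le hn1 (by norm_num)
  · positivity

lemma cf_le (n : ℕ) (hn : 1 ≤ n) : |cf a b m n| ≤ (5 + 2 * m) * (n : ℝ) ^ (-(1 / 2) : ℝ) := by
  unfold cf
  have h1 := ell_le (good_prime a b) (good_norm a b) n hn
  have h2 := zz_le n hn
  have h3 := zz_nonneg n
  have h4 : |(m : ℝ) * zz n| ≤ m * (2 * (n : ℝ) ^ (-(1 / 2) : ℝ)) := by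
    rw [abs_mul, abs_of_nonneg h3, abs_of_nonneg (by positivity : (0 : ℝ) ≤ m)]
    exact mul_le_mul_of_nonneg_left h2 (by positivity)
  calc |ell (Good a b) (al a b) n - m * zz n| ≤ |ell (Good a b) (al a b) n| + |(m : ℝ) * zz n| :=
        abs_sub _ _
    _ ≤ _ := by linarith

lemma cf_summable : Summable (fun n : ℕ => |cf a b m n| / n) := by
  refine Summable.of_nonneg_of_le (fun n => by positivity) (fun n => ?_)
    ((Real.summable_nat_rpow.2 (by norm_num : (-(3 / 2) : ℝ) < -1)).mul_left (5 + 2 * (m : ℝ)))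
  rcases Nat.eq_zero_or_pos n with h | h
  · subst h
    simp only [Nat.cast_zero, div_zero]
    positivity
  · have hn0 : (0 : ℝ) < n := by exact_mod_cast h
    have h1 := cf_le a b m n h
    rw [div_le_iff₀ hn0]
    refine h1.trans (le_of_eq ?_)
    rw [mul_assoc]
    congr 1
    have : (n : ℝ) ^ (-(3 / 2) : ℝ) * n = (n : ℝ) ^ (-(3 / 2) : ℝ) * (n : ℝ) ^ (1 : ℝ) := by
      rw [Real.rpow_one]
    rw [this, ← Real.rpow_add hn0]
    norm_num

lemma sum_cf (j : ℕ) : ∑ k ∈ Finset.Icc 1 j, cf a b m k =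
    Real.log (EP a b j) - m * ∑ k ∈ Finset.Icc 1 j, zz k := by
  unfold cf
  rw [Finset.sum_sub_distrib, ← Finset.mul_sum, log_EP]
  congr 1
  refine Finset.sum_congr rfl fun p _ => ?_
  split_ifs with hp
  · rfl
  · have : ¬ Good a b p := fun h => hp h.1
    simp [ell, this]

end coeffs

section main

variable {a b : ℤ} {F : ℂ → ℂ}

/-- the sum of the local error terms -/
noncomputable def DDf (a b : ℤ) (w : ℂ) : ℂ := ∑' p, dd (Good a b) (al a b) p (1 + w)

/-- the continuation of the Dirichlet series of `cf` -/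
noncomputable def HH (a b : ℤ) (m : ℕ) (L : ℂ → ℂ) (w : ℂ) : ℂ := DDf a b w - L w - m * ZZ w

lemma HH_series (hZ : TaskZ) (m : ℕ) (L : ℂ → ℂ)
    (hL : ∀ w : ℂ, 1 / 2 < w.re → HasSum (fun p : ℕ => LL (Good a b) (al a b) p (1 + w)) (L w))
    (w : ℂ) (hw : 1 ≤ w.re) : HH a b m L w = LSeries (fun n => (cf a b m n : ℂ)) w := by
  have h1 : HasSum (fun p => dd (Good a b) (al a b) p (1 + w)) (DDf a b w) :=
    (dd_summable (good_prime a b) (good_norm a b) (s := 1 + w) (by simp; linarith)).hasSum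
  have h2 := hL w (by linarith)
  have h3 : HasSum (LSeries.term (fun n => (zz n : ℂ)) w) (ZZ w) := (hZ.2.1 w (by linarith)).hasSum
  have h4 := (h1.sub h2).sub (h3.mul_left (m : ℂ))
  unfold HH LSeries
  rw [← h4.tsum_eq]
  congr 1
  funext n
  rw [dd_eq (good_prime a b) (good_norm a b)]
  rcases Nat.eq_zero_or_pos n with h | h
  · subst h
    simp [ell_zero]
  · rw [LSeries.term_of_ne_zero (by omega), LSeries.term_of_ne_zero (by omega)]
    unfold cf
    have e : (1 : ℂ) - (1 + w) = -w := by ring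
    rw [e, Complex.cpow_neg]
    push_cast
    ring

lemma DDf_diff (a b : ℤ) : DifferentiableOn ℂ (DDf a b) {w | 0 < w.re} := by
  have h := DD_differentiable (good_prime a b) (good_norm a b)
  have h2 : DifferentiableOn ℂ (fun w : ℂ => 1 + w) {w | 0 < w.re} := by fun_prop
  exact h.comp h2 (fun w (hw : 0 < w.re) => by
    show 1 < (1 + w).re
    simp only [add_re, one_re]
    linarith)

lemma HH_diff (hZ : TaskZ) (m : ℕ) (L : ℂ → ℂ) (hL : DifferentiableOn ℂ L {w | 0 < w.re}) :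
    DifferentiableOn ℂ (HH a b m L) {w | 0 < w.re} :=
  ((DDf_diff a b).sub hL).sub (hZ.1.const_mul _)

lemma DDf_bound (a b : ℤ) (σ : ℝ) (hσ : 0 < σ) : ∃ B : ℝ, 0 ≤ B ∧ ∀ w : ℂ, σ ≤ w.re → ‖DDf a b w‖ ≤ B := by
  have hs := (Real.summable_nat_rpow.2 (by linarith : -(1 + σ) < -1)).mul_left 8
  refine ⟨∑' p : ℕ, 8 * (p : ℝ) ^ (-(1 + σ)), tsum_nonneg fun p => by positivity, fun w hw => ?_⟩
  refine tsum_of_norm_bounded hs.hasSum (fun p => ?_)
  refine (dd_le (good_prime a b) (good_norm a b) p (1 + w) (by simp; linarith)).trans ?_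
  refine mul_le_mul_of_nonneg_left ?_ (by norm_num)
  rcases Nat.eq_zero_or_pos p with h | h
  · subst h
    simp only [Nat.cast_zero, add_re, one_re]
    rw [Real.zero_rpow (by linarith), Real.zero_rpow (by linarith)]
  · exact Real.rpow_le_rpow_of_exponent_le (by exact_mod_cast h) (by simp; linarith)

lemma one_le_rp (t : ℝ) : 1 ≤ (1 + |t|) ^ (1 / 2 : ℝ) :=
  Real.one_le_rpow (by have := abs_nonneg t; linarith) (by norm_num)

lemma HH_bound (hZ : TaskZ) (m : ℕ) (L : ℂ → ℂ)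
    (hL : ∀ σ : ℝ, 0 < σ → ∃ B : ℝ, ∀ w : ℂ, σ ≤ w.re → ‖L w‖ ≤ B * (1 + |w.im|) ^ (1 / 2 : ℝ))
    (σ : ℝ) (hσ : 0 < σ) : ∃ B : ℝ, ∀ w : ℂ, σ ≤ w.re → w.re ≤ 1 →
      ‖HH a b m L w‖ ≤ B * (1 + |w.im|) ^ (1 / 2 : ℝ) := by
  obtain ⟨B1, hB1, h1⟩ := DDf_bound a b σ hσ
  obtain ⟨B2, h2⟩ := hL σ hσ
  obtain ⟨C, h3⟩ := hZ.2.2
  refine ⟨B1 + B2 + m * (|C| * (1 + |Real.log σ|)), fun w hw1 hw2 => ?_⟩
  have hr := one_le_rp w.im
  set r := (1 + |w.im|) ^ (1 / 2 : ℝ) with hrdef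
  have hw0 : 0 < w.re := by linarith
  have hz : ‖ZZ w‖ ≤ |C| * (1 + |Real.log σ|) := by
    refine (h3 w hw0).trans ?_
    have hl : |Real.log w.re| ≤ |Real.log σ| := by
      have h4 : Real.log w.re ≤ 0 := Real.log_nonpos hw0.le hw2
      have h5 : Real.log σ ≤ Real.log w.re := Real.log_le_log hσ hw1
      rw [abs_of_nonpos h4, abs_of_nonpos (h5.trans h4)]
      linarith
    calc C * (1 + |Real.log w.re|) ≤ |C| * (1 + |Real.log w.re|) :=
          mul_le_mul_of_nonneg_right (le_abs_self _) (by positivity)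
      _ ≤ _ := mul_le_mul_of_nonneg_left (by linarith) (abs_nonneg _)
  have hc : 0 ≤ m * (|C| * (1 + |Real.log σ|)) := by positivity
  calc ‖HH a b m L w‖ ≤ ‖DDf a b w‖ + ‖L w‖ + ‖(m : ℂ) * ZZ w‖ := by
        unfold HH
        exact (norm_sub_le _ _).trans (add_le_add_left (norm_sub_le _ _) _)
    _ ≤ B1 + B2 * r + m * (|C| * (1 + |Real.log σ|)) := by
        rw [norm_mul, Complex.norm_natCast]
        have := mul_le_mul_of_nonneg_left hz (by positivity : (0 : ℝ) ≤ m)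
        linarith [h1 w hw1, h2 w hw1]
    _ ≤ B1 * r + B2 * r + (m * (|C| * (1 + |Real.log σ|))) * r := by
        nlinarith
    _ = _ := by ring

/-- upper bound for the real part of the logarithm -/
lemma L_upper (hg : ∃ C K : ℝ, ∀ s : ℂ, 1 ≤ s.re → ‖F s‖ ≤ C * (1 + ‖s‖) ^ K) (L : ℂ → ℂ)
    (hL : ∀ w : ℂ, 0 < w.re → exp (L w) = F (1 + w)) :
    ∃ A : ℝ, ∀ w : ℂ, 0 < w.re → (L w).re ≤ A * (1 + Real.log (1 + ‖w‖)) := by
  obtain ⟨C, K, h⟩ := hg
  refine ⟨Real.log (|C| + 1) + |K| * 2, fun w hw => ?_⟩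
  have h1 := h (1 + w) (by simp; linarith)
  rw [← hL w hw, Complex.norm_exp] at h1
  have hn : 0 ≤ ‖w‖ := norm_nonneg w
  have h2 : (1 + ‖1 + w‖) ≤ 2 * (1 + ‖w‖) := by
    have := norm_add_le (1 : ℂ) w
    rw [norm_one] at this
    linarith
  have h3 : (1 : ℝ) ≤ 1 + ‖1 + w‖ := by have := norm_nonneg (1 + w); linarith
  have h4 : (1 + ‖1 + w‖) ^ K ≤ (2 * (1 + ‖w‖)) ^ |K| := by
    calc (1 + ‖1 + w‖) ^ K ≤ (1 + ‖1 + w‖) ^ |K| :=
          Real.rpow_le_rpow_of_exponent_le h3 (le_abs_self _)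
      _ ≤ _ := Real.rpow_le_rpow (by linarith) h2 (abs_nonneg _)
  have h5 : Real.exp (L w).re ≤ (|C| + 1) * (2 * (1 + ‖w‖)) ^ |K| := by
    have hp : 0 ≤ (1 + ‖1 + w‖) ^ K := by positivity
    calc _ ≤ C * (1 + ‖1 + w‖) ^ K := h1
      _ ≤ (|C| + 1) * (1 + ‖1 + w‖) ^ K :=
          mul_le_mul_of_nonneg_right (by have := le_abs_self C; linarith) hp
      _ ≤ _ := mul_le_mul_of_nonneg_left h4 (by positivity)
  have h6 := Real.log_le_log (Real.exp_pos _) h5
  have hpos : 0 < 2 * (1 + ‖w‖) := by linarith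
  rw [Real.log_exp, Real.log_mul (by positivity) (by positivity), Real.log_rpow hpos,
    Real.log_mul (by norm_num) (by positivity)] at h6
  have h7 : Real.log 2 ≤ 1 := by have := Real.log_two_lt_d9; linarith
  have h8 : 0 ≤ Real.log (1 + ‖w‖) := Real.log_nonneg (by linarith)
  have h9 : 0 ≤ Real.log (|C| + 1) := Real.log_nonneg (by have := abs_nonneg C; linarith)
  have h10 : 0 ≤ |K| := abs_nonneg K
  have h11 : |K| * (Real.log 2 + Real.log (1 + ‖w‖)) ≤ |K| * (1 + Real.log (1 + ‖w‖)) :=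
    mul_le_mul_of_nonneg_left (by linarith) h10
  nlinarith

end main

end Pool.Agent.H814R3.BSD
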