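import Pool.Agent.H814R3.BSD.Asm

set_option autoImplicit false
set_option maxHeartbeats 2000000

open Complex Filter Topology Finset MeasureTheory

namespace Pool.Agent.H814R3.BSD

open Pool.Agent.H438R3.BSD
open Classical

lemma w_re (U τ : ℝ) : ((1 + τ * I) / U : ℂ).re = 1 / U := by
  rw [Complex.div_ofReal_re]
  simp

lemma norm_num_le (τ : ℝ) : ‖(1 + τ * I : ℂ)‖ ≤ 1 + |τ| := by
  refine (norm_add_le _ _).trans ?_
  simp

lemma w_norm (U τ : ℝ) (hU : 0 < U) : ‖((1 + τ * I) / U : ℂ)‖ = ‖(1 + τ * I : ℂ)‖ / U := by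
  rw [norm_div, Complex.norm_real, Real.norm_eq_abs, abs_of_pos hU]

lemma w_tendsto (τ : ℝ) : Tendsto (fun U : ℝ => ((1 + τ * I) / U : ℂ)) atTop (𝓝 0) := by
  rw [tendsto_zero_iff_norm_tendsto_zero]
  have h : Tendsto (fun U : ℝ => ‖(1 + τ * I : ℂ)‖ / U) atTop (𝓝 0) :=
    tendsto_const_nhds.div_atTop tendsto_id
  refine h.congr' ?_
  filter_upwards [eventually_gt_atTop 0] with U hU
  rw [w_norm U τ hU]

lemma log_one_add_le {x : ℝ} (hx : 0 ≤ x) : Real.log (1 + (1 + x)) ≤ 1 + Real.log (1 + x) := by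
  have h1 : Real.log (1 + (1 + x)) ≤ Real.log (2 * (1 + x)) :=
    Real.log_le_log (by linarith) (by linarith)
  rw [Real.log_mul (by norm_num) (by linarith)] at h1
  have := Real.log_two_lt_d9
  linarith

lemma logint : Integrable (fun t : ℝ => Real.log (1 + |t|) / (1 + t ^ 2)) := by
  have h1 : Integrable (fun t : ℝ => 4 * (1 + ‖t‖) ^ (-(3 / 2) : ℝ)) := by
    apply Integrable.const_mul
    exact integrable_one_add_norm (by simp; norm_num)
  refine h1.mono' ?_ (Filter.Eventually.of_forall fun t => ?_)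
  · apply Continuous.aestronglyMeasurable
    have : Continuous fun t : ℝ => Real.log (1 + |t|) := by
      apply Continuous.log (by fun_prop)
      intro t
      have := abs_nonneg t
      positivity
    exact this.div (by fun_prop) (fun t => by positivity)
  · have ht := abs_nonneg t
    rw [Real.norm_eq_abs, Real.norm_eq_abs,
      abs_of_nonneg (div_nonneg (Real.log_nonneg (by linarith)) (by positivity))]
    have h2 : Real.log (1 + |t|) ≤ 2 * (1 + |t|) ^ (1 / 2 : ℝ) := by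
      have := Real.log_le_rpow_div (x := 1 + |t|) (by linarith) (ε := 1 / 2) (by norm_num)
      linarith
    rw [div_le_iff₀ (by positivity)]
    have h3 : (1 + |t|) ^ 2 ≤ 2 * (1 + t ^ 2) := by
      have := sq_abs t
      nlinarith [sq_nonneg (|t| - 1)]
    have h4 : (1 + |t|) ^ (1 / 2 : ℝ) = (1 + |t|) ^ (-(3 / 2) : ℝ) * (1 + |t|) ^ 2 := by
      rw [← Real.rpow_natCast, ← Real.rpow_add (by linarith)]
      norm_num
    have h5 : 0 ≤ (1 + |t|) ^ (-(3 / 2) : ℝ) := by positivity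
    calc Real.log (1 + |t|) ≤ 2 * ((1 + |t|) ^ (-(3 / 2) : ℝ) * (1 + |t|) ^ 2) := by rw [← h4]; exact h2
      _ ≤ 2 * ((1 + |t|) ^ (-(3 / 2) : ℝ) * (2 * (1 + t ^ 2))) := by gcongr
      _ = _ := by ring

theorem avg_limit (hPer : TaskPerron) (hBC : TaskBC) (hPois : TaskPois) (hEul : TaskEuler)
    (hZ : TaskZ) (hZ0 : TaskZ0) (hDD : TaskDD) (hDD0 : TaskDD0) (hAvg : TaskAvg)
    (hAvg2 : TaskAvg2) (hLim : TaskLim)
    (a b : ℤ) (hab : 4 * a ^ 3 + 27 * b ^ 2 ≠ 0) (F : ℂ → ℂ) (hF : IsL a b F)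
    (hgr : ∃ C K : ℝ, ∀ s : ℂ, 1 ≤ s.re → ‖F s‖ ≤ C * (1 + ‖s‖) ^ K) (hRS : RS a b)
    (hRH : ∀ s : ℂ, 1 < s.re → F s ≠ 0)
    (m : ℕ) (g : ℂ → ℂ) (hga : AnalyticAt ℂ g 1) (hg1 : g 1 ≠ 0)
    (hfac : ∀ᶠ z in 𝓝 (1 : ℂ), F z = (z - 1) ^ m * g z) :
    Tendsto (fun n : ℕ => LA a b m n) atTop
      (𝓝 (Real.log 2 / 2 + m * Real.eulerMascheroniConstant - Real.log ‖g 1‖)) := by
  obtain ⟨L, hLd, hLe, hLs, hLb⟩ := hEul a b F hF hRH
  obtain ⟨A, hA⟩ := L_upper hgr L hLe
  have hLbc := hBC L hLd hLb ⟨A, hA⟩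
  obtain ⟨CP, hCP⟩ := hPois L hLd hLb ⟨A, hA⟩
  obtain ⟨c, hc1, hc2, Cz, hCz⟩ := hZ0
  obtain ⟨C1, hC1⟩ := hDD a b
  obtain ⟨C3, hC3⟩ := hZ.2.2
  set H := HH a b m L with hH
  set h : ℝ → ℝ → ℝ := fun U τ => (H ((1 + τ * I) / U)).re with hh
  set h0 : ℝ := Real.log 2 / 2 - Real.log ‖g 1‖ - m * (c - Real.eulerMascheroniConstant) with hh0
  have hHd : DifferentiableOn ℂ H {w | 0 < w.re} := HH_diff hZ m L hLd
  have hopen : IsOpen {w : ℂ | 0 < w.re} := Complex.isOpen_re_gt 0
  -- the formula near `0`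
  have hgc : ContinuousAt (fun z => Real.log ‖g z‖) 1 :=
    (hga.continuousAt.norm).log (by simpa using hg1)
  have hev : ∀ᶠ z in 𝓝 (1 : ℂ), F z = (z - 1) ^ m * g z ∧ |Real.log ‖g z‖ - Real.log ‖g 1‖| < 1 ∧
      g z ≠ 0 := by
    refine hfac.and (Filter.Eventually.and ?_ (hga.continuousAt.eventually_ne hg1))
    have := Metric.tendsto_nhds.1 hgc 1 one_pos
    filter_upwards [this] with z hz
    rwa [Real.dist_eq] at hz
  obtain ⟨r0, hr0, hball⟩ := Metric.eventually_nhds_iff_ball.1 hev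
  have hnear : ∀ w : ℂ, 0 < w.re → ‖w‖ < r0 →
      (L w).re = m * Real.log ‖w‖ + Real.log ‖g (1 + w)‖ ∧
      |Real.log ‖g (1 + w)‖ - Real.log ‖g 1‖| < 1 := by
    intro w hw hwr
    obtain ⟨e1, e2, e3⟩ := hball (1 + w) (by
      rw [Metric.mem_ball, dist_eq_norm]
      simpa using hwr)
    refine ⟨?_, e2⟩
    have hw0 : w ≠ 0 := by
      rintro rfl
      simp at hw
    have h1 := hLe w hw
    rw [e1, add_sub_cancel_left] at h1
    have h2 : Real.exp (L w).re = ‖w‖ ^ m * ‖g (1 + w)‖ := by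
      rw [← Complex.norm_exp, h1, norm_mul, norm_pow]
    have h3 : ‖w‖ ≠ 0 := norm_ne_zero_iff.2 hw0
    have h4 : ‖g (1 + w)‖ ≠ 0 := norm_ne_zero_iff.2 e3
    rw [← Real.log_exp (L w).re, h2, Real.log_mul (pow_ne_zero _ h3) h4, Real.log_pow]
  have hHre : ∀ w : ℂ, (H w).re = (DDf a b w).re - (L w).re - m * (ZZ w).re := by
    intro w
    rw [hH]
    unfold HH
    simp only [sub_re]
    have : ((m : ℂ) * ZZ w).re = m * (ZZ w).re := by
      have e : (m : ℂ) = ((m : ℝ) : ℂ) := by push_cast; rfl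
      rw [e, Complex.re_ofReal_mul]
    rw [this]
  -- limit
  have hlim1 : ∀ τ : ℝ, Tendsto (fun U : ℝ => h U τ) atTop (𝓝 h0) := by
    intro τ
    have t1 : Tendsto (fun U : ℝ => (DDf a b ((1 + τ * I) / U)).re) atTop (𝓝 (Real.log 2 / 2)) :=
      hDD0 a b hab hRS τ
    have t2 := hc2 τ
    have t3 : Tendsto (fun U : ℝ => Real.log ‖g (1 + (1 + τ * I) / U)‖) atTop (𝓝 (Real.log ‖g 1‖)) := by
      have t4 : Tendsto (fun U : ℝ => (1 : ℂ) + (1 + τ * I) / U) atTop (𝓝 1) := by
        have := (tendsto_const_nhds (x := (1 : ℂ))).add (w_tendsto τ)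
        rwa [add_zero] at this
      exact hgc.tendsto.comp t4
    have t5 := (t1.sub t3).sub (t2.const_mul (m : ℝ))
    refine t5.congr' ?_
    have t6 : ∀ᶠ U : ℝ in atTop, ‖((1 + τ * I) / U : ℂ)‖ < r0 := by
      have := (tendsto_zero_iff_norm_tendsto_zero.1 (w_tendsto τ)).eventually (eventually_lt_nhds hr0)
      exact this
    filter_upwards [t6, eventually_gt_atTop 0] with U hU hU0
    have hre : 0 < ((1 + τ * I) / U : ℂ).re := by rw [w_re]; positivity
    rw [hh]
    simp only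
    rw [hHre, (hnear _ hre hU).1]
    ring
  set r : ℝ := min (r0 / 2) 1 with hr
  have hrpos : 0 < r := lt_min (by linarith) one_pos
  have hr1 : r ≤ 1 := min_le_right _ _
  have hrr0 : r < r0 := lt_of_le_of_lt (min_le_left _ _) (by linarith)
  set U0 : ℝ := max 1 (2 / r) with hU0
  have hU01 : 1 ≤ U0 := le_max_left _ _
  set K1 : ℝ := 2 * |C1| + m * |C3| with hK1
  have hK10 : 0 ≤ K1 := by positivity
  set J : ℝ := ∫ t : ℝ, Real.log (1 + |t|) / (1 + t ^ 2) with hJ
  have hJ0 : 0 ≤ J := by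
    apply integral_nonneg
    intro t
    have := abs_nonneg t
    exact div_nonneg (Real.log_nonneg (by linarith)) (by positivity)
  set CC : ℝ := 2 * |C1| + (|Real.log ‖g 1‖| + 1) + m * |Cz| + (|CP| + K1 * Real.pi + |C1| * J) with hCC
  have hcont : ∀ U : ℝ, 0 < U → Continuous (h U) := by
    intro U hU
    rw [hh]
    apply Complex.continuous_re.comp
    apply hHd.continuousOn.comp_continuous (by fun_prop)
    intro τ
    show 0 < ((1 + τ * I) / U : ℂ).re
    rw [w_re]
    positivity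
  have hlim := hLim h h0 CC (r / 2) U0 (by linarith) hU01
    (fun U hU => hcont U (by linarith)) hlim1 ?_ ?_
  · -- the explicit formula
    have hper := hPer (cf a b m) H (cf_zero a b m) (cf_summable a b m) hHd
      (fun w hw => HH_series hZ m L hLs w hw) (HH_bound hZ m L hLbc)
    have ht : Tendsto (fun U : ℝ => ∑ k ∈ Finset.Icc 1 ⌊Real.exp U⌋₊,
        cf a b m k * (1 - Real.log k / U)) atTop (𝓝 h0) := by
      refine hlim.congr' ?_
      filter_upwards [eventually_ge_atTop 1] with U hU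
      rw [hper U hU]
    have h1 := hAvg (cf a b m) (5 + 2 * m) h0 (cf_zero a b m) (cf_le a b m) ht
    have h2 := hAvg2 (fun n : ℕ => (∑ k ∈ Finset.Icc 1 n, zz k) - Real.log (Real.log n)) c hc1
    have h3 := h1.add (h2.const_mul (m : ℝ))
    have e0 : h0 + m * c = Real.log 2 / 2 + m * Real.eulerMascheroniConstant - Real.log ‖g 1‖ := by
      rw [hh0]; ring
    rw [← e0]
    refine h3.congr fun n => ?_
    unfold LA
    rw [← mul_div_assoc, ← add_div, Finset.mul_sum, ← Finset.sum_add_distrib]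
    congr 1
    refine Finset.sum_congr rfl fun j _ => ?_
    rw [sum_cf]
    ring
  · intro U τ hU hτ
    have hUpos : 0 < U := by linarith
    have hUr : 2 / r ≤ U := le_trans (le_max_right _ _) hU
    have hU2 : 1 / U ≤ r / 2 := by
      rw [div_le_div_iff₀ hUpos (by norm_num)]
      rw [div_le_iff₀ hrpos] at hUr
      linarith
    have hre : ((1 + τ * I) / U : ℂ).re = 1 / U := w_re U τ
    have hre0 : 0 < ((1 + τ * I) / U : ℂ).re := by rw [hre]; positivity
    have hre1 : ((1 + τ * I) / U : ℂ).re ≤ 1 := by rw [hre]; linarith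
    have hn : ‖((1 + τ * I) / U : ℂ)‖ ≤ r := by
      rw [w_norm U τ hUpos, div_le_iff₀ hUpos]
      have h1 := norm_num_le τ
      have h2 : 1 ≤ r / 2 * U := by
        rw [div_le_iff₀ hUpos] at hU2
        exact hU2
      nlinarith
    obtain ⟨n1, n2⟩ := hnear _ hre0 (lt_of_le_of_lt hn hrr0)
    have d1 := hC1 _ hre0 hre1
    have d2 := hCz _ hre0 (hn.trans hr1)
    set w : ℂ := (1 + τ * I) / U with hw
    have hquot : ‖w‖ / w.re ≤ 1 + |τ| := by
      rw [hre, hw, w_norm U τ hUpos]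
      have : ‖(1 + τ * I : ℂ)‖ / U / (1 / U) = ‖(1 + τ * I : ℂ)‖ := by field_simp
      rw [this]
      exact norm_num_le τ
    have hτ0 := abs_nonneg τ
    have hquot0 : 0 ≤ ‖w‖ / w.re := by positivity
    have hl0 : 0 ≤ Real.log (1 + |τ|) := Real.log_nonneg (by linarith)
    have d3 : Real.log (1 + ‖w‖ / w.re) ≤ 1 + Real.log (1 + |τ|) :=
      (Real.log_le_log (by linarith) (by linarith)).trans (log_one_add_le hτ0)
    have d4 : |(DDf a b w).re| ≤ |C1| * (2 + Real.log (1 + |τ|)) := by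
      refine (Complex.abs_re_le_norm _).trans (d1.trans ?_)
      have hl1 : 0 ≤ Real.log (1 + ‖w‖ / w.re) := Real.log_nonneg (by linarith)
      calc C1 * (1 + Real.log (1 + ‖w‖ / w.re)) ≤ |C1| * (1 + Real.log (1 + ‖w‖ / w.re)) :=
            mul_le_mul_of_nonneg_right (le_abs_self _) (by linarith)
        _ ≤ _ := mul_le_mul_of_nonneg_left (by linarith) (abs_nonneg _)
    have d5 : |Real.log ‖g (1 + w)‖| ≤ |Real.log ‖g 1‖| + 1 := by
      have e : Real.log ‖g (1 + w)‖ = Real.log ‖g 1‖ + (Real.log ‖g (1 + w)‖ - Real.log ‖g 1‖) := by ring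
      rw [e]
      exact (abs_add_le _ _).trans (by linarith)
    have d6 : |(m : ℝ) * ((ZZ w).re + Real.log ‖w‖)| ≤ m * |Cz| := by
      rw [abs_mul, abs_of_nonneg (by positivity : (0 : ℝ) ≤ m)]
      exact mul_le_mul_of_nonneg_left (d2.trans (le_abs_self _)) (by positivity)
    have e1 : h U τ = (DDf a b w).re - Real.log ‖g (1 + w)‖ - m * ((ZZ w).re + Real.log ‖w‖) := by
      rw [hh]
      simp only
      rw [hHre, n1]
      ring
    rw [e1]
    have hmC : 0 ≤ (m : ℝ) * |Cz| := by positivity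
    have hgl : 0 ≤ |Real.log ‖g 1‖| := abs_nonneg _
    have hC10 : 0 ≤ |C1| := abs_nonneg _
    have hrest : 0 ≤ |CP| + K1 * Real.pi + |C1| * J := by
      have := Real.pi_pos
      positivity
    calc |(DDf a b w).re - Real.log ‖g (1 + w)‖ - m * ((ZZ w).re + Real.log ‖w‖)|
        ≤ |(DDf a b w).re| + |Real.log ‖g (1 + w)‖| + |(m : ℝ) * ((ZZ w).re + Real.log ‖w‖)| := by
          refine (abs_sub _ _).trans ?_
          exact add_le_add_left (abs_sub _ _) _
      _ ≤ |C1| * (2 + Real.log (1 + |τ|)) + (|Real.log ‖g 1‖| + 1) + m * |Cz| := by linarith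
      _ ≤ CC * (1 + Real.log (1 + |τ|)) := by
          rw [hCC]
          nlinarith [mul_nonneg hC10 hl0, mul_nonneg hmC hl0, mul_nonneg hgl hl0,
            mul_nonneg hrest hl0]
  · intro U hU
    have hU1 : 1 ≤ U := le_trans hU01 hU
    have hUpos : 0 < U := by linarith
    set σ : ℝ := 1 / U with hσ
    have hσ0 : 0 < σ := by positivity
    have hσ1 : σ ≤ 1 := by rw [hσ, div_le_one hUpos]; exact hU1
    obtain ⟨p1, p2⟩ := hCP σ hσ0 hσ1
    have hlU : 0 ≤ Real.log U := Real.log_nonneg hU1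
    have hpt : ∀ t : ℝ, |h U (U * t)| / (1 + t ^ 2) ≤
        |(L (σ + t * I)).re| / (1 + t ^ 2) + K1 * (1 + Real.log U) * (1 + t ^ 2)⁻¹ +
          |C1| * (Real.log (1 + |t|) / (1 + t ^ 2)) := by
      intro t
      have hw : ((1 + ((U * t : ℝ) : ℂ) * I) / U : ℂ) = σ + t * I := by
        have hUc : (U : ℂ) ≠ 0 := by exact_mod_cast hUpos.ne'
        rw [hσ]
        push_cast
        field_simp
      have hwre : (σ + t * I : ℂ).re = σ := by simp
      have ht0 := abs_nonneg t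
      have d1 := hC1 (σ + t * I) (by rw [hwre]; exact hσ0) (by rw [hwre]; exact hσ1)
      have d2 := hC3 (σ + t * I) (by rw [hwre]; exact hσ0)
      rw [hwre] at d1 d2
      have hq : 1 + ‖(σ + t * I : ℂ)‖ / σ ≤ 2 * (U * (1 + |t|)) := by
        have h1 : ‖(σ + t * I : ℂ)‖ ≤ σ + |t| := by
          refine (norm_add_le _ _).trans ?_
          rw [Complex.norm_real, Real.norm_eq_abs, abs_of_pos hσ0]
          simp
        have h2 : ‖(σ + t * I : ℂ)‖ / σ ≤ (σ + |t|) / σ := div_le_div_of_nonneg_right h1 hσ0.le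
        have h3 : (σ + |t|) / σ = 1 + U * |t| := by
          rw [hσ]; field_simp
        rw [h3] at h2
        nlinarith
      have hq0 : 0 < 1 + ‖(σ + t * I : ℂ)‖ / σ := by positivity
      have hlog : Real.log (1 + ‖(σ + t * I : ℂ)‖ / σ) ≤ 1 + Real.log U + Real.log (1 + |t|) := by
        have h1 := Real.log_le_log hq0 hq
        rw [Real.log_mul (by norm_num) (by positivity), Real.log_mul hUpos.ne' (by positivity)] at h1
        have := Real.log_two_lt_d9
        linarith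
      have hlog0 : 0 ≤ Real.log (1 + ‖(σ + t * I : ℂ)‖ / σ) := by
        apply Real.log_nonneg
        have : 0 ≤ ‖(σ + t * I : ℂ)‖ / σ := by positivity
        linarith
      have hlσ : |Real.log σ| = Real.log U := by
        rw [hσ, one_div, Real.log_inv, abs_neg, abs_of_nonneg hlU]
      rw [hlσ] at d2
      have e1 : |h U (U * t)| ≤ |(L (σ + t * I)).re| + K1 * (1 + Real.log U) +
          |C1| * Real.log (1 + |t|) := by
        rw [hh]
        simp only
        rw [hw, hHre]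
        have f1 : |(DDf a b (σ + t * I)).re| ≤ |C1| * (2 + Real.log U + Real.log (1 + |t|)) := by
          refine (Complex.abs_re_le_norm _).trans (d1.trans ?_)
          calc _ ≤ |C1| * (1 + Real.log (1 + ‖(σ + t * I : ℂ)‖ / σ)) :=
                mul_le_mul_of_nonneg_right (le_abs_self _) (by linarith)
            _ ≤ _ := mul_le_mul_of_nonneg_left (by linarith) (abs_nonneg _)
        have f2 : |(m : ℝ) * (ZZ (σ + t * I)).re| ≤ m * (|C3| * (1 + Real.log U)) := by
          rw [abs_mul, abs_of_nonneg (by positivity : (0 : ℝ) ≤ m)]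
          refine mul_le_mul_of_nonneg_left ((Complex.abs_re_le_norm _).trans (d2.trans ?_)) (by positivity)
          exact mul_le_mul_of_nonneg_right (le_abs_self _) (by linarith)
        have f3 : |(DDf a b (σ + t * I)).re - (L (σ + t * I)).re - m * (ZZ (σ + t * I)).re| ≤
            |(DDf a b (σ + t * I)).re| + |(L (σ + t * I)).re| + |(m : ℝ) * (ZZ (σ + t * I)).re| := by
          refine (abs_sub _ _).trans ?_
          exact add_le_add_left (abs_sub _ _) _
        refine f3.trans ?_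
        rw [hK1]
        nlinarith [abs_nonneg C1, mul_nonneg (abs_nonneg C1) hlU]
      calc |h U (U * t)| / (1 + t ^ 2) ≤ (|(L (σ + t * I)).re| + K1 * (1 + Real.log U) +
          |C1| * Real.log (1 + |t|)) / (1 + t ^ 2) := div_le_div_of_nonneg_right e1 (by positivity)
        _ = _ := by ring
    have hint : Integrable (fun t : ℝ => |(L (σ + t * I)).re| / (1 + t ^ 2) +
        K1 * (1 + Real.log U) * (1 + t ^ 2)⁻¹ + |C1| * (Real.log (1 + |t|) / (1 + t ^ 2))) :=
      (p1.add (integrable_inv_one_add_sq.const_mul _)).add (logint.const_mul _)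
    have hmeas : AEStronglyMeasurable (fun t : ℝ => |h U (U * t)| / (1 + t ^ 2)) := by
      apply Continuous.aestronglyMeasurable
      have : Continuous fun t : ℝ => h U (U * t) := (hcont U hUpos).comp (by fun_prop)
      exact this.abs.div (by fun_prop) (fun t => by positivity)
    have hI : Integrable (fun t : ℝ => |h U (U * t)| / (1 + t ^ 2)) := by
      refine hint.mono' hmeas (Filter.Eventually.of_forall fun t => ?_)
      rw [Real.norm_eq_abs, abs_of_nonneg (by positivity)]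
      exact hpt t
    refine ⟨hI, ?_⟩
    have h1 : ∫ t : ℝ, |h U (U * t)| / (1 + t ^ 2) ≤ CP + K1 * (1 + Real.log U) * Real.pi + |C1| * J := by
      refine (integral_mono hI hint hpt).trans ?_
      have i1 : Integrable (fun t : ℝ => |(L (σ + t * I)).re| / (1 + t ^ 2) +
          K1 * (1 + Real.log U) * (1 + t ^ 2)⁻¹) := p1.add (integrable_inv_one_add_sq.const_mul _)
      have g1 : ∫ t : ℝ, (|(L (σ + t * I)).re| / (1 + t ^ 2) + K1 * (1 + Real.log U) * (1 + t ^ 2)⁻¹ +
          |C1| * (Real.log (1 + |t|) / (1 + t ^ 2))) =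
          (∫ t : ℝ, (|(L (σ + t * I)).re| / (1 + t ^ 2) + K1 * (1 + Real.log U) * (1 + t ^ 2)⁻¹)) +
          ∫ t : ℝ, |C1| * (Real.log (1 + |t|) / (1 + t ^ 2)) :=
        integral_add i1 (logint.const_mul _)
      have g2 : ∫ t : ℝ, (|(L (σ + t * I)).re| / (1 + t ^ 2) + K1 * (1 + Real.log U) * (1 + t ^ 2)⁻¹) =
          (∫ t : ℝ, |(L (σ + t * I)).re| / (1 + t ^ 2)) +
          ∫ t : ℝ, K1 * (1 + Real.log U) * (1 + t ^ 2)⁻¹ :=
        integral_add p1 (integrable_inv_one_add_sq.const_mul _)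
      rw [g1, g2, integral_const_mul, integral_const_mul, integral_univ_inv_one_add_sq]
      linarith
    refine h1.trans ?_
    have hp := Real.pi_pos
    have hCPa := le_abs_self CP
    have hCP0 := abs_nonneg CP
    have hx1 : 0 ≤ |C1| := abs_nonneg C1
    have hx2 : 0 ≤ (m : ℝ) * |Cz| := by positivity
    have hx3 : 0 ≤ |C1| * J := by positivity
    have hx4 : 0 ≤ K1 * Real.pi := by positivity
    have hx5 : 0 ≤ |Real.log ‖g 1‖| := abs_nonneg _
    rw [hCC]
    nlinarith [mul_nonneg hx1 hlU, mul_nonneg hx2 hlU, mul_nonneg hx3 hlU, mul_nonneg hx5 hlU,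
      mul_nonneg hCP0 hlU]

end Pool.Agent.H814R3.BSD
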