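import Pool.Agent.H814R3.BSD.Asm2

set_option autoImplicit false
set_option maxHeartbeats 2000000

open Complex Filter Topology Finset MeasureTheory

namespace Pool.Agent.H814R3.BSD

open Pool.Agent.H438R3.BSD
open Classical

/-- the limit theorem -/
def AvgLimit : Prop := ∀ (a b : ℤ), 4 * a ^ 3 + 27 * b ^ 2 ≠ 0 → ∀ F : ℂ → ℂ, IsL a b F →
    (∃ C K : ℝ, ∀ s : ℂ, 1 ≤ s.re → ‖F s‖ ≤ C * (1 + ‖s‖) ^ K) → RS a b →
    (∀ s : ℂ, 1 < s.re → F s ≠ 0) →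
    ∀ (m : ℕ) (g : ℂ → ℂ), AnalyticAt ℂ g 1 → g 1 ≠ 0 →
    (∀ᶠ z in 𝓝 (1 : ℂ), F z = (z - 1) ^ m * g z) →
    Tendsto (fun n : ℕ => LA a b m n) atTop
      (𝓝 (Real.log 2 / 2 + m * Real.eulerMascheroniConstant - Real.log ‖g 1‖))

/-- The equivalence, for an elliptic curve with the properties known from modularity and from the
Rankin-Selberg method. -/
theorem equiv (hA : AvgLimit) (a b : ℤ) (hab : 4 * a ^ 3 + 27 * b ^ 2 ≠ 0) (F : ℂ → ℂ)
    (hF : IsL a b F) (hgr : ∃ C K : ℝ, ∀ s : ℂ, 1 ≤ s.re → ‖F s‖ ≤ C * (1 + ‖s‖) ^ K)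
    (hRS : RS a b) :
    ∃ (m : ℕ) (l : ℂ), analyticOrderAt F 1 = m ∧ l ≠ 0 ∧
      Tendsto (fun s : ℂ => F s / (s - 1) ^ m) (𝓝[≠] 1) (𝓝 l) ∧
      ∀ κ : ℝ, List.TFAE [
        (∀ s : ℂ, 1 < s.re → F s ≠ 0) ∧ κ = m,
        κ ≤ m ∧ ∃ K : ℝ, ∀ n : ℕ, LA a b κ n ≤ K,
        ∃ K : ℝ, ∀ n : ℕ, |LA a b κ n| ≤ K,
        ∃ t : ℝ, Tendsto (fun n : ℕ => LA a b κ n) atTop (𝓝 t),
        Tendsto (fun n : ℕ => LA a b κ n) atTop
          (𝓝 (Real.log 2 / 2 + κ * Real.eulerMascheroniConstant - Real.log ‖l‖))] := by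
  obtain ⟨m, hm, hM⟩ := main hF
  obtain ⟨g, hga, hg1, hfac⟩ := (hF.1.analyticAt 1).analyticOrderAt_eq_natCast.1 hm
  have hfac' : ∀ᶠ z in 𝓝 (1 : ℂ), F z = (z - 1) ^ m * g z := by
    filter_upwards [hfac] with z hz
    rw [hz, smul_eq_mul]
  refine ⟨m, g 1, hm, hg1, ?_, fun κ => ?_⟩
  · have h1 : Tendsto g (𝓝[≠] 1) (𝓝 (g 1)) := hga.continuousAt.tendsto.mono_left nhdsWithin_le_nhds
    refine h1.congr' ?_
    filter_upwards [nhdsWithin_le_nhds hfac', self_mem_nhdsWithin] with z hz hz1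
    rw [hz, mul_div_cancel_left₀]
    exact pow_ne_zero _ (sub_ne_zero.2 hz1)
  · have up : ∀ κ : ℝ, (∃ K : ℝ, ∀ n : ℕ, LA a b κ n ≤ K) →
        (∀ s : ℂ, 1 < s.re → F s ≠ 0) ∧ (m : ℝ) ≤ κ := by
      rintro κ ⟨K, hK⟩
      have h1 : ¬ (κ < m ∨ ∃ ρ : ℂ, 1 < ρ.re ∧ F ρ = 0) := by
        intro h
        have h2 := (hM.1 κ h K).1
        obtain ⟨n, hn⟩ := h2.exists
        exact absurd (hK n) (not_le.2 hn)
      push Not at h1
      exact ⟨fun s hs => h1.2 s hs, h1.1⟩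
    tfae_have 1 → 5 := by
      rintro ⟨h1, h2⟩
      rw [h2]
      exact hA a b hab F hF hgr hRS h1 m g hga hg1 hfac'
    tfae_have 5 → 4 := fun h => ⟨_, h⟩
    tfae_have 4 → 3 := by
      rintro ⟨t, ht⟩
      have h1 := Metric.isBounded_range_of_tendsto _ ht
      obtain ⟨K, hK⟩ := h1.exists_norm_le
      exact ⟨K, fun n => by
        have := hK _ (Set.mem_range_self n)
        rwa [Real.norm_eq_abs] at this⟩
    tfae_have 3 → 1 := by
      rintro ⟨K, hK⟩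
      obtain ⟨h1, h2⟩ := up κ ⟨K, fun n => (le_abs_self _).trans (hK n)⟩
      refine ⟨h1, le_antisymm ?_ h2⟩
      by_contra hcon
      push Not at hcon
      have h3 := (hM.2 (fun σ hσ => h1 σ (by simpa using hσ)) κ (Or.inl hcon) (|K| + 1)
        (by have := abs_nonneg K; linarith)).1
      obtain ⟨n, hn⟩ := h3.exists
      have h4 := (abs_le.1 (hK n)).1
      have h5 := le_abs_self K
      linarith
    tfae_have 1 → 2 := by
      rintro ⟨h1, h2⟩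
      refine ⟨h2.le, ?_⟩
      have h3 := hA a b hab F hF hgr hRS h1 m g hga hg1 hfac'
      rw [← h2] at h3
      obtain ⟨K, hK⟩ := (Metric.isBounded_range_of_tendsto _ h3).exists_norm_le
      exact ⟨K, fun n => by
        have := hK _ (Set.mem_range_self n)
        rw [Real.norm_eq_abs] at this
        exact (le_abs_self _).trans this⟩
    tfae_have 2 → 1 := by
      rintro ⟨h1, h2⟩
      obtain ⟨h3, h4⟩ := up κ h2
      exact ⟨h3, le_antisymm h1 h4⟩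
    tfae_finish

end Pool.Agent.H814R3.BSD
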